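import Pool.Graph.R_seed8.H703R2.LP.Shell

/-! The measure of spherical caps. -/

set_option autoImplicit false
set_option linter.unusedSectionVars false

open MeasureTheory Set Metric
open scoped ENNReal

namespace Pool.Agent.H712.NS

open Pool.Agent.H703R2.LP

variable {n : ℕ}

/-- the cone over a cap -/
def coneS (c : EE n) (κ : ℝ) : Set (EE n) := {z | κ * ‖z‖ ≤ inner ℝ c z}

theorem coneS_closed (c : EE n) (κ : ℝ) : IsClosed (coneS c κ) := by
  unfold coneS
  refine isClosed_le (continuous_const.mul continuous_norm) ?_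
  exact Continuous.inner (𝕜 := ℝ) (continuous_const (y := c)) continuous_id

theorem cone_shell (hn : 0 < n) (c : EE n) (κ a b : ℝ) :
    sph n {y | κ ≤ inner ℝ c (y : EE n)} * volume (shell n a b) =
      sph n univ * volume (coneS c κ ∩ shell n a b) := by
  have h1 := polar_rad hn (a := a) (b := b) (coneS_closed c κ).measurableSet
  have h2 := polar_rad hn (a := a) (b := b) (A := univ) MeasurableSet.univ
  have e1 : {p : sphere (0 : EE n) 1 × Ioi (0:ℝ) | (p.2 : ℝ) • (p.1 : EE n) ∈ coneS c κ} =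
      {y : sphere (0 : EE n) 1 | κ ≤ inner ℝ c (y : EE n)} ×ˢ univ := by
    ext ⟨y, t⟩
    have ht : (0:ℝ) < t := t.2
    have hy : ‖(y : EE n)‖ = 1 := norm_eq_of_mem_sphere y
    simp only [coneS, mem_ofPred_eq, mem_prod, mem_univ, and_true]
    rw [norm_smul, hy, mul_one, Real.norm_eq_abs, abs_of_pos ht, real_inner_smul_right, mul_comm κ]
    exact mul_le_mul_iff_right₀ ht
  have e2 : {p : sphere (0 : EE n) 1 × Ioi (0:ℝ) | (p.2 : ℝ) • (p.1 : EE n) ∈ (univ : Set (EE n))}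
      = univ ×ˢ univ := by
    ext p; simp
  rw [e1, Measure.prod_prod] at h1
  rw [e2, Measure.prod_prod, univ_inter] at h2
  rw [← h1, ← h2]
  ring

theorem cone_sub {κ : ℝ} (hκ0 : 0 ≤ κ) {c : EE n} (hc : ‖c‖ = 1) (hn : 0 < n) :
    coneS c κ ∩ shell n (1 - 1 / n) 1 ⊆ closedBall (κ • c) (√(1 - κ ^ 2 + 1 / (n:ℝ) ^ 2)) := by
  have hn' : (0:ℝ) < n := by exact_mod_cast hn
  rintro z ⟨h1, h2, h3⟩
  rw [mem_closedBall, dist_eq_norm]
  apply Real.le_sqrt_of_sq_le
  have h1' : κ * ‖z‖ ≤ inner ℝ c z := h1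
  have e1 : ‖z - κ • c‖ ^ 2 = ‖z‖ ^ 2 - 2 * (κ * inner ℝ c z) + κ ^ 2 := by
    rw [@norm_sub_sq_real, real_inner_smul_right, norm_smul, hc, mul_one, Real.norm_eq_abs, sq_abs,
      real_inner_comm]
  rw [e1]
  set t := ‖z‖ with ht
  have e2 : κ * (κ * t) ≤ κ * inner ℝ c z := mul_le_mul_of_nonneg_left h1' hκ0
  have hκz : κ ≤ 1 := by
    have h4 := abs_real_inner_le_norm c z
    rw [hc, one_mul] at h4
    have h5 := (le_abs_self _).trans h4
    have ht1 : 0 ≤ t := norm_nonneg z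
    rcases ht1.eq_or_lt with h6 | h6
    · rw [← h6] at h2
      have h7 : (1:ℝ) / n ≤ 1 := by
        rw [div_le_one hn']
        exact_mod_cast hn
      linarith
    · by_contra hcon
      push Not at hcon
      nlinarith
  set u := 1 - t with hu
  have hu0 : 0 < u := by linarith
  have hu1 : u < 1 / n := by linarith
  have e3 : u ^ 2 ≤ 1 / (n:ℝ) ^ 2 := by
    have : u ^ 2 ≤ (1 / (n:ℝ)) ^ 2 := pow_le_pow_left₀ hu0.le hu1.le 2
    rwa [div_pow, one_pow] at this
  have e4 : t ^ 2 - 2 * (κ * (κ * t)) + κ ^ 2 = 1 - κ ^ 2 - 2 * u * (1 - κ ^ 2) + u ^ 2 := by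
    rw [hu]; ring
  have e5 : 0 ≤ 2 * u * (1 - κ ^ 2) := by
    have : κ ^ 2 ≤ 1 := pow_le_one₀ hκ0 hκz
    have : 0 ≤ 1 - κ ^ 2 := by linarith
    positivity
  linarith

theorem ball_shell (hn : 0 < n) :
    volume (ball (0 : EE n) 1) ≤ 2 * volume (shell n (1 - 1 / n) 1) := by
  have hn' : (0:ℝ) < n := by exact_mod_cast hn
  have hNe : Nonempty (Fin n) := ⟨⟨0, hn⟩⟩
  have hNt : Nontrivial (EE n) := inferInstance
  set V := volume (ball (0 : EE n) 1) with hV
  have hVt : V ≠ ∞ := measure_ball_lt_top.ne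
  have h0 : (0:ℝ) ≤ 1 - 1 / n := by
    rw [sub_nonneg, div_le_one hn']
    exact_mod_cast hn
  have h1 : ball (0 : EE n) 1 ⊆ shell n (1 - 1 / n) 1 ∪ closedBall 0 (1 - 1 / n) := by
    intro z hz
    rw [mem_ball_zero_iff] at hz
    by_cases h : ‖z‖ ≤ 1 - 1 / n
    · right; rwa [mem_closedBall_zero_iff]
    · left; exact ⟨not_le.1 h, hz⟩
  have h2 : volume (closedBall (0 : EE n) (1 - 1 / n)) = ENNReal.ofReal ((1 - 1 / n) ^ n) * V := by
    rw [Measure.addHaar_closedBall _ _ h0, finrank_euclideanSpace_fin]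
  have h3 : (1 - 1 / (n:ℝ)) ^ n ≤ 1 / 2 := by
    have h4 := Real.one_sub_div_pow_le_exp_neg (n := n) (t := 1) (by exact_mod_cast hn)
    refine h4.trans ?_
    rw [Real.exp_neg, one_div]
    refine inv_anti₀ (by norm_num) ?_
    have := Real.add_one_le_exp (1:ℝ)
    linarith
  have h4 : V ≤ volume (shell n (1 - 1 / n) 1) + ENNReal.ofReal (1 / 2) * V := by
    refine (measure_mono h1).trans ((measure_union_le _ _).trans ?_)
    rw [h2]
    exact add_le_add_right (mul_le_mul_left (ENNReal.ofReal_le_ofReal h3) _) _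
  have h5 : volume (shell n (1 - 1 / n) 1) ≠ ∞ := by
    refine ne_top_of_le_ne_top hVt (measure_mono fun z hz => ?_)
    rw [mem_ball_zero_iff]; exact hz.2
  rw [← ENNReal.toReal_le_toReal hVt (by finiteness), ENNReal.toReal_mul]
  have h6 := ENNReal.toReal_mono (by finiteness) h4
  rw [ENNReal.toReal_add h5 (by finiteness), ENNReal.toReal_mul,
    ENNReal.toReal_ofReal (by norm_num)] at h6
  have h7 : (2 : ℝ≥0∞).toReal = 2 := by norm_num
  rw [h7]
  linarith

/-- **Measure of a cap.** -/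
theorem cap_le (hn : 0 < n) {κ : ℝ} (hκ0 : 0 ≤ κ) {c : EE n} (hc : ‖c‖ = 1) :
    (sph n {y | κ ≤ inner ℝ c (y : EE n)}).toReal ≤
      2 * √(1 - κ ^ 2 + 1 / (n:ℝ) ^ 2) ^ n * (sph n univ).toReal := by
  have hNe : Nonempty (Fin n) := ⟨⟨0, hn⟩⟩
  have hNt : Nontrivial (EE n) := inferInstance
  set R := √(1 - κ ^ 2 + 1 / (n:ℝ) ^ 2) with hR
  set V := volume (ball (0 : EE n) 1) with hV
  have hVt : V ≠ ∞ := measure_ball_lt_top.ne
  have hV0 : 0 < V.toReal := by
    rw [ENNReal.toReal_pos_iff]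
    exact ⟨measure_ball_pos _ _ one_pos, measure_ball_lt_top⟩
  set P := sph n {y | κ ≤ inner ℝ c (y : EE n)} with hP
  have hPt : P ≠ ∞ := measure_ne_top _ _
  have hSt : sph n univ ≠ ∞ := measure_ne_top _ _
  have h1 : P * V ≤ 2 * (sph n univ * (ENNReal.ofReal (R ^ n) * V)) := by
    calc P * V ≤ P * (2 * volume (shell n (1 - 1 / n) 1)) := mul_le_mul_right (ball_shell hn) _
      _ = 2 * (P * volume (shell n (1 - 1 / n) 1)) := by ring
      _ = 2 * (sph n univ * volume (coneS c κ ∩ shell n (1 - 1 / n) 1)) := by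
          rw [cone_shell hn]
      _ ≤ 2 * (sph n univ * volume (closedBall (κ • c) R)) := by
          gcongr
          exact cone_sub hκ0 hc hn
      _ = _ := by
          rw [Measure.addHaar_closedBall _ _ (Real.sqrt_nonneg _), finrank_euclideanSpace_fin]
  have h2 := ENNReal.toReal_mono (by finiteness) h1
  rw [ENNReal.toReal_mul, ENNReal.toReal_mul, ENNReal.toReal_mul, ENNReal.toReal_mul,
    ENNReal.toReal_ofReal (by positivity)] at h2
  have h7 : (2 : ℝ≥0∞).toReal = 2 := by norm_num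
  rw [h7] at h2
  have h3 : P.toReal * V.toReal ≤ (2 * R ^ n * (sph n univ).toReal) * V.toReal := by
    calc _ ≤ _ := h2
      _ = _ := by ring
  exact le_of_mul_le_mul_right h3 hV0

end Pool.Agent.H712.NS
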