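import Pool.Agent.H712.NP.Conc

/-! Concentration of Lipschitz functions under random rotations, in measure. -/

set_option autoImplicit false
set_option linter.unusedSectionVars false

open MeasureTheory Metric Set

namespace Pool.Agent.H712.NS

open Pool.Agent.Helper28 Pool.Agent.H712.NP

attribute [local instance] compactSpace_UG secondCountable_UG measUG borelUG

theorem conc_pack (E : Type) [NormedAddCommGroup E] [InnerProductSpace ℝ E] [CompleteSpace E]
    [FiniteDimensional ℝ E] [MeasurableSpace E] [BorelSpace E] {m : ℕ}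
    (hm : Module.finrank ℝ E = m + 2) :
    ∃ (Θ : Type) (_ : TopologicalSpace Θ) (_ : MeasurableSpace Θ) (_ : BorelSpace Θ)
      (_ : SecondCountableTopology Θ) (ν : Measure Θ) (_ : IsFiniteMeasure ν)
      (ι : Θ → unitary (E →L[ℝ] E)), ν univ ≠ 0 ∧ Continuous ι ∧
      ∀ (G : E → ℝ) (L τ : ℝ), 0 ≤ L → (∀ x y, |G x - G y| ≤ L * ‖x - y‖) → 0 < τ →
        ∀ a : E, ‖a‖ = 1 →
        ν {U | τ ≤ |G (((ι U : unitary (E →L[ℝ] E)) : E →L[ℝ] E) a) - sm G|} ≤
          ENNReal.ofReal (Real.pi * (L / √(m + 1)) / τ) * ν univ := by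
  refine ⟨unitary (E →L[ℝ] E), inferInstance, measUG E, borelUG E, secondCountable_UG,
    (Measure.haar : Measure (unitary (E →L[ℝ] E))), inferInstance, fun Q => Q⁻¹, ?_, ?_, ?_⟩
  · exact isOpen_univ.measure_ne_zero _ univ_nonempty
  · exact continuous_inv
  · intro G L τ hL hG hτ a ha
    have hc : Continuous G := by
      have : LipschitzWith ⟨L, hL⟩ G := LipschitzWith.of_dist_le_mul fun x y => by
        rw [Real.dist_eq, dist_eq_norm]; exact hG x y
      exact this.continuous
    have h1 := conc_lip hm hL hG ha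
    have hint : Integrable (fun Q : unitary (E →L[ℝ] E) => |G (act Q a) - sm G|)
        (Measure.haar : Measure (unitary (E →L[ℝ] E))) :=
      int_cont ((hc.comp (act_cont a)).sub continuous_const).abs
    have h2 := mul_meas_ge_le_integral_of_nonneg (μ := (Measure.haar :
      Measure (unitary (E →L[ℝ] E)))) (f := fun Q : unitary (E →L[ℝ] E) =>
        |G (act Q a) - sm G|) (Filter.Eventually.of_forall fun _ => abs_nonneg _) hint τ
    have h3 : {Q : unitary (E →L[ℝ] E) | τ ≤ |G (((Q⁻¹ : unitary (E →L[ℝ] E)) : E →L[ℝ] E) a) -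
        sm G|} = {Q | τ ≤ |G (act Q a) - sm G|} := rfl
    rw [h3]
    set M := (Measure.haar : Measure (unitary (E →L[ℝ] E))) with hM
    have h4 : M.real {Q | τ ≤ |G (act Q a) - sm G|} ≤
        Real.pi * (L / √(m + 1)) / τ * M.real univ := by
      rw [div_mul_eq_mul_div, le_div_iff₀ hτ, mul_comm]
      exact h2.trans h1
    have h5 : 0 ≤ Real.pi * (L / √((m : ℝ) + 1)) / τ := by positivity
    have h6 := ENNReal.ofReal_le_ofReal h4
    rw [ENNReal.ofReal_mul h5, ofReal_measureReal, ofReal_measureReal] at h6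
    exact h6

end Pool.Agent.H712.NS
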