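import Pool.Graph.R_seed8.H703R2.LP.Shell
import Pool.Graph.R_seed8.Helper28.SphereCalc

/-! Rotations: fibres, right invariance of the Haar measure, the law of a rotated unit vector. -/

set_option autoImplicit false

open MeasureTheory Set Metric
open scoped ENNReal

namespace Pool.Agent.H712.NS

open Pool.Agent.H703R2.LP

/-- sums over the fibres of a map with finitely many values -/
theorem sum_fiber {Ω V : Type*} [MeasurableSpace Ω] [Fintype V] (K : Measure Ω)
    [IsFiniteMeasure K] (f : Ω → V) (hf : ∀ v, MeasurableSet {ω | f ω = v}) (R : V → Prop)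
    [DecidablePred R] :
    ∑ v, (if R v then (K {ω | f ω = v}).toReal else 0) = (K {ω | R (f ω)}).toReal := by
  classical
  rw [← Finset.sum_filter]
  have h2 : {ω | R (f ω)} = ⋃ v ∈ Finset.univ.filter R, {ω | f ω = v} := by
    ext ω; simp
  rw [h2, measure_biUnion_finset, ENNReal.toReal_sum]
  · intro T _; exact measure_ne_top _ _
  · intro T _ T' _ hne
    refine Set.disjoint_left.2 fun ω h1 h2 => hne ?_
    exact h1.symm.trans h2
  · intro T _; exact hf T

variable {n : ℕ}

theorem haar_right (h : GG n) {A : Set (GG n)} (hA : MeasurableSet A) :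
    haarG n {g | g * h ∈ A} = haarG n A := by
  have h0 : (Measure.map (· * h) (haarG n)) A = haarG n {g | g * h ∈ A} := by
    rw [Measure.map_apply (measurable_mul_const h) hA]
    rfl
  have hfin : IsFiniteMeasure (Measure.map (· * h) (haarG n)) := inferInstance
  have h1 := Measure.isMulInvariant_eq_smul_of_compactSpace (Measure.map (· * h) (haarG n))
    (haarG n)
  set c := Measure.haarScalarFactor (Measure.map (· * h) (haarG n)) (haarG n) with hc
  have h2 : (Measure.map (· * h) (haarG n)) univ = haarG n univ := by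
    rw [Measure.map_apply (measurable_mul_const h) MeasurableSet.univ, preimage_univ]
  rw [h1, Measure.smul_apply] at h2
  have h3 : haarG n univ ≠ 0 := isOpen_univ.measure_ne_zero _ univ_nonempty
  have h4 : haarG n univ ≠ ∞ := measure_ne_top _ _
  have h5 : c = 1 := by
    rw [ENNReal.smul_def, smul_eq_mul] at h2
    have h6 : (c : ℝ≥0∞) * haarG n univ = 1 * haarG n univ := by rw [h2, one_mul]
    have h7 := (ENNReal.mul_left_inj h3 h4).1 h6
    exact_mod_cast h7
  rw [← h0, h1, h5, one_smul]

theorem measurable_act (u : EE n) : Measurable fun g : GG n => act g u :=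
  (continuous_act.comp (continuous_id.prodMk continuous_const)).measurable

/-- the law of a rotated unit vector -/
theorem haar_sph (hn : 0 < n) {u : EE n} (hu : ‖u‖ = 1) {B : Set (EE n)} (hB : MeasurableSet B) :
    haarG n {g | act g u ∈ B} * sph n univ = haarG n univ * sph n {y | (y : EE n) ∈ B} := by
  have hconst : ∀ u' : sphere (0 : EE n) 1, haarG n {g | act g (u' : EE n) ∈ B} =
      haarG n {g | act g u ∈ B} := by
    intro u'
    obtain ⟨h, hh⟩ := exists_act (c := u) (c' := (u' : EE n))
      (by rw [hu]; exact (norm_eq_of_mem_sphere u').symm)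
    have := haar_right h (A := {g | act g u ∈ B}) (measurable_act u hB)
    rw [← this, ← hh]
    rfl
  have h1 : ∫⁻ u' : sphere (0 : EE n) 1, haarG n {g | act g (u' : EE n) ∈ B} ∂(sph n) =
      haarG n {g | act g u ∈ B} * sph n univ := by
    simp_rw [hconst]
    rw [lintegral_const]
  rw [← h1]
  have hm : MeasurableSet {p : sphere (0 : EE n) 1 × GG n | act p.2 (p.1 : EE n) ∈ B} := by
    have hcont : Continuous fun p : sphere (0 : EE n) 1 × GG n => act p.2 (p.1 : EE n) :=
      continuous_act.comp (continuous_snd.prodMk (continuous_subtype_val.comp continuous_fst))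
    exact measurableSet_preimage hcont.measurable hB
  have h2 : ∫⁻ u' : sphere (0 : EE n) 1, haarG n {g | act g (u' : EE n) ∈ B} ∂(sph n) =
      ((sph n).prod (haarG n)) {p | act p.2 (p.1 : EE n) ∈ B} := by
    rw [Measure.prod_apply hm]
    rfl
  rw [h2, Measure.prod_apply_symm hm]
  have h3 : ∀ g : GG n, sph n ((fun u' : sphere (0 : EE n) 1 => (u', g)) ⁻¹'
      {p : sphere (0 : EE n) 1 × GG n | act p.2 (p.1 : EE n) ∈ B}) =
      sph n {y | (y : EE n) ∈ B} := by
    intro g
    have h4 := Pool.Agent.Helper28.sphMap_measurePreserving (E := EE n) (act g)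
    have h5 : MeasurableSet {y : sphere (0 : EE n) 1 | (y : EE n) ∈ B} :=
      measurable_subtype_coe hB
    exact h4.measure_preimage h5.nullMeasurableSet
  simp_rw [h3]
  rw [lintegral_const, mul_comm]

theorem kap_univ (a b : ℝ) : kap n a b univ = haarG n univ * rad n a b univ := by
  unfold kap
  rw [← univ_prod_univ, Measure.prod_prod]

theorem kap_act (hn : 0 < n) {a b : ℝ} {u : EE n} (hu : ‖u‖ = 1) {B : Set (EE n)}
    (hB : MeasurableSet B) :
    kap n a b {ω | act ω.1 u ∈ B} * sph n univ =
      kap n a b univ * sph n {y | (y : EE n) ∈ B} := by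
  have h1 : {ω : GG n × Ioi (0:ℝ) | act ω.1 u ∈ B} = {g | act g u ∈ B} ×ˢ univ := by
    ext ω; simp
  rw [h1, kap_univ]
  unfold kap
  rw [Measure.prod_prod]
  calc haarG n {g | act g u ∈ B} * rad n a b univ * sph n univ =
      (haarG n {g | act g u ∈ B} * sph n univ) * rad n a b univ := by ring
    _ = _ := by rw [haar_sph hn hu hB]; ring

end Pool.Agent.H712.NS
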