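import Pool.Agent.H712.NS.CovA
import Pool.Agent.H712.NP.Conc

/-! Rotations which fix a vector. -/

set_option autoImplicit false
set_option linter.unusedSectionVars false

open MeasureTheory Set Metric
open scoped ENNReal

namespace Pool.Agent.H712.NS

open Pool.Agent.H703R2.LP

variable {n : ℕ}

/-- the orthogonal complement of a vector -/
noncomputable abbrev Kc (c : EE n) : Submodule ℝ (EE n) := (ℝ ∙ c)ᗮ

/-- the orthogonal group of the complement -/
noncomputable abbrev UK (c : EE n) := unitary (Kc c →L[ℝ] Kc c)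

/-- the projection to the complement -/
noncomputable def pc (c x : EE n) : Kc c := (Kc c).orthogonalProjectionOnto x

theorem pc_eq {c : EE n} (hc : ‖c‖ = 1) (x : EE n) :
    (pc c x : EE n) = x - inner ℝ c x • c := by
  have h1 := Submodule.starProjection_add_starProjection_orthogonal (K := ℝ ∙ c) x
  rw [Submodule.starProjection_unit_singleton ℝ hc] at h1
  have h2 : (pc c x : EE n) = (ℝ ∙ c)ᗮ.starProjection x := rfl
  rw [h2]
  exact eq_sub_of_add_eq' h1

theorem inner_Kc {c : EE n} (v : Kc c) : inner ℝ c (v : EE n) = 0 :=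
  Submodule.mem_orthogonal_singleton_iff_inner_right.1 v.2

theorem norm_comb {c : EE n} (hc : ‖c‖ = 1) (t : ℝ) (v : Kc c) :
    ‖t • c + (v : EE n)‖ ^ 2 = t ^ 2 + ‖v‖ ^ 2 := by
  rw [@norm_add_sq_real, real_inner_smul_left, inner_Kc, norm_smul, hc, Real.norm_eq_abs]
  simp [sq_abs]

theorem pc_comb {c : EE n} (hc : ‖c‖ = 1) (t : ℝ) (v : Kc c) : pc c (t • c + (v : EE n)) = v := by
  apply Subtype.ext
  rw [pc_eq hc, inner_add_right, real_inner_smul_right, inner_Kc, real_inner_self_eq_norm_sq, hc]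
  simp

/-- the rotation given by a rotation of the complement, as a linear map -/
noncomputable def stL (c : EE n) (U : UK c) : EE n →ₗ[ℝ] EE n where
  toFun x := inner ℝ c x • c + ((U : Kc c →L[ℝ] Kc c) (pc c x) : EE n)
  map_add' x y := by
    have : pc c (x + y) = pc c x + pc c y := map_add _ _ _
    rw [this, map_add, inner_add_right, add_smul, Submodule.coe_add]
    abel
  map_smul' t x := by
    have : pc c (t • x) = t • pc c x := map_smul _ _ _
    rw [this, map_smul, real_inner_smul_right, mul_smul, Submodule.coe_smul, RingHom.id_apply,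
      smul_add]

theorem stL_norm {c : EE n} (hc : ‖c‖ = 1) (U : UK c) (x : EE n) : ‖stL c U x‖ = ‖x‖ := by
  have h1 : ‖stL c U x‖ ^ 2 = ‖x‖ ^ 2 := by
    have e1 : stL c U x = inner ℝ c x • c + ((U : Kc c →L[ℝ] Kc c) (pc c x) : EE n) := rfl
    have e2 : ‖(U : Kc c →L[ℝ] Kc c) (pc c x)‖ = ‖pc c x‖ := Unitary.norm_map U _
    have e3 : x = inner ℝ c x • c + (pc c x : EE n) := by rw [pc_eq hc]; abel
    rw [e1, norm_comb hc, e2]
    conv_rhs => rw [e3]
    rw [norm_comb hc]
  exact (sq_eq_sq₀ (norm_nonneg _) (norm_nonneg _)).1 h1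

/-- the rotation given by a rotation of the complement -/
noncomputable def stE {c : EE n} (hc : ‖c‖ = 1) (U : UK c) : EE n ≃ₗᵢ[ℝ] EE n :=
  LinearIsometry.toLinearIsometryEquiv ⟨stL c U, stL_norm hc U⟩ rfl

/-- the same as an element of the group -/
noncomputable def st {c : EE n} (hc : ‖c‖ = 1) (U : UK c) : GG n :=
  Unitary.linearIsometryEquiv.symm (stE hc U)

theorem act_st {c : EE n} (hc : ‖c‖ = 1) (U : UK c) (x : EE n) :
    act (st hc U) x = inner ℝ c x • c + ((U : Kc c →L[ℝ] Kc c) (pc c x) : EE n) := by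
  simp only [st, act, MulEquiv.apply_symm_apply]
  rfl

theorem act_st_self {c : EE n} (hc : ‖c‖ = 1) (U : UK c) : act (st hc U) c = c := by
  have h : pc c c = 0 := by
    apply Subtype.ext
    rw [pc_eq hc, real_inner_self_eq_norm_sq, hc]
    simp
  rw [act_st, h, map_zero, real_inner_self_eq_norm_sq, hc]
  simp

theorem act_st_inv {c : EE n} (hc : ‖c‖ = 1) (U : UK c) : act (st hc U)⁻¹ c = c := by
  have h := act_mul (st hc U)⁻¹ (st hc U) c
  rw [inv_mul_cancel, act_st_self hc] at h
  rw [← h]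
  simp [act_apply]

/-- invariance under the rotations which fix the vector -/
theorem kap_stab {c : EE n} (hc : ‖c‖ = 1) (U : UK c) {a b : ℝ} (u : EE n) {A B : Set (EE n)}
    (hA : MeasurableSet A) (hB : MeasurableSet B) :
    kap n a b {ω | phi c ω ∈ A ∧ act (st hc U) (act ω.1 u) ∈ B} =
      kap n a b {ω | phi c ω ∈ A ∧ act ω.1 u ∈ B} := by
  have m1 : MeasurableSet {ω : GG n × Ioi (0:ℝ) | phi c ω ∈ A ∧ act ω.1 u ∈ B} :=
    (measurable_phi c hA).inter (((measurable_act u).comp measurable_fst) hB)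
  have m2 : MeasurableSet {ω : GG n × Ioi (0:ℝ) | phi c ω ∈ A ∧
      act (st hc U) (act ω.1 u) ∈ B} :=
    (measurable_phi c hA).inter ((((act (st hc U)).continuous.measurable).comp
      ((measurable_act u).comp measurable_fst)) hB)
  unfold kap
  rw [Measure.prod_apply_symm m1, Measure.prod_apply_symm m2]
  congr 1
  ext r
  have : ((fun x => (x, r)) ⁻¹' {ω : GG n × Ioi (0:ℝ) | phi c ω ∈ A ∧
      act (st hc U) (act ω.1 u) ∈ B} : Set (GG n)) =
      (fun x => st hc U * x) ⁻¹' ((fun x => (x, r)) ⁻¹'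
        {ω : GG n × Ioi (0:ℝ) | phi c ω ∈ A ∧ act ω.1 u ∈ B}) := by
    ext g
    simp only [mem_preimage, mem_ofPred_eq, phi, act_mul, mul_inv_rev, act_st_inv hc]
  rw [this, measure_preimage_mul]

/-- averaging over the rotations which fix the vector -/
theorem kap_avg {c : EE n} (hc : ‖c‖ = 1) {a b : ℝ} (hb : 0 < b) (u : EE n) {A B : Set (EE n)}
    (hA : MeasurableSet A) (hB : MeasurableSet B) {Θ : Type*} [TopologicalSpace Θ]
    [MeasurableSpace Θ] [BorelSpace Θ] [SecondCountableTopology Θ] (ν : Measure Θ)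
    [IsFiniteMeasure ν] (hν : ν univ ≠ 0) (ι : Θ → UK c) (hι : Continuous ι) {ε : ℝ≥0∞}
    (h : ∀ ω : GG n × Ioi (0:ℝ), phi c ω ∈ A →
      ν {U | act (st hc (ι U)) (act ω.1 u) ∈ B} ≤ ε * ν univ) :
    kap n a b {ω | phi c ω ∈ A ∧ act ω.1 u ∈ B} ≤ ε * kap n a b (phi c ⁻¹' A) := by
  have : IsFiniteMeasure (kap n a b) := ⟨kap_univ_lt hb⟩
  have hcont : Continuous fun p : Θ × (GG n × Ioi (0:ℝ)) =>
      act (st hc (ι p.1)) (act p.2.1 u) := by
    simp only [act_st hc]
    have h1 : Continuous fun p : Θ × (GG n × Ioi (0:ℝ)) => act p.2.1 u :=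
      continuous_act.comp ((continuous_fst.comp continuous_snd).prodMk continuous_const)
    have h2 : Continuous fun x : EE n => pc c x := (Kc c).orthogonalProjectionOnto.continuous
    have h3 : Continuous fun p : Θ × (GG n × Ioi (0:ℝ)) =>
        ((ι p.1 : UK c) : Kc c →L[ℝ] Kc c) :=
      continuous_subtype_val.comp (hι.comp continuous_fst)
    have h4 : Continuous fun p : Θ × (GG n × Ioi (0:ℝ)) =>
        ((ι p.1 : UK c) : Kc c →L[ℝ] Kc c) (pc c (act p.2.1 u)) := h3.clm_apply (h2.comp h1)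
    exact ((Continuous.inner (𝕜 := ℝ) (continuous_const (y := c)) h1).smul continuous_const).add
      (continuous_subtype_val.comp h4)
  have hm : MeasurableSet {p : Θ × (GG n × Ioi (0:ℝ)) | phi c p.2 ∈ A ∧
      act (st hc (ι p.1)) (act p.2.1 u) ∈ B} :=
    ((measurable_phi c).comp measurable_snd hA).inter (hcont.measurable hB)
  have h1 : (ν.prod (kap n a b)) {p : Θ × (GG n × Ioi (0:ℝ)) | phi c p.2 ∈ A ∧
      act (st hc (ι p.1)) (act p.2.1 u) ∈ B} =
      kap n a b {ω | phi c ω ∈ A ∧ act ω.1 u ∈ B} * ν univ := by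
    rw [Measure.prod_apply hm]
    have h2 : ∀ U : Θ, kap n a b (Prod.mk U ⁻¹' {p : Θ × (GG n × Ioi (0:ℝ)) |
        phi c p.2 ∈ A ∧ act (st hc (ι p.1)) (act p.2.1 u) ∈ B}) =
        kap n a b {ω | phi c ω ∈ A ∧ act ω.1 u ∈ B} := fun U => kap_stab hc (ι U) u hA hB
    simp_rw [h2]
    rw [lintegral_const]
  have h2 : (ν.prod (kap n a b)) {p : Θ × (GG n × Ioi (0:ℝ)) | phi c p.2 ∈ A ∧
      act (st hc (ι p.1)) (act p.2.1 u) ∈ B} ≤ (ε * ν univ) * kap n a b (phi c ⁻¹' A) := by
    rw [Measure.prod_apply_symm hm]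
    calc _ ≤ ∫⁻ ω, (phi c ⁻¹' A).indicator (fun _ => ε * ν univ) ω ∂(kap n a b) := by
          refine lintegral_mono fun ω => ?_
          by_cases hω : ω ∈ phi c ⁻¹' A
          · rw [indicator_of_mem hω]
            refine le_trans (measure_mono ?_) (h ω hω)
            intro U hU
            exact hU.2
          · rw [indicator_of_notMem hω]
            have : (fun x => (x, ω)) ⁻¹' {p : Θ × (GG n × Ioi (0:ℝ)) |
                phi c p.2 ∈ A ∧ act (st hc (ι p.1)) (act p.2.1 u) ∈ B} = ∅ := by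
              ext U
              simp only [mem_preimage, mem_ofPred_eq, mem_empty_iff_false, iff_false]
              intro h3
              exact hω h3.1
            rw [this, measure_empty]
      _ = _ := by rw [lintegral_indicator_const (measurable_phi c hA)]
  rw [h1] at h2
  have h3 : ν univ ≠ ∞ := measure_ne_top _ _
  have h4 : (ε * ν univ) * kap n a b (phi c ⁻¹' A) =
      (ε * kap n a b (phi c ⁻¹' A)) * ν univ := by ring
  rw [h4] at h2
  exact (ENNReal.mul_le_mul_iff_left (hν) h3).1 h2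

end Pool.Agent.H712.NS
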