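import Pool.Agent.H712.NS.CovB
import Pool.Agent.H712.NS.Conc2

/-! Concentration on the small spheres about the points of a code. -/

set_option autoImplicit false
set_option linter.unusedSectionVars false

open MeasureTheory Set Metric
open scoped ENNReal

namespace Pool.Agent.H712.NS

open Pool.Agent.H703R2.LP

variable {n : ℕ}

/-- mean of a function over the small sphere about `c` -/
noncomputable def cm (κ : ℝ) (F : EE n → ℝ) (c : EE n) : ℝ :=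
  Pool.Agent.H712.NP.sm (E := Kc c) fun v => F (κ • c + √(1 - κ ^ 2) • (v : EE n))

theorem unit_of {E : Type} [NormedAddCommGroup E] [InnerProductSpace ℝ E] [Nontrivial E] (x : E) :
    ∃ v : E, ‖v‖ = 1 ∧ x = ‖x‖ • v := by
  by_cases h : x = 0
  · obtain ⟨v, hv⟩ := exists_norm_eq E (c := 1) zero_le_one
    exact ⟨v, hv, by rw [h]; simp⟩
  · refine ⟨‖x‖⁻¹ • x, ?_, ?_⟩
    · rw [norm_smul, norm_inv, norm_norm, inv_mul_cancel₀ (norm_ne_zero_iff.2 h)]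
    · rw [smul_smul, mul_inv_cancel₀ (norm_ne_zero_iff.2 h), one_smul]

theorem sqrt_sub_le {a b : ℝ} (ha : 0 ≤ a) (hb : 0 ≤ b) : |√a - √b| ≤ √|a - b| := by
  apply Real.le_sqrt_of_sq_le
  rw [sq_abs]
  rcases le_total a b with h | h
  · rw [abs_sub_comm, abs_of_nonneg (sub_nonneg.2 h)]
    have h1 := Real.sqrt_le_sqrt h
    have h2 := Real.sq_sqrt ha
    have h3 := Real.sq_sqrt hb
    have h4 := Real.sqrt_nonneg a
    nlinarith
  · rw [abs_of_nonneg (sub_nonneg.2 h)]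
    have h1 := Real.sqrt_le_sqrt h
    have h2 := Real.sq_sqrt ha
    have h3 := Real.sq_sqrt hb
    have h4 := Real.sqrt_nonneg b
    nlinarith

theorem pc_norm {c : EE n} (hc : ‖c‖ = 1) {p : EE n} (hp : ‖p‖ = 1) :
    ‖pc c p‖ ^ 2 = 1 - inner ℝ c p ^ 2 := by
  have e3 : p = inner ℝ c p • c + (pc c p : EE n) := by rw [pc_eq hc]; abel
  have h := norm_comb hc (inner ℝ c p) (pc c p)
  rw [← e3, hp] at h
  linarith

theorem near_small {c : EE n} (hc : ‖c‖ = 1) {p : EE n} (hp : ‖p‖ = 1) (U : UK c) {v : Kc c}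
    (hv : ‖v‖ = 1) (hpv : pc c p = ‖pc c p‖ • v) {κ ξ : ℝ} (hκ : κ ^ 2 ≤ 1)
    (h : |inner ℝ c p - κ| ≤ ξ) :
    ‖act (st hc U) p - (κ • c + √(1 - κ ^ 2) • (((U : Kc c →L[ℝ] Kc c) v : Kc c) : EE n))‖ ≤
      ξ + √(2 * ξ) := by
  set t := inner ℝ c p with ht
  have ht1 : |t| ≤ 1 := by
    have := abs_real_inner_le_norm c p
    rw [hc, hp, one_mul] at this
    exact this
  have hκ1 : |κ| ≤ 1 := by
    rw [← sq_abs] at hκ
    exact (sq_le_one_iff₀ (abs_nonneg κ)).1 hκ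
  have hpn := pc_norm hc hp
  rw [← ht] at hpn
  have hN : ‖pc c p‖ = √(1 - t ^ 2) := by
    rw [← hpn, Real.sqrt_sq (norm_nonneg _)]
  have e1 : act (st hc U) p = t • c + √(1 - t ^ 2) • (((U : Kc c →L[ℝ] Kc c) v : Kc c) : EE n) := by
    rw [act_st hc, hpv, map_smul, Submodule.coe_smul, hN]
  rw [e1]
  set W : EE n := (((U : Kc c →L[ℝ] Kc c) v : Kc c) : EE n) with hW
  have hWn : ‖W‖ = 1 := by
    have h1 : ‖((U : Kc c →L[ℝ] Kc c) v : Kc c)‖ = 1 := by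
      rw [← hv]; exact Unitary.norm_map U v
    exact h1
  have e2 : t • c + √(1 - t ^ 2) • W - (κ • c + √(1 - κ ^ 2) • W) =
      (t - κ) • c + (√(1 - t ^ 2) - √(1 - κ ^ 2)) • W := by
    rw [sub_smul, sub_smul]; abel
  rw [e2]
  have e3 : ‖(t - κ) • c‖ = |t - κ| := by rw [norm_smul, hc, mul_one, Real.norm_eq_abs]
  have e4 : ‖(√(1 - t ^ 2) - √(1 - κ ^ 2)) • W‖ = |√(1 - t ^ 2) - √(1 - κ ^ 2)| := by
    rw [norm_smul, hWn, mul_one, Real.norm_eq_abs]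
  have ht2 : t ^ 2 ≤ 1 := by
    rw [← sq_abs]
    exact (sq_le_one_iff₀ (abs_nonneg t)).2 ht1
  have e5 : |√(1 - t ^ 2) - √(1 - κ ^ 2)| ≤ √(2 * ξ) := by
    refine (sqrt_sub_le (by linarith) (by linarith)).trans (Real.sqrt_le_sqrt ?_)
    have e6 : (1 - t ^ 2) - (1 - κ ^ 2) = (κ - t) * (κ + t) := by ring
    rw [e6, abs_mul, abs_sub_comm]
    have e7 : |κ + t| ≤ 2 := (abs_add_le _ _).trans (by linarith)
    calc |t - κ| * |κ + t| ≤ ξ * 2 := mul_le_mul h e7 (abs_nonneg _) ((abs_nonneg _).trans h)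
      _ = 2 * ξ := by ring
  calc _ ≤ ‖(t - κ) • c‖ + ‖(√(1 - t ^ 2) - √(1 - κ ^ 2)) • W‖ := norm_add_le _ _
    _ ≤ ξ + √(2 * ξ) := by rw [e3, e4]; exact add_le_add h e5

theorem finrank_Kc {m : ℕ} (hn : n = m + 3) {c : EE n} (hc : ‖c‖ = 1) :
    Module.finrank ℝ (Kc c) = m + 2 := by
  have : Fact (Module.finrank ℝ (EE n) = (m + 2) + 1) := ⟨by rw [finrank_euclideanSpace_fin, hn]⟩
  exact Submodule.finrank_orthogonal_span_singleton (by
    intro h; rw [h, norm_zero] at hc; exact zero_ne_one hc)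

/-- **Concentration on the small spheres.** -/
theorem cap_conc {m : ℕ} (hn : n = m + 3) {c : EE n} (hc : ‖c‖ = 1) {κ : ℝ} (hκ : κ ^ 2 ≤ 1)
    {F : EE n → ℝ} {Λ : ℝ} (hΛ : 0 ≤ Λ) (hF : ∀ x y, |F x - F y| ≤ Λ * ‖x - y‖) {τ ξ β' : ℝ}
    (hτ : 0 < τ) (hβ : cm κ F c + τ + Λ * (ξ + √(2 * ξ)) < β') {a b : ℝ} (hb : 0 < b)
    {u : EE n} (hu : ‖u‖ = 1) {A : Set (EE n)} (hA : MeasurableSet A)
    (h : ∀ z ∈ A, |inner ℝ (‖z‖⁻¹ • z) u - κ| ≤ ξ) :
    kap n a b {ω | phi c ω ∈ A ∧ act ω.1 u ∈ {y | F y ≤ β'}ᶜ} ≤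
      ENNReal.ofReal (Real.pi * (Λ / √(m + 1)) / τ) * kap n a b (phi c ⁻¹' A) := by
  have hFc : Continuous F := by
    have : LipschitzWith ⟨Λ, hΛ⟩ F := LipschitzWith.of_dist_le_mul fun x y => by
      rw [Real.dist_eq, dist_eq_norm]; exact hF x y
    exact this.continuous
  have hfin := finrank_Kc hn hc
  have : Nontrivial (Kc c) := Module.nontrivial_of_finrank_pos (R := ℝ) (by omega)
  obtain ⟨Θ, _, _, _, _, ν, _, ι, hν, hι, hconc⟩ := conc_pack (Kc c) hfin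
  set s := √(1 - κ ^ 2) with hs
  have hs0 : 0 ≤ s := Real.sqrt_nonneg _
  have hs1 : s ≤ 1 := by
    rw [hs]; exact Real.sqrt_le_one.2 (by nlinarith [sq_nonneg κ])
  set G : Kc c → ℝ := fun v => F (κ • c + s • (v : EE n)) with hG
  have hGl : ∀ x y, |G x - G y| ≤ Λ * ‖x - y‖ := by
    intro x y
    refine (hF _ _).trans (mul_le_mul_of_nonneg_left ?_ hΛ)
    rw [add_sub_add_left_eq_sub, ← smul_sub, norm_smul, Real.norm_eq_abs, abs_of_nonneg hs0]
    have : ‖(x : EE n) - y‖ = ‖x - y‖ := rfl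
    rw [this]
    exact mul_le_of_le_one_left (norm_nonneg _) hs1
  have hBm : MeasurableSet {y : EE n | F y ≤ β'}ᶜ :=
    (isClosed_le hFc continuous_const).measurableSet.compl
  refine kap_avg hc hb u hA hBm ν hν ι hι fun ω hω => ?_
  -- the direction of the noise
  set p := act ω.1 u with hp
  have hp1 : ‖p‖ = 1 := by rw [hp, LinearIsometryEquiv.norm_map, hu]
  have hr : 0 < (ω.2 : ℝ) := ω.2.2
  have hz : ‖phi c ω‖⁻¹ • phi c ω = act ω.1⁻¹ c := by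
    have e1 : ‖phi c ω‖ = ω.2 := by
      unfold phi
      rw [norm_smul, LinearIsometryEquiv.norm_map, hc, mul_one, Real.norm_eq_abs, abs_of_pos hr]
    rw [e1]
    unfold phi
    rw [smul_smul, inv_mul_cancel₀ hr.ne', one_smul]
  have hin : |inner ℝ c p - κ| ≤ ξ := by
    have h1 := h _ hω
    rw [hz] at h1
    have h2 : inner ℝ (act ω.1⁻¹ c) u = inner ℝ c p := by
      have h3 := (act ω.1).inner_map_map (act ω.1⁻¹ c) u
      rw [← h3, ← act_mul, mul_inv_cancel]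
      simp [act_apply, hp]
    rwa [h2] at h1
  obtain ⟨v, hv, hpv⟩ := unit_of (pc c p)
  refine le_trans (measure_mono ?_) (hconc G Λ τ hΛ hGl hτ v hv)
  intro U hU
  simp only [mem_ofPred_eq, mem_compl_iff, not_le] at hU ⊢
  have h1 := near_small hc hp1 (ι U) hv hpv hκ hin
  have h2 := hF (act (st hc (ι U)) p) (κ • c + s • ((((ι U : UK c) : Kc c →L[ℝ] Kc c) v : Kc c) :
    EE n))
  have h3 := (abs_le.1 (h2.trans (mul_le_mul_of_nonneg_left h1 hΛ))).2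
  have h4 : G (((ι U : UK c) : Kc c →L[ℝ] Kc c) v) =
    F (κ • c + s • ((((ι U : UK c) : Kc c →L[ℝ] Kc c) v : Kc c) : EE n)) := rfl
  rw [← h4] at h3
  have h5 : cm κ F c = Pool.Agent.H712.NP.sm G := rfl
  rw [h5] at hβ
  refine le_trans ?_ (le_abs_self _)
  linarith

end Pool.Agent.H712.NS
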