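import Pool.Agent.H712.NS.Level
import Pool.Agent.H712.NP.Fun

/-! The functional noise inequality on the sphere. -/

set_option autoImplicit false
set_option linter.unusedSectionVars false

open MeasureTheory Set Metric Filter
open scoped ENNReal

namespace Pool.Agent.H712.NS

open Pool.Agent.H703R2.LP Pool.Agent.H712.NP
open Pool.Agent.TH41.SC Pool.Agent.W48.KS Pool.Agent.W259.GP

theorem sfun {r : ℝ} (h0 : 0 < r) (h1 : r < 1) {κ : ℝ} (hκ0 : 0 ≤ κ) (hκ1 : κ < 1)
    (hE : κ * ∑' k, a r k = ∑' k, a r k * ph (cc r (2 * k + 1))) {K ε : ℝ} (hK : 0 ≤ K)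
    (hε : 0 < ε) : ∃ n0 : ℕ, ∀ n ≥ n0, ∀ (C : Finset (EE n)) (F : EE n → ℝ),
    (∀ c ∈ C, ‖c‖ = 1) → (∀ c ∈ C, ∀ c' ∈ C, c ≠ c' → √(2 - 2 * κ) ≤ dist c c') →
    (∀ x y, |F x - F y| ≤ K * n * ‖x - y‖) →
    (∑ c ∈ C, Real.exp (-cm κ F c)) * (sph n univ).toReal ≤ Real.exp (n * (Φ r + ε)) *
      ∫ y : sphere (0 : EE n) 1, Real.exp (-F y) ∂(sph n) := by
  obtain ⟨n0, H⟩ := slevel h0 h1 hκ0 hκ1 hE hK (show 0 < ε / 4 by positivity)
  refine ⟨max n0 1, fun n hn C F hu hd hF => ?_⟩
  have hn0 : n0 ≤ n := le_trans (le_max_left _ _) hn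
  have hn1 : 1 ≤ n := le_trans (le_max_right _ _) hn
  have hnpos : (0 : ℝ) < n := by exact_mod_cast hn1
  have hFc : Continuous F := by
    have hΛ : 0 ≤ K * n := by positivity
    have : LipschitzWith ⟨K * n, hΛ⟩ F := LipschitzWith.of_dist_le_mul fun x y => by
      rw [Real.dist_eq, dist_eq_norm]; exact hF x y
    exact this.continuous
  have hFs : Continuous fun y : sphere (0 : EE n) 1 => F y := hFc.comp continuous_subtype_val
  set A : EE n → ℝ := fun c => cm κ F c with hA
  set k := ENNReal.ofReal (Real.exp (n * (Φ r + ε / 4))) with hk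
  set t : ℝ := ε / 2 * n with ht
  have hσ : 0 < (sph n univ).toReal := sph_univ_pos hn1
  have h1 : ∀ B : ℝ, ((C.filter fun c => A c < B).card : ENNReal) * sph n univ ≤
      k * sph n {x : sphere (0 : EE n) 1 | F x < B + t} := by
    intro B
    have h2 := H n hn0 (C.filter fun c => A c < B) F B
      (fun c hc => hu c (Finset.mem_filter.mp hc).1)
      (fun c hc c' hc' hne => hd c (Finset.mem_filter.mp hc).1 c' (Finset.mem_filter.mp hc').1 hne)
      hF (fun c hc => (Finset.mem_filter.mp hc).2.le)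
    rw [mul_div_assoc', le_div_iff₀ hσ] at h2
    have h3 := ENNReal.ofReal_le_ofReal h2
    rw [ENNReal.ofReal_mul (Nat.cast_nonneg _), ENNReal.ofReal_mul (Real.exp_pos _).le,
      ENNReal.ofReal_natCast, ENNReal.ofReal_toReal (measure_ne_top _ _),
      ENNReal.ofReal_toReal (measure_ne_top _ _)] at h3
    refine h3.trans (mul_le_mul_right (measure_mono fun x hx => ?_) _)
    have hx' : F x ≤ B + ε / 4 * n := hx
    show F x < B + t
    rw [ht]
    nlinarith
  have key : (∑ c ∈ C, ENNReal.ofReal (Real.exp (-A c))) * sph n univ ≤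
      ENNReal.ofReal (Real.exp (n * (Φ r + ε))) *
        ∫⁻ x : sphere (0 : EE n) 1, ENNReal.ofReal (Real.exp (-F x)) ∂(sph n) := by
    calc (∑ c ∈ C, ENNReal.ofReal (Real.exp (-A c))) * sph n univ
        = (∫⁻ B : ℝ, ENNReal.ofReal (Real.exp (-B)) *
            ((C.filter fun c => A c < B).card : ENNReal)) * sph n univ := by
          rw [sum_layer C A]
      _ = ∫⁻ B : ℝ, ENNReal.ofReal (Real.exp (-B)) *
            ((C.filter fun c => A c < B).card : ENNReal) * sph n univ := by
          rw [lintegral_mul_const' _ _ (measure_ne_top _ _)]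
      _ ≤ ∫⁻ B : ℝ, k * (ENNReal.ofReal (Real.exp (-B)) *
            sph n {x : sphere (0 : EE n) 1 | F x < B + t}) := by
          refine lintegral_mono fun B => ?_
          rw [mul_assoc]
          calc _ ≤ ENNReal.ofReal (Real.exp (-B)) * (k *
                sph n {x : sphere (0 : EE n) 1 | F x < B + t}) := mul_le_mul_right (h1 B) _
            _ = _ := by ring
      _ = k * ∫⁻ x : sphere (0 : EE n) 1, ENNReal.ofReal (Real.exp (-(F x - t))) ∂(sph n) := by
          rw [lintegral_const_mul' _ _ ENNReal.ofReal_ne_top, layer (sph n) hFs.measurable t]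
      _ = k * (ENNReal.ofReal (Real.exp t) *
            ∫⁻ x : sphere (0 : EE n) 1, ENNReal.ofReal (Real.exp (-F x)) ∂(sph n)) := by
          congr 1
          rw [← lintegral_const_mul' _ _ ENNReal.ofReal_ne_top]
          refine lintegral_congr fun x => ?_
          rw [← ENNReal.ofReal_mul (Real.exp_pos _).le, ← Real.exp_add]
          congr 2
          ring
      _ ≤ _ := by
          rw [← mul_assoc]
          refine mul_le_mul_left ?_ _
          rw [hk, ← ENNReal.ofReal_mul (Real.exp_pos _).le, ← Real.exp_add]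
          refine ENNReal.ofReal_le_ofReal (Real.exp_le_exp.mpr ?_)
          rw [ht]
          nlinarith
  have hint : Integrable (fun y : sphere (0 : EE n) 1 => Real.exp (-F y)) (sph n) :=
    (Real.continuous_exp.comp hFs.neg).integrable_of_hasCompactSupport
      (HasCompactSupport.of_compactSpace _)
  rw [← ofReal_integral_eq_lintegral_ofReal hint
    (ae_of_all _ fun _ => (Real.exp_pos _).le), ← ENNReal.ofReal_mul (Real.exp_pos _).le,
    ← ENNReal.ofReal_sum_of_nonneg (fun c _ => (Real.exp_pos _).le),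
    ← ENNReal.ofReal_toReal (measure_ne_top (sph n) univ),
    ← ENNReal.ofReal_mul (Finset.sum_nonneg fun c _ => (Real.exp_pos _).le)] at key
  refine (ENNReal.ofReal_le_ofReal_iff ?_).1 key
  refine mul_nonneg (Real.exp_pos _).le (integral_nonneg fun _ => (Real.exp_pos _).le)

end Pool.Agent.H712.NS
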