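import Pool.Agent.H712.NS.CovC

/-! The joint law of a random copy of a code and of a set. -/

set_option autoImplicit false
set_option linter.unusedSectionVars false

open MeasureTheory Set Metric
open scoped ENNReal

namespace Pool.Agent.H712.NS

open Pool.Agent.H703R2.LP

variable {n : ℕ}

theorem norm_phi {c : EE n} (hc : ‖c‖ = 1) (ω : GG n × Ioi (0:ℝ)) : ‖phi c ω‖ = ω.2 := by
  unfold phi
  rw [norm_smul, LinearIsometryEquiv.norm_map, hc, mul_one, Real.norm_eq_abs, abs_of_pos ω.2.2]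

theorem sph_univ_pos (hn : 0 < n) : 0 < (sph n univ).toReal := by
  have hNe : Nonempty (Fin n) := ⟨⟨0, hn⟩⟩
  have hNt : Nontrivial (EE n) := inferInstance
  rw [ENNReal.toReal_pos_iff]
  refine ⟨?_, measure_lt_top _ _⟩
  rw [pos_iff_ne_zero]
  intro h
  have h2 : sph n = 0 := Measure.measure_univ_eq_zero.1 h
  unfold sph at h2
  exact Measure.toSphere_ne_zero _ h2

theorem haar_univ_pos : 0 < (haarG n univ).toReal := by
  rw [ENNReal.toReal_pos_iff]
  refine ⟨?_, measure_lt_top _ _⟩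
  rw [pos_iff_ne_zero]
  exact isOpen_univ.measure_ne_zero _ univ_nonempty

open Classical in
/-- the grid points with a good direction -/
noncomputable def hitT {q : ℕ} (u : (Fin n → Fin q) → EE n) (B : Set (EE n))
    (ω : GG n × Ioi (0:ℝ)) : Finset (Fin n → Fin q) :=
  Finset.univ.filter fun y => act ω.1 (u y) ∈ B

theorem mem_hitT {q : ℕ} {u : (Fin n → Fin q) → EE n} {B : Set (EE n)}
    {ω : GG n × Ioi (0:ℝ)} {y : Fin n → Fin q} : y ∈ hitT u B ω ↔ act ω.1 (u y) ∈ B := by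
  simp [hitT]

theorem measurableSet_mem_hitT {q : ℕ} (u : (Fin n → Fin q) → EE n) {B : Set (EE n)}
    (hB : MeasurableSet B) (y : Fin n → Fin q) : MeasurableSet {ω | y ∈ hitT u B ω} := by
  simp only [mem_hitT]
  exact ((measurable_act (u y)).comp measurable_fst) hB

theorem measurableSet_hitT_eq {q : ℕ} (u : (Fin n → Fin q) → EE n) {B : Set (EE n)}
    (hB : MeasurableSet B) (T : Finset (Fin n → Fin q)) :
    MeasurableSet {ω | hitT u B ω = T} := by
  have : {ω | hitT u B ω = T} = ⋂ x, {ω | x ∈ hitT u B ω ↔ x ∈ T} := by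
    ext ω; simp [Finset.ext_iff]
  rw [this]
  refine MeasurableSet.iInter fun x => ?_
  by_cases hx : x ∈ T
  · simpa [hx] using measurableSet_mem_hitT u hB x
  · have h2 : {ω | x ∈ hitT u B ω ↔ x ∈ T} = {ω | x ∈ hitT u B ω}ᶜ := by
      ext ω; simp [hx]
    rw [h2]
    exact (measurableSet_mem_hitT u hB x).compl

/-- **The joint law.** -/
theorem joint {q : ℕ} (hn : 0 < n) (C : Finset (EE n)) (hC : C.Nonempty)
    (hu : ∀ c ∈ C, ‖c‖ = 1) {s a b a0 hg : ℝ} (hs0 : 0 ≤ s)
    (hs : ∀ c ∈ C, ∀ c' ∈ C, c ≠ c' → s ≤ dist c c') (hb : 0 < b)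
    (hhg : 0 < hg) (hgs : hg * √n < a * s)
    (u : (Fin n → Fin q) → EE n) (hu1 : ∀ y, ‖u y‖ = 1) {B : Set (EE n)}
    (hB : MeasurableSet B) :
    ∃ w : Finset (Fin n → Fin q) × Finset (Fin n → Fin q) → ℝ, (∀ v, 0 ≤ w v) ∧
      (∀ x, ∑ v, (if x ∈ v.1 then w v else 0) =
        (volume (cell a0 hg x ∩ shell n a b)).toReal / hg ^ n) ∧
      (∀ v, w v ≠ 0 → ∀ x ∈ v.1, ∀ y ∈ v.1, x ≠ y →
        (a * s - hg * √n) ^ 2 ≤ ∑ k, (hg * (x k : ℝ) - hg * (y k : ℝ)) ^ 2) ∧
      (∀ y, ∑ v, (if y ∈ v.2 then w v else 0) =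
        (volume (shell n a b)).toReal / (C.card * hg ^ n) *
          ((sph n {z | (z : EE n) ∈ B}).toReal / (sph n univ).toReal)) ∧
      (∀ x y, ∀ ε : ℝ, 0 ≤ ε →
        (∀ c ∈ C, kap n a b {ω | phi c ω ∈ cell a0 hg x ∩ shell n a b ∧
            act ω.1 (u y) ∈ Bᶜ} ≤
          ENNReal.ofReal ε * kap n a b (phi c ⁻¹' (cell a0 hg x ∩ shell n a b))) →
        ∑ v, (if x ∈ v.1 ∧ y ∉ v.2 then w v else 0) ≤
          ε * ((volume (cell a0 hg x ∩ shell n a b)).toReal / hg ^ n)) := by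
  classical
  set K := kap n a b with hK
  have : IsFiniteMeasure K := ⟨kap_univ_lt hb⟩
  set σ := (sph n univ).toReal with hσ
  set mu := (haarG n univ).toReal with hmu
  have hσ0 : 0 < σ := sph_univ_pos hn
  have hmu0 : 0 < mu := haar_univ_pos
  have hN0 : (0:ℝ) < C.card := by exact_mod_cast hC.card_pos
  have hgn : 0 < hg ^ n := pow_pos hhg n
  set κ := σ / (mu * C.card * hg ^ n) with hκ
  have hκ0 : 0 < κ := by positivity
  have hshm : MeasurableSet (shell n a b) := (isOpen_shell a b).measurableSet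
  -- the basic formula
  have hphi : ∀ c ∈ C, ∀ A : Set (EE n), MeasurableSet A →
      (K (phi c ⁻¹' A)).toReal * σ = mu * (volume (A ∩ shell n a b)).toReal := by
    intro c hc A hA
    have h1 := congrArg ENNReal.toReal (kap_phi hn (a := a) (b := b) hA (hu c hc))
    rw [ENNReal.toReal_mul, ENNReal.toReal_mul] at h1
    exact h1
  have hphi' : ∀ c ∈ C, ∀ A : Set (EE n), MeasurableSet A →
      (K (phi c ⁻¹' A)).toReal * κ =
        (volume (A ∩ shell n a b)).toReal / (C.card * hg ^ n) := by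
    intro c hc A hA
    have := hphi c hc A hA
    rw [hκ, mul_div_assoc', this]
    field_simp
  set f : GG n × Ioi (0:ℝ) → Finset (Fin n → Fin q) × Finset (Fin n → Fin q) :=
    fun ω => (hit C a0 hg ω, hitT u B ω) with hf
  have hfm : ∀ v, MeasurableSet {ω | f ω = v} := by
    intro v
    have h1 : {ω | f ω = v} = {ω | hit C a0 hg ω = v.1} ∩ {ω | hitT u B ω = v.2} := by
      ext ω; simp [hf, Prod.ext_iff]
    rw [h1]
    exact (measurableSet_hit_eq C a0 hg v.1).inter (measurableSet_hitT_eq u hB v.2)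
  set w : Finset (Fin n → Fin q) × Finset (Fin n → Fin q) → ℝ :=
    fun v => (K {ω | f ω = v}).toReal * κ with hw
  have hsum : ∀ R : Finset (Fin n → Fin q) × Finset (Fin n → Fin q) → Prop,
      ∀ [DecidablePred R], ∑ v, (if R v then w v else 0) = (K {ω | R (f ω)}).toReal * κ := by
    intro R _
    rw [← sum_fiber K f hfm R, Finset.sum_mul]
    refine Finset.sum_congr rfl fun v _ => ?_
    rw [ite_mul, zero_mul]
  refine ⟨w, fun v => by positivity, ?_, ?_, ?_, ?_⟩
  · intro x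
    rw [hsum (fun v => x ∈ v.1)]
    have h3 : (K {ω | x ∈ hit C a0 hg ω}).toReal =
        ∑ c ∈ C, (K (phi c ⁻¹' (cell a0 hg x))).toReal := by
      have h2 : {ω | x ∈ hit C a0 hg ω} = ⋃ c ∈ C, phi c ⁻¹' (cell a0 hg x) := by
        ext ω; simp [mem_hit]
      rw [h2, measure_biUnion_finset₀, ENNReal.toReal_sum]
      · intro T _; exact measure_ne_top _ _
      · intro c hc c' hc' hne
        refine measure_mono_null ?_ (kap_compl a b)
        rintro ω ⟨h4, h5⟩ hω
        have h6 : ‖phi c ω - phi c' ω‖ ≤ hg * √n := by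
          apply norm_le_of_coord hhg.le
          intro k
          have e1 := h4 k
          have e2 := h5 k
          simp only [PiLp.sub_apply]
          rw [abs_le]
          constructor <;> nlinarith [e1.1, e1.2, e2.1, e2.2]
        rw [norm_phi_sub] at h6
        have h7 : s ≤ ‖c - c'‖ := by rw [← dist_eq_norm]; exact hs c hc c' hc' hne
        have h8 : a * s ≤ ω.2.1 * ‖c - c'‖ := mul_le_mul hω.1.le h7 hs0 (le_of_lt ω.2.2)
        linarith
      · intro c _; exact (measurable_phi c (measurableSet_cell _ _ _)).nullMeasurableSet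
    rw [show {ω | x ∈ (f ω).1} = {ω | x ∈ hit C a0 hg ω} from rfl, h3, Finset.sum_mul]
    rw [Finset.sum_congr rfl fun c hc => hphi' c hc _ (measurableSet_cell a0 hg x),
      Finset.sum_const, nsmul_eq_mul]
    field_simp
  · intro T hT x hx y hy hxy
    have h1 : K {ω | f ω = T} ≠ 0 := by
      intro h; apply hT; simp [hw, h]
    have h2 : ∃ ω, f ω = T ∧ (a < ω.2.1 ∧ ω.2.1 < b) := by
      by_contra hcon
      push Not at hcon
      apply h1
      refine measure_mono_null ?_ (kap_compl a b)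
      intro ω hω hω2
      exact absurd hω2.2 (not_lt.2 (hcon ω hω hω2.1))
    obtain ⟨ω, hω, hω2⟩ := h2
    rw [← hω] at hx hy
    exact hit_dist hs hhg hs0 hgs hω2 hx hy hxy
  · intro y
    rw [hsum (fun v => y ∈ v.2)]
    have h1 : {ω | y ∈ (f ω).2} = {ω : GG n × Ioi (0:ℝ) | act ω.1 (u y) ∈ B} := by
      ext ω; exact mem_hitT
    rw [h1]
    have h2 := congrArg ENNReal.toReal (kap_act hn (a := a) (b := b) (hu1 y) hB)
    rw [ENNReal.toReal_mul, ENNReal.toReal_mul] at h2
    obtain ⟨c, hc⟩ := hC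
    have h3 := hphi' c hc univ MeasurableSet.univ
    rw [preimage_univ, univ_inter] at h3
    rw [← h3]
    rw [← hK, ← hσ] at h2
    have h4 : (K {ω | act ω.1 (u y) ∈ B}).toReal =
        (K univ).toReal * (sph n {z | (z : EE n) ∈ B}).toReal / σ := by
      rw [eq_div_iff hσ0.ne']; exact h2
    rw [h4]
    ring
  · intro x y ε hε hc
    rw [hsum (fun v => x ∈ v.1 ∧ y ∉ v.2)]
    have h1 : {ω | x ∈ (f ω).1 ∧ y ∉ (f ω).2} ⊆
        (⋃ c ∈ C, {ω | phi c ω ∈ cell a0 hg x ∩ shell n a b ∧ act ω.1 (u y) ∈ Bᶜ}) ∪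
          {ω | ¬ (a < ω.2.1 ∧ ω.2.1 < b)} := by
      rintro ω ⟨h2, h3⟩
      by_cases hω : a < ω.2.1 ∧ ω.2.1 < b
      · left
        obtain ⟨c, hc, hcx⟩ := mem_hit.1 h2
        simp only [mem_iUnion]
        refine ⟨c, hc, ⟨hcx, ?_⟩, fun h4 => h3 (mem_hitT.2 h4)⟩
        show a < ‖phi c ω‖ ∧ ‖phi c ω‖ < b
        rw [norm_phi (hu c hc)]
        exact hω
      · right; exact hω
    have h2 : K {ω | x ∈ (f ω).1 ∧ y ∉ (f ω).2} ≤
        ∑ c ∈ C, ENNReal.ofReal ε * K (phi c ⁻¹' (cell a0 hg x ∩ shell n a b)) := by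
      refine (measure_mono h1).trans ((measure_union_le _ _).trans ?_)
      rw [kap_compl, add_zero]
      exact (measure_biUnion_finset_le _ _).trans (Finset.sum_le_sum fun c hcC => hc c hcC)
    have h3 : (K {ω | x ∈ (f ω).1 ∧ y ∉ (f ω).2}).toReal ≤
        ∑ c ∈ C, ε * (K (phi c ⁻¹' (cell a0 hg x ∩ shell n a b))).toReal := by
      have h4 := ENNReal.toReal_mono (ENNReal.sum_lt_top.2 fun c _ =>
        ENNReal.mul_lt_top ENNReal.ofReal_lt_top (measure_lt_top _ _)).ne h2
      rw [ENNReal.toReal_sum fun c _ => (ENNReal.mul_lt_top ENNReal.ofReal_lt_top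
        (measure_lt_top _ _)).ne] at h4
      refine h4.trans (le_of_eq ?_)
      refine Finset.sum_congr rfl fun c _ => ?_
      rw [ENNReal.toReal_mul, ENNReal.toReal_ofReal hε]
    refine (mul_le_mul_of_nonneg_right h3 hκ0.le).trans (le_of_eq ?_)
    rw [Finset.sum_mul]
    have h5 : ∀ c ∈ C, ε * (K (phi c ⁻¹' (cell a0 hg x ∩ shell n a b))).toReal * κ =
        ε * ((volume (cell a0 hg x ∩ shell n a b)).toReal / (C.card * hg ^ n)) := by
      intro c hcC
      rw [mul_assoc, hphi' c hcC _ ((measurableSet_cell a0 hg x).inter hshm), inter_assoc,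
        inter_self]
    rw [Finset.sum_congr rfl h5, Finset.sum_const, nsmul_eq_mul]
    field_simp

end Pool.Agent.H712.NS
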