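import Pool.Graph.R_seed8.TH41.SC.Fin
import Pool.Graph.R_pool_sql_team_seeded_3997aac3.Q154.SL.K7

/-! The exponent at the angle `π / 3`. -/

set_option autoImplicit false

open Finset Filter Topology

namespace Pool.Agent.H712.NS

open Pool.Agent.W259.GP Pool.Agent.W48.KS Pool.Agent.TH41.SC

/-- adapted from the library theorem `TH41.SC.exists_s` -/
theorem exists_s_le {κ s0 : ℝ} (h0 : 0 < κ) (h1 : κ < 1) (hs0 : κ / 2 ≤ s0) (hs1 : s0 ≤ κ)
    (hyp : κ * ∑' k, a (s0 ^ 2) k ≤ ∑' k, a (s0 ^ 2) k * ph (cc (s0 ^ 2) (2 * k + 1))) :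
    ∃ s : ℝ, 0 < s ∧ s ≤ s0 ∧
    κ * ∑' k, a (s ^ 2) k = ∑' k, a (s ^ 2) k * ph (cc (s ^ 2) (2 * k + 1)) := by
  set t : ℕ → ℝ → ℝ := fun m s => (2 * (m : ℝ) + 2) * s * (s ^ 2) ^ m /
    (1 - (s ^ 2) ^ (2 * m + 2)) - κ * ((2 * (m : ℝ) + 1) * (s ^ 2) ^ m /
      (1 - (s ^ 2) ^ (2 * m + 1))) with ht
  have hF : ∀ s : ℝ, 0 < s → s < 1 → ∑' m, t m s =
      ∑' k, a (s ^ 2) k * ph (cc (s ^ 2) (2 * k + 1)) - κ * ∑' k, a (s ^ 2) k := by
    intro s hs0 hs1
    have h2 : 0 < s ^ 2 := by positivity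
    have h3 : s ^ 2 < 1 := pow_lt_one₀ hs0.le hs1 (by norm_num)
    rw [(lam_odd h2 h3).2, (lam_even hs0 hs1).2, ← tsum_mul_left, ← Summable.tsum_sub
      (lam_even hs0 hs1).1 ((lam_odd h2 h3).1.mul_left κ)]
  have hcont : ContinuousOn (fun s => ∑' m, t m s) (Set.Icc (κ / 2) κ) := by
    have hden : ∀ s ∈ Set.Icc (κ / 2) κ, ∀ n : ℕ, n ≠ 0 → 1 - κ ^ 2 ≤ 1 - (s ^ 2) ^ n := by
      intro s hs n hn
      have e1 : 0 ≤ s := by linarith [hs.1]
      have e2 : s ^ 2 ≤ κ ^ 2 := by gcongr; exact hs.2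
      have e3 : (s ^ 2) ^ n ≤ s ^ 2 := by
        apply pow_le_of_le_one (by positivity) _ hn
        exact pow_le_one₀ e1 (by linarith [hs.2])
      linarith
    have hκ2 : 0 < 1 - κ ^ 2 := by nlinarith
    refine continuousOn_tsum (f := t)
      (u := fun m : ℕ => (2 / (1 - κ ^ 2)) * (((m : ℝ) + 1) * (κ ^ 2) ^ m)) ?_ ?_ ?_
    · intro m
      apply ContinuousOn.sub
      · apply ContinuousOn.div (by fun_prop) (by fun_prop)
        intro s hs
        have := hden s hs (2 * m + 2) (by omega)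
        exact (by linarith : 0 < 1 - (s ^ 2) ^ (2 * m + 2)).ne'
      · apply ContinuousOn.mul continuousOn_const
        apply ContinuousOn.div (by fun_prop) (by fun_prop)
        intro s hs
        have := hden s hs (2 * m + 1) (by omega)
        exact (by linarith : 0 < 1 - (s ^ 2) ^ (2 * m + 1)).ne'
    · apply Summable.mul_left
      exact (hasSum_one (q := κ ^ 2) (by positivity) (by linarith)).summable
    · intro m s hs
      have e1 : 0 < s := by linarith [hs.1]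
      have e2 : s ≤ 1 := by linarith [hs.2]
      have d1 := hden s hs (2 * m + 1) (by omega)
      have d2 := hden s hs (2 * m + 2) (by omega)
      have e3 : (s ^ 2) ^ m ≤ (κ ^ 2) ^ m := by
        gcongr
        exact hs.2
      have e4 : 0 < (s ^ 2) ^ m := by positivity
      have p1 : (2 * (m : ℝ) + 2) * s * (s ^ 2) ^ m / (1 - (s ^ 2) ^ (2 * m + 2)) ≤
          (2 / (1 - κ ^ 2)) * (((m : ℝ) + 1) * (κ ^ 2) ^ m) := by
        calc _ ≤ (2 * (m : ℝ) + 2) * 1 * (κ ^ 2) ^ m / (1 - κ ^ 2) := by gcongr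
          _ = _ := by ring
      have p2 : κ * ((2 * (m : ℝ) + 1) * (s ^ 2) ^ m / (1 - (s ^ 2) ^ (2 * m + 1))) ≤
          (2 / (1 - κ ^ 2)) * (((m : ℝ) + 1) * (κ ^ 2) ^ m) := by
        have d3 : 0 < 1 - (s ^ 2) ^ (2 * m + 1) := by linarith
        calc _ ≤ 1 * ((2 * (m : ℝ) + 2) * (κ ^ 2) ^ m / (1 - κ ^ 2)) := by
              gcongr
              linarith
          _ = _ := by ring
      have p3 : 0 ≤ (2 * (m : ℝ) + 2) * s * (s ^ 2) ^ m / (1 - (s ^ 2) ^ (2 * m + 2)) := by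
        have : 0 < 1 - (s ^ 2) ^ (2 * m + 2) := by linarith
        positivity
      have p4 : 0 ≤ κ * ((2 * (m : ℝ) + 1) * (s ^ 2) ^ m / (1 - (s ^ 2) ^ (2 * m + 1))) := by
        have : 0 < 1 - (s ^ 2) ^ (2 * m + 1) := by linarith
        positivity
      rw [Real.norm_eq_abs, abs_le]
      constructor
      · show _ ≤ (2 * (m : ℝ) + 2) * s * (s ^ 2) ^ m / (1 - (s ^ 2) ^ (2 * m + 2)) -
          κ * ((2 * (m : ℝ) + 1) * (s ^ 2) ^ m / (1 - (s ^ 2) ^ (2 * m + 1)))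
        linarith
      · show (2 * (m : ℝ) + 2) * s * (s ^ 2) ^ m / (1 - (s ^ 2) ^ (2 * m + 2)) -
          κ * ((2 * (m : ℝ) + 1) * (s ^ 2) ^ m / (1 - (s ^ 2) ^ (2 * m + 1))) ≤ _
        linarith
  have hivt := intermediate_value_Icc hs0 (hcont.mono (Set.Icc_subset_Icc_right hs1))
  have hl : ∑' m, t m (κ / 2) ≤ 0 := by
    rw [hF _ (by linarith) (by linarith)]
    have := beta_le (s := κ / 2) (by linarith) (by linarith)
    have e : 2 * (κ / 2) = κ := by ring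
    rw [e] at this
    linarith
  have hr : 0 ≤ ∑' m, t m s0 := by
    rw [hF _ (by linarith) (by linarith)]
    linarith
  obtain ⟨s, hs, hs2⟩ := hivt ⟨hl, hr⟩
  refine ⟨s, by linarith [hs.1], hs.2, ?_⟩
  have hs3 : ∑' m, t m s = 0 := hs2
  rw [hF s (by linarith [hs.1]) (by linarith [hs.2])] at hs3
  linarith


theorem Ψ_anti : StrictAntiOn Ψ (Set.Ioi 0) := Pool.Agent.Q154.SL.Ph_anti

/-- **The exponent for kissing configurations.** -/
theorem kiss_eta : ∃ η : ℝ, 0 < η ∧ (1 / 2 : ℝ) * oddSum η = evenSum η ∧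
    Ψ η < 396601 / 1000000 * Real.log 2 := by
  obtain ⟨s, hs0, hs1, hs⟩ := exists_s_le (κ := 1 / 2) (s0 := 6515 / 22611) (by norm_num)
    (by norm_num) (by norm_num) (by norm_num) num_hyp
  have hs2 : s < 1 := lt_of_le_of_lt hs1 (by norm_num)
  have hl : 0 < -Real.log s := by
    have := Real.log_neg hs0 hs2
    linarith
  have hl0 : (0:ℝ) < -Real.log (6515 / 22611) := by
    rw [neg_pos]
    exact Real.log_neg (by norm_num) (by norm_num)
  have e : Real.exp (- -Real.log s) = s := by rw [neg_neg, Real.exp_log hs0]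
  refine ⟨-Real.log s, hl, ?_, ?_⟩
  · rw [oddSum_eq hl, evenSum_eq hl, e, ← hs]
    ring
  · have h1 : -Real.log (6515 / 22611) ≤ -Real.log s := neg_le_neg (Real.log_le_log hs0 hs1)
    have h2 := Ψ_anti.antitoneOn (Set.mem_Ioi.2 hl0) (Set.mem_Ioi.2 hl) h1
    refine lt_of_le_of_lt h2 ?_
    rw [Ψ_eq hl0, neg_neg, Real.exp_log (by norm_num)]
    exact num_Φ

theorem sin60 : Real.log √(1 - (1 / 2 : ℝ) ^ 2) < -(2075 / 10000 * Real.log 2) := by
  have e : (1 - (1 / 2 : ℝ) ^ 2) = 3 / 4 := by norm_num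
  rw [e, Real.log_sqrt (by norm_num)]
  have h : (3 : ℝ) ^ 200 < 2 ^ 158 * 2 ^ 159 := by norm_num
  rw [← pow_add] at h
  have h1 := Real.log_lt_log (by positivity) h
  rw [Real.log_pow, Real.log_pow] at h1
  have h2 : Real.log (3 / 4) = Real.log 3 - 2 * Real.log 2 := by
    rw [Real.log_div (by norm_num) (by norm_num), show (4 : ℝ) = 2 ^ 2 by norm_num, Real.log_pow]
    norm_num
  rw [h2]
  push_cast at h1
  linarith

end Pool.Agent.H712.NS
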