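import Pool.Agent.H712.NS.SiteA
import Pool.Graph.R_seed8.TH41.SC.Fin

/-!
One-site states for the spherical codes of a given angle, with exponent close to the curve `Φ` and
with energy close to the minimal distance (adapted from the library module `TH41.SC.Main`).
-/

set_option autoImplicit false

open Finset Filter Topology MeasureTheory

namespace Pool.Agent.H712.NS

open Pool.Agent.H390R2.LP Pool.Agent.W259.GP Pool.Agent.W48.KS Pool.Agent.TH41.SC

theorem site_mx {n : ℕ} {w c : Fin (n + 1) → ℝ} (hw : ∀ j, 0 < w j) (hsum : ∑ j, w j = 1)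
    (hc : ∀ j, 0 < c j) {η : ℝ} (hη : 0 < η) :
    ∃ (Ω : Type) (_ : Fintype Ω) (_ : DecidableEq Ω) (q : ℕ) (s : Site Ω (Fin q)) (a0 hg : ℝ),
      0 < hg ∧ hg < η ∧
      s.S - s.h - Real.log hg < -(1 / 2 * Real.log Real.pi) - 1 / 2 + mx w c + η ∧
      |∑ x, s.P x * (a0 + hg * (x : ℝ)) ^ 2 - 1 / 2| < η ∧
      |s.E (fun (_ : Unit) (x : Fin q) => hg * (x : ℝ)) - (1 - ∑ j, w j * ph (c j))| < η := by
  obtain ⟨O, O', c', hO, hO', hc', hO0, hQ, hdet⟩ := Pool.Agent.W417.KS.la n w c hw hsum hc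
  have hE2 : ∑ j, O j 0 ^ 2 * eC (c j) = 1 - ∑ j, w j * ph (c j) := by
    rw [← hsum, ← sum_sub_distrib]
    refine sum_congr rfl fun j _ => ?_
    rw [hO0]
    unfold eC ph
    ring
  have h1 := gauss2b n O c O' c' hO hO' hc hc' hQ η hη
  have hint := Pool.Agent.W460.KSI.int
  have hg : ∀ x : ℝ, 0 < x → gH x = 1 - Real.log 2 + 1 / 2 * ∫ t in (0 : ℝ)..1,
      Real.log (1 + 2 * x - t ^ 2) := hint
  have hp : ∀ x : ℝ, 0 < x → 1 < 1 + 2 * x := fun x hx => by linarith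
  have key : ∫ t in (0 : ℝ)..1, Real.log (∑ j, w j / (1 + 2 * c j - t ^ 2))
      = ∑ i, (∫ t in (0 : ℝ)..1, Real.log (1 + 2 * c' i - t ^ 2))
        - ∑ j, ∫ t in (0 : ℝ)..1, Real.log (1 + 2 * c j - t ^ 2) := by
    rw [← intervalIntegral.integral_finsetSum fun i _ => int_log (hp _ (hc' i)),
      ← intervalIntegral.integral_finsetSum fun j _ => int_log (hp _ (hc j)),
      ← intervalIntegral.integral_sub]
    · apply intervalIntegral.integral_congr
      intro t ht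
      rw [Set.uIcc_of_le zero_le_one] at ht
      have ht2 : t ^ 2 ≤ 1 := by nlinarith [ht.1, ht.2]
      have hd := hdet (t ^ 2) (sq_nonneg t) ht2
      have hpos : ∀ j, 0 < 1 + 2 * c j - t ^ 2 := fun j => by have := hc j; linarith
      have hpos' : ∀ i, 0 < 1 + 2 * c' i - t ^ 2 := fun i => by have := hc' i; linarith
      have hR : 0 < ∑ j, w j / (1 + 2 * c j - t ^ 2) :=
        sum_pos (fun j _ => div_pos (hw j) (hpos j)) univ_nonempty
      show Real.log (∑ j, w j / (1 + 2 * c j - t ^ 2)) = ∑ i, Real.log (1 + 2 * c' i - t ^ 2)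
        - ∑ j, Real.log (1 + 2 * c j - t ^ 2)
      rw [← Real.log_prod fun i _ => (hpos' i).ne', ← hd, Real.log_mul hR.ne'
        (prod_pos fun j _ => hpos j).ne', Real.log_prod fun i _ => (hpos i).ne']
      ring
    · have := IntervalIntegrable.sum univ fun i _ => int_log (hp _ (hc' i))
      simpa only [Finset.sum_fn] using this
    · have := IntervalIntegrable.sum univ fun j _ => int_log (hp _ (hc j))
      simpa only [Finset.sum_fn] using this
  have hmx : mx w c = ∑ j, gH (c j) - ∑ j, gH (c' j) := by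
    unfold mx
    rw [key]
    have h2 : ∑ j, gH (c j) = (n + 1) * (1 - Real.log 2)
        + 1 / 2 * ∑ j, ∫ t in (0 : ℝ)..1, Real.log (1 + 2 * c j - t ^ 2) := by
      rw [mul_sum, sum_congr rfl fun j _ => hg (c j) (hc j), sum_add_distrib, sum_const, card_univ,
        Fintype.card_fin, nsmul_eq_mul]
      push_cast
      ring
    have h3 : ∑ i, gH (c' i) = n * (1 - Real.log 2)
        + 1 / 2 * ∑ i, ∫ t in (0 : ℝ)..1, Real.log (1 + 2 * c' i - t ^ 2) := by
      rw [mul_sum, sum_congr rfl fun j _ => hg (c' j) (hc' j), sum_add_distrib, sum_const,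
        card_univ, Fintype.card_fin, nsmul_eq_mul]
    rw [h2, h3]
    ring
  obtain ⟨Ω, i1, i2, q, s, a0, hg', g0, g1, g2, g3, g4⟩ := h1
  refine ⟨Ω, i1, i2, q, s, a0, hg', g0, g1, ?_, g3, ?_⟩
  · rw [hmx]; linarith
  · rw [← hE2]; exact g4

/-- **Sites for spherical codes.** -/
theorem sites {r : ℝ} (h0 : 0 < r) (h1 : r < 1) {κ : ℝ} (hκ1 : κ < 1)
    (hE : κ * ∑' k, a r k = ∑' k, a r k * ph (cc r (2 * k + 1))) {τ : ℝ} (hτ : 0 < τ) :
    ∃ ρ : ℝ, 0 < ρ ∧ ρ < τ ∧ ∀ η : ℝ, 0 < η →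
    ∃ (Ω : Type) (_ : Fintype Ω) (_ : DecidableEq Ω) (q : ℕ) (s : Site Ω (Fin q)) (a0 hg : ℝ),
      0 < hg ∧ hg < η ∧
      s.S - s.h - Real.log hg < -(1 / 2 * Real.log Real.pi) - 1 / 2 + Φ r + τ + η ∧
      |∑ x, s.P x * (a0 + hg * (x : ℝ)) ^ 2 - 1 / 2| < η ∧
      |s.E (fun (_ : Unit) (x : Fin q) => hg * (x : ℝ)) - (1 - κ - ρ)| < η := by
  have hcc : ∀ k : ℕ, 0 < cc r (2 * k + 1) := fun k => cc_pos h0 h1 _ (by omega)
  set μ := (∑' k, a r k * ph (cc r (2 * k + 1))) / ∑' k, a r k with hμ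
  have hκμ : κ = μ := by
    rw [hμ, eq_div_iff (a_tsum_pos h0 h1).ne']
    exact hE
  obtain ⟨P, hP0, hP⟩ := ph_big hκ1
  have hP1 : ph P ≤ 1 := ph_le_one hP0
  -- choice of δ
  obtain ⟨δ, hδ0, hδ1, hδ, hδτ⟩ : ∃ δ : ℝ, 0 < δ ∧ δ < 1 ∧
      -(1 / 2 * Real.log (1 - δ)) < τ / 3 ∧ δ * (ph P - κ) < τ / 2 := by
    have hlim : Tendsto (fun δ : ℝ => -(1 / 2 * Real.log (1 - δ))) (𝓝[>] 0) (𝓝 0) := by
      have : Tendsto (fun δ : ℝ => -(1 / 2 * Real.log (1 - δ))) (𝓝 0)
          (𝓝 (-(1 / 2 * Real.log (1 - 0)))) := by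
        apply ContinuousAt.tendsto
        apply ContinuousAt.neg
        apply ContinuousAt.mul continuousAt_const
        apply ContinuousAt.log
        · fun_prop
        · norm_num
      simp only [sub_zero, Real.log_one, mul_zero, neg_zero] at this
      exact this.mono_left nhdsWithin_le_nhds
    have hlim' : Tendsto (fun δ : ℝ => δ * (ph P - κ)) (𝓝[>] 0) (𝓝 0) := by
      have : Tendsto (fun δ : ℝ => δ * (ph P - κ)) (𝓝 0) (𝓝 (0 * (ph P - κ))) := by
        apply Continuous.tendsto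
        fun_prop
      rw [zero_mul] at this
      exact this.mono_left nhdsWithin_le_nhds
    have h2 := hlim.eventually (gt_mem_nhds (by positivity : (0 : ℝ) < τ / 3))
    have h2' := hlim'.eventually (gt_mem_nhds (by positivity : (0 : ℝ) < τ / 2))
    have h3 : ∀ᶠ δ : ℝ in 𝓝[>] 0, δ < 1 :=
      (Filter.Tendsto.eventually (tendsto_id.mono_left nhdsWithin_le_nhds)
        (gt_mem_nhds one_pos))
    obtain ⟨δ, ⟨⟨h4, h5⟩, h7⟩, h6⟩ := (((h2.and h3).and h2').and self_mem_nhdsWithin).exists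
    exact ⟨δ, h6, h5, h4, h7⟩
  have hlim1 := mean_lim h0 h1 (fun k => ph (cc r (2 * k + 1))) (fun k => by
    rw [abs_of_nonneg (ph_nonneg _)]; exact ph_le_one (hcc k))
  have hlim2 := alt_lim h0 h1
  have hval : δ * ph P + (1 - δ) * μ = κ + δ * (ph P - κ) := by rw [← hκμ]; ring
  have hpos : 0 < δ * (ph P - κ) := mul_pos hδ0 (by linarith)
  have hlim3 : Tendsto (fun M => δ * ph P + (1 - δ) * ∑ k ∈ range (M + 1), W r M k *
      ph (cc r (2 * k + 1))) atTop (𝓝 (δ * ph P + (1 - δ) * μ)) :=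
    tendsto_const_nhds.add (tendsto_const_nhds.mul hlim1)
  rw [hval] at hlim3
  obtain ⟨M, ⟨hM1, hM1'⟩, hM2⟩ := (((hlim3.eventually (lt_mem_nhds (show κ < κ + δ * (ph P - κ) by
    linarith))).and (hlim3.eventually (gt_mem_nhds (show κ + δ * (ph P - κ) < κ + τ by
    linarith)))).and
    (hlim2.eventually (gt_mem_nhds (show Φ r < Φ r + τ / 3 by linarith)))).exists
  set w : Fin (M + 1) → ℝ := fun k => W r M k with hw
  set c : Fin (M + 1) → ℝ := fun k => cc r (2 * k + 1) with hc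
  have hwpos : ∀ j, 0 < w j := fun j => W_pos h0 h1 M j (Nat.lt_succ_iff.1 j.2)
  have hcpos : ∀ j, 0 < c j := fun j => hcc j
  have hwsum : ∑ j, w j = 1 := by
    rw [hw, Fin.sum_univ_eq_sum_range (fun k => W r M k)]
    exact W_sum h0 h1 M
  have hmx : mx w c < Φ r + τ / 3 := by
    rw [hw, hc, mx_eq h0 h1]
    exact hM2
  have hcons := mx_cons hwpos hcpos hδ0 hδ1 hP0
  have e0 : 0 < 1 - δ := by linarith
  have e3 : ∑ j, (Fin.cons δ (fun j => (1 - δ) * w j) : Fin (M + 2) → ℝ) j *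
      ph ((Fin.cons P c : Fin (M + 2) → ℝ) j) =
      δ * ph P + (1 - δ) * ∑ k ∈ range (M + 1), W r M k * ph (cc r (2 * k + 1)) := by
    rw [Fin.sum_univ_succ]
    simp only [Fin.cons_zero, Fin.cons_succ]
    rw [← Fin.sum_univ_eq_sum_range (fun k => W r M k * ph (cc r (2 * k + 1))), mul_sum]
    congr 1
    exact sum_congr rfl fun i _ => by rw [mul_assoc]
  set v := δ * ph P + (1 - δ) * ∑ k ∈ range (M + 1), W r M k * ph (cc r (2 * k + 1)) with hv
  refine ⟨v - κ, by linarith, by linarith, fun η hη => ?_⟩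
  obtain ⟨Ω, i1, i2, q, s, a0, hg', g0, g1, g2, g3, g4⟩ :=
    site_mx (n := M + 1) (w := Fin.cons δ fun j => (1 - δ) * w j)
    (c := Fin.cons P c)
    (fun j => by
      refine Fin.cases ?_ (fun i => ?_) j
      · simpa using hδ0
      · simp only [Fin.cons_succ]; exact mul_pos e0 (hwpos i))
    (by
      rw [Fin.sum_univ_succ]
      simp only [Fin.cons_zero, Fin.cons_succ]
      rw [← mul_sum, hwsum]
      ring)
    (fun j => by
      refine Fin.cases ?_ (fun i => ?_) j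
      · simpa using hP0
      · simp only [Fin.cons_succ]; exact hcpos i)
    hη
  refine ⟨Ω, i1, i2, q, s, a0, hg', g0, g1, by linarith, g3, ?_⟩
  rw [e3] at g4
  have e4 : 1 - κ - (v - κ) = 1 - v := by ring
  rw [e4]
  exact g4

end Pool.Agent.H712.NS
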