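import Pool.Agent.H712.NS.One
import Pool.Agent.H712.NS.SiteB

/-! The noise inequality for level sets of Lipschitz functions on the sphere. -/

set_option autoImplicit false
set_option linter.unusedSectionVars false

open MeasureTheory Set Metric Filter
open scoped ENNReal

namespace Pool.Agent.H712.NS

open Pool.Agent.H703R2.LP Pool.Agent.H390R2.LP Pool.Agent.H712.NP Pool.Agent.H712.NI
open Pool.Agent.TH41.SC Pool.Agent.W48.KS Pool.Agent.W259.GP

theorem log_beta {β d : ℝ} (hβ : 0 < β) (hd : 0 ≤ d) (h : β ^ 2 ≤ 1 / 2 + d) :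
    Real.log β ≤ -(1 / 2 * Real.log 2) + d := by
  have h1 : Real.log (β ^ 2) ≤ Real.log (1 / 2 * (1 + 2 * d)) :=
    Real.log_le_log (by positivity) (by linarith)
  rw [Real.log_pow, Real.log_mul (by norm_num) (by positivity), one_div, Real.log_inv] at h1
  have h2 := Real.log_le_sub_one_of_pos (show 0 < 1 + 2 * d by positivity)
  push_cast at h1
  linarith

theorem slevel {r : ℝ} (h0 : 0 < r) (h1 : r < 1) {κ : ℝ} (hκ0 : 0 ≤ κ) (hκ1 : κ < 1)
    (hE : κ * ∑' k, a r k = ∑' k, a r k * ph (cc r (2 * k + 1))) {K ε : ℝ} (hK : 0 ≤ K)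
    (hε : 0 < ε) : ∃ n0 : ℕ, ∀ n ≥ n0, ∀ (C : Finset (EE n)) (F : EE n → ℝ) (B : ℝ),
    (∀ c ∈ C, ‖c‖ = 1) → (∀ c ∈ C, ∀ c' ∈ C, c ≠ c' → √(2 - 2 * κ) ≤ dist c c') →
    (∀ x y, |F x - F y| ≤ K * n * ‖x - y‖) → (∀ c ∈ C, cm κ F c ≤ B) →
    (C.card : ℝ) ≤ Real.exp (n * (Φ r + ε)) *
      ((sph n {z | F z ≤ B + ε * n}).toReal / (sph n univ).toReal) := by
  -- parameters
  obtain ⟨t1, ht0, ht1, htε, htK⟩ : ∃ t1 : ℝ, 0 < t1 ∧ t1 ≤ 1 ∧ t1 ≤ ε / 8 ∧
      K * (7 * t1 + √(14 * t1)) < ε / 2 := by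
    set t0 := min (min 1 (ε / 8)) ((ε / (22 * (K + 1))) ^ 2) with ht
    have hp : 0 < ε / (22 * (K + 1)) := by positivity
    have p0 : 0 < t0 := lt_min (lt_min one_pos (by positivity)) (by positivity)
    have p1 : t0 ≤ 1 := (min_le_left _ _).trans (min_le_left _ _)
    have p2 : t0 ≤ ε / 8 := (min_le_left _ _).trans (min_le_right _ _)
    have p3 : t0 ≤ (ε / (22 * (K + 1))) ^ 2 := min_le_right _ _
    refine ⟨t0, p0, p1, p2, ?_⟩
    have q0 : 0 < √t0 := Real.sqrt_pos.2 p0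
    have q1 : √t0 ≤ ε / (22 * (K + 1)) := Real.sqrt_le_iff.2 ⟨hp.le, p3⟩
    have q2 : t0 ≤ √t0 := by
      have h2 := Real.sq_sqrt p0.le
      have h3 : √t0 ≤ 1 := Real.sqrt_le_one.2 p1
      nlinarith
    have q3 : √(14 * t0) ≤ 4 * √t0 := by
      rw [Real.sqrt_mul (by norm_num)]
      refine mul_le_mul_of_nonneg_right ?_ q0.le
      exact Real.sqrt_le_iff.2 ⟨by norm_num, by norm_num⟩
    have q4 : 7 * t0 + √(14 * t0) ≤ 11 * √t0 := by linarith
    have q5 : 11 * √t0 ≤ ε / (2 * (K + 1)) := by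
      have : 11 * (ε / (22 * (K + 1))) = ε / (2 * (K + 1)) := by field_simp; norm_num
      rw [← this]; linarith
    calc K * (7 * t0 + √(14 * t0)) ≤ K * (ε / (2 * (K + 1))) :=
          mul_le_mul_of_nonneg_left (q4.trans q5) hK
      _ < (K + 1) * (ε / (2 * (K + 1))) := by
          refine mul_lt_mul_of_pos_right (by linarith) (by positivity)
      _ = ε / 2 := by field_simp
  obtain ⟨ρ, hρ0, hρt, hsite⟩ := sites h0 h1 hκ1 hE ht0
  obtain ⟨η1, hη0, hη16, hηρ, hηκ⟩ : ∃ η1 : ℝ, 0 < η1 ∧ η1 ≤ 1 / 16 ∧ 12 * η1 ≤ ρ ∧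
      η1 ≤ (1 - κ) / 2 := by
    refine ⟨min (min (1 / 16) (ρ / 12)) ((1 - κ) / 2), lt_min (lt_min (by norm_num)
      (by positivity)) (by linarith), (min_le_left _ _).trans (min_le_left _ _), ?_,
      min_le_right _ _⟩
    have := (min_le_left (min (1 / 16) (ρ / 12)) ((1 - κ) / 2)).trans (min_le_right _ _)
    linarith
  obtain ⟨Ω, _, _, q, s, a0, hg, hg0, hg1, hS, hM, hEn⟩ := hsite η1 hη0
  set M2 := ∑ x, s.P x * (a0 + hg * (x : ℝ)) ^ 2 with hM2
  set E0 := s.E (fun (_ : Unit) (x : Fin q) => hg * (x : ℝ)) with hE0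
  rw [abs_lt] at hM hEn
  set d := 4 * η1 with hd
  set d' := 4 * η1 + ρ with hd'
  set α := √(1 / 2 - 4 * η1) with hα
  set β := √(1 / 2 + 4 * η1) with hβ
  set sd := √(2 - 2 * κ) with hsd
  have hα2 : α ^ 2 = 1 / 2 - 4 * η1 := Real.sq_sqrt (by linarith)
  have hβ2 : β ^ 2 = 1 / 2 + 4 * η1 := Real.sq_sqrt (by linarith)
  have hsd2 : sd ^ 2 = 2 - 2 * κ := Real.sq_sqrt (by linarith)
  have hα0 : 0 < α := Real.sqrt_pos.2 (by linarith)
  have hβ0 : 0 < β := Real.sqrt_pos.2 (by linarith)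
  have hsd0 : 0 < sd := Real.sqrt_pos.2 (by linarith)
  have hα1 : α ≤ 3 / 4 := by
    apply le_of_sq_le_sq _ (by norm_num)
    rw [hα2]; norm_num; linarith
  have hβ1 : β ≤ 1 := by
    apply le_of_sq_le_sq _ (by norm_num)
    rw [hβ2]; norm_num; linarith
  have hβh : 1 / 2 ≤ β := by
    apply le_of_sq_le_sq _ hβ0.le
    rw [hβ2]; norm_num; linarith
  set p := α * sd with hp
  have hp0 : 0 < p := by positivity
  have hp2 : p ^ 2 = (1 - κ) * (1 - 8 * η1) := by
    rw [hp, mul_pow, hα2, hsd2]; ring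
  have hp1 : p ≤ 1 := by
    apply le_of_sq_le_sq _ zero_le_one
    rw [hp2, one_pow]
    exact mul_le_one₀ (by linarith) (by linarith) (by linarith)
  have hhp : hg < p := by
    have h2 : η1 ^ 2 ≤ (1 - κ) * (1 - 8 * η1) := by
      have h3 : η1 * η1 ≤ (1 - κ) / 2 * (1 / 16) := mul_le_mul hηκ hη16 hη0.le (by linarith)
      nlinarith
    have h3 : η1 ≤ p := by
      apply le_of_sq_le_sq _ hp0.le
      rw [hp2]; exact h2
    linarith
  have hD : E0 < (p - hg) ^ 2 := by
    have h2 : p ^ 2 ≥ (1 - κ) - 8 * η1 := by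
      rw [hp2]
      have : 0 ≤ κ * η1 := by positivity
      linarith
    have h3 : p * hg ≤ 1 * hg := mul_le_mul_of_nonneg_right hp1 hg0.le
    have h4 : (p - hg) ^ 2 = p ^ 2 - 2 * (p * hg) + hg ^ 2 := by ring
    have h5 := sq_nonneg hg
    rw [h4]
    linarith
  have hs1 : (α + hg) ^ 2 ≤ M2 - η1 := by
    have h2 : α * hg ≤ 3 / 4 * hg := mul_le_mul_of_nonneg_right hα1 hg0.le
    have h3 : hg * hg ≤ 1 / 16 * hg := mul_le_mul_of_nonneg_right (by linarith) hg0.le
    have h4 : (α + hg) ^ 2 = α ^ 2 + 2 * (α * hg) + hg * hg := by ring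
    rw [h4, hα2]
    linarith
  have hs2 : M2 + η1 ≤ (β - hg) ^ 2 := by
    have h2 : β * hg ≤ 1 * hg := mul_le_mul_of_nonneg_right hβ1 hg0.le
    have h3 := sq_nonneg hg
    have h4 : (β - hg) ^ 2 = β ^ 2 - 2 * (β * hg) + hg ^ 2 := by ring
    rw [h4, hβ2]
    linarith
  obtain ⟨η, hη, n1, H⟩ := core s (fun x : Fin q => hg * (x : ℝ)) (δ := (p - hg) ^ 2) hD
    (ε := ε / 8) (by positivity)
  set PV := pvar s (fun y => (a0 + hg * (y.1 : ℝ)) ^ 2) +
        pvar s (fun y => (a0 + hg * (y.2 : ℝ)) ^ 2) +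
        pvar s (fun y => (hg * (y.1 : ℝ) - hg * (y.2 : ℝ)) ^ 2) with hPV
  -- asymptotics
  have u1 : ∀ᶠ n : ℕ in atTop, PV / (n * η1 ^ 2) < η / 2 := by
    have : Tendsto (fun n : ℕ => PV / (n * η1 ^ 2)) atTop (nhds 0) := by
      refine Tendsto.const_div_atTop ?_ PV
      exact tendsto_natCast_atTop_atTop.atTop_mul_const (by positivity)
    exact this.eventually_lt_const (by positivity)
  have u2 : ∀ᶠ n : ℕ in atTop, (4 * Real.pi * K / ε) / √n < η / 2 := by
    have : Tendsto (fun n : ℕ => (4 * Real.pi * K / ε) / √(n : ℝ)) atTop (nhds 0) := by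
      refine Tendsto.const_div_atTop ?_ _
      exact Real.tendsto_sqrt_atTop.comp tendsto_natCast_atTop_atTop
    exact this.eventually_lt_const (by positivity)
  have u3 : ∀ᶠ n : ℕ in atTop, η⁻¹ ≤ Real.exp (n * (ε / 2)) := by
    have h1 : Tendsto (fun n : ℕ => Real.exp (n * (ε / 2))) atTop atTop :=
      Real.tendsto_exp_atTop.comp
        (tendsto_natCast_atTop_atTop.atTop_mul_const (by positivity))
    exact h1.eventually_ge_atTop _
  obtain ⟨n2, hn2⟩ := eventually_atTop.mp (u1.and (u2.and u3))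
  refine ⟨max (max n1 n2) 3, fun n hn C F B hu hdist hF hB => ?_⟩
  have hnn1 : n1 ≤ n := le_trans (le_trans (le_max_left _ _) (le_max_left _ _)) hn
  have hnn2 : n2 ≤ n := le_trans (le_trans (le_max_right _ _) (le_max_left _ _)) hn
  have hn3 : 3 ≤ n := le_trans (le_max_right _ _) hn
  obtain ⟨v1, v2, v3⟩ := hn2 n hnn2
  have hn0 : 0 < n := by omega
  have hn' : (0:ℝ) < n := by exact_mod_cast hn0
  rcases C.eq_empty_or_nonempty with hC | hC
  · rw [hC, Finset.card_empty, Nat.cast_zero]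
    positivity
  obtain ⟨m, hm⟩ : ∃ m, n = m + 3 := ⟨n - 3, by omega⟩
  have hsn : 0 < √(n : ℝ) := Real.sqrt_pos.mpr hn'
  have hε1 : Real.pi * (K * n / √((m : ℝ) + 1)) / (ε / 2 * n) ≤ (4 * Real.pi * K / ε) / √n := by
    have h2 : √(n : ℝ) ≤ 2 * √((m : ℝ) + 1) := by
      have h3 : (2 : ℝ) * √((m : ℝ) + 1) = √(4 * (m + 1)) := by
        rw [Real.sqrt_mul (by norm_num)]
        congr 1
        rw [show (4 : ℝ) = 2 ^ 2 by norm_num, Real.sqrt_sq (by norm_num)]
      rw [h3]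
      refine Real.sqrt_le_sqrt ?_
      rw [hm]; push_cast
      have : (0 : ℝ) ≤ m := Nat.cast_nonneg m
      linarith
    have hmp : 0 < √((m : ℝ) + 1) := Real.sqrt_pos.mpr (by positivity)
    have h4 : Real.pi * (K * n / √((m : ℝ) + 1)) / (ε / 2 * n) =
        (2 * Real.pi * K / ε) / √((m : ℝ) + 1) := by
      field_simp
    rw [h4, div_le_div_iff₀ hmp hsn]
    have h5 : 0 ≤ 2 * Real.pi * K / ε := by positivity
    have h6 : 4 * Real.pi * K / ε = 2 * (2 * Real.pi * K / ε) := by ring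
    rw [h6]
    calc 2 * Real.pi * K / ε * √(n : ℝ) ≤ 2 * Real.pi * K / ε * (2 * √((m : ℝ) + 1)) :=
          mul_le_mul_of_nonneg_left h2 h5
      _ = _ := by ring
  have hρt' : 4 * (d + d') ≤ 7 * t1 := by rw [hd, hd']; linarith
  have hξ0 : 0 ≤ 4 * (d + d') := by rw [hd, hd']; positivity
  have hlip : K * n * (4 * (d + d') + √(2 * (4 * (d + d')))) < ε / 2 * n := by
    have h2 : 4 * (d + d') + √(2 * (4 * (d + d'))) ≤ 7 * t1 + √(14 * t1) := by
      refine add_le_add hρt' (Real.sqrt_le_sqrt ?_)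
      linarith
    have h3 : K * (4 * (d + d') + √(2 * (4 * (d + d')))) < ε / 2 :=
      lt_of_le_of_lt (mul_le_mul_of_nonneg_left h2 hK) htK
    calc _ = n * (K * (4 * (d + d') + √(2 * (4 * (d + d'))))) := by ring
      _ < n * (ε / 2) := mul_lt_mul_of_pos_left h3 hn'
      _ = _ := by ring
  have hmain := one_dim (n := n) s hm (a0 := a0) (hg := hg) (α := α) (β := β) (sd := sd)
    (δ := η1) (D := (p - hg) ^ 2) (d := d) (d' := d') (M2 := M2) (E0 := E0) (κ := κ) (η := η)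
    (ε' := ε / 8) hg0 hα0.le hβ0 hη0 (by rw [hd]; linarith) (by rw [hα2, hd])
    (by rw [hβ2, hd]) (by rw [hd]; linarith) (by rw [hd]; linarith)
    (by
      have h2 : |2 * M2 - E0 - κ| ≤ 3 * η1 + ρ := by
        rw [abs_le]; constructor <;> linarith
      rw [hd']
      linarith)
    (by rw [abs_of_nonneg hκ0]; exact hκ1.le) (by linarith)
    hs1 hs2 hM2 hE0 hsd0.le hhp rfl
    (V1 := PV / (n * η1 ^ 2)) (ε1 := (4 * Real.pi * K / ε) / √n) (le_of_eq rfl)
    (by positivity) (by linarith) (H n hnn1) C hC hu hdist (F := F) (Λ := K * n) (by positivity)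
    hF (B := B) (τ := ε / 2 * n) (β' := B + ε * n) (by positivity) hB hε1 (by linarith)
  -- conclusion
  set P := (sph n {z | F z ≤ B + ε * n}).toReal / (sph n univ).toReal with hP
  have hP0 : 0 ≤ P := by positivity
  have hcard : (0:ℝ) < C.card := by exact_mod_cast hC.card_pos
  have hgn : 0 < hg ^ n := pow_pos hg0 n
  have hvol : (volume (shell n (α * √n) (β * √n))).toReal ≤
      Real.exp (n * (1 / 2 * Real.log (2 * Real.pi * Real.exp 1) + Real.log β)) := by
    refine le_trans ?_ (volume_ball_le hn0 hβ0)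
    apply ENNReal.toReal_mono (measure_ball_lt_top.ne)
    apply measure_mono
    intro y hy
    rw [mem_ball_zero_iff]
    exact hy.2
  have e1 : η * Real.exp (n * (s.h - s.S - ε / 8)) * C.card ≤
      Real.exp (n * (1 / 2 * Real.log (2 * Real.pi * Real.exp 1) + Real.log β)) / hg ^ n * P := by
    have h2 : η * Real.exp (n * (s.h - s.S - ε / 8)) * C.card ≤
        (volume (shell n (α * √n) (β * √n))).toReal / (C.card * hg ^ n) * P * C.card :=
      mul_le_mul_of_nonneg_right hmain hcard.le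
    refine h2.trans ?_
    calc (volume (shell n (α * √n) (β * √n))).toReal / (C.card * hg ^ n) * P * C.card =
        (volume (shell n (α * √n) (β * √n))).toReal / hg ^ n * P := by field_simp
      _ ≤ _ := by
        refine mul_le_mul_of_nonneg_right ?_ hP0
        exact div_le_div_of_nonneg_right hvol hgn.le
  have e2 : hg ^ n = Real.exp (n * Real.log hg) := by
    rw [mul_comm, ← Real.rpow_def_of_pos hg0, Real.rpow_natCast]
  rw [e2, ← Real.exp_sub] at e1
  have e3 : (C.card : ℝ) ≤ η⁻¹ * Real.exp (-(n * (s.h - s.S - ε / 8))) *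
      (Real.exp (n * (1 / 2 * Real.log (2 * Real.pi * Real.exp 1) + Real.log β) -
        n * Real.log hg) * P) := by
    have h2 : (C.card : ℝ) = η⁻¹ * Real.exp (-(n * (s.h - s.S - ε / 8))) *
        (η * Real.exp (n * (s.h - s.S - ε / 8)) * C.card) := by
      rw [Real.exp_neg]
      field_simp
    rw [h2]
    exact mul_le_mul_of_nonneg_left e1 (by positivity)
  refine e3.trans ?_
  rw [← mul_assoc]
  refine mul_le_mul_of_nonneg_right ?_ hP0
  have hb := log_beta hβ0 (d := d) (by rw [hd]; positivity) (by rw [hβ2, hd])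
  have h4 : Real.log (2 * Real.pi * Real.exp 1) = Real.log 2 + Real.log Real.pi + 1 := by
    rw [Real.log_mul (by positivity) (by positivity), Real.log_mul (by norm_num)
      Real.pi_ne_zero, Real.log_exp]
  calc η⁻¹ * Real.exp (-(n * (s.h - s.S - ε / 8))) *
        Real.exp (n * (1 / 2 * Real.log (2 * Real.pi * Real.exp 1) + Real.log β) -
          n * Real.log hg)
      ≤ Real.exp (n * (ε / 2)) * Real.exp (-(n * (s.h - s.S - ε / 8))) *
        Real.exp (n * (1 / 2 * Real.log (2 * Real.pi * Real.exp 1) + Real.log β) -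
          n * Real.log hg) :=
        mul_le_mul_of_nonneg_right (mul_le_mul_of_nonneg_right v3 (Real.exp_pos _).le)
          (Real.exp_pos _).le
    _ = Real.exp (n * (ε / 2 + ε / 8 + 1 / 2 * Real.log (2 * Real.pi * Real.exp 1) +
          Real.log β + (s.S - s.h - Real.log hg))) := by
        rw [← Real.exp_add, ← Real.exp_add]; congr 1; ring
    _ ≤ _ := by
        refine Real.exp_le_exp.2 (mul_le_mul_of_nonneg_left ?_ hn'.le)
        rw [h4]
        linarith

end Pool.Agent.H712.NS
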