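import Pool.Agent.H712.NS.FunS
import Pool.Agent.H712.NS.CapS
import Pool.Agent.H712.NP.Neigh

/-! Points of a spherical code near typical points at the minimal angle. -/

set_option autoImplicit false
set_option linter.unusedSectionVars false

open MeasureTheory Set Metric Filter
open scoped ENNReal

namespace Pool.Agent.H712.NS

open Pool.Agent.H703R2.LP Pool.Agent.H712.NP
open Pool.Agent.TH41.SC Pool.Agent.W48.KS Pool.Agent.W259.GP

variable {n : ℕ}

theorem dist_inner {c y : EE n} (hc : ‖c‖ = 1) (hy : ‖y‖ = 1) :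
    ‖y - c‖ ^ 2 = 2 - 2 * inner ℝ c y := by
  rw [@norm_sub_sq_real, hc, hy, real_inner_comm]; ring

/-- the caps of larger angle -/
theorem cap_big (hn : 0 < n) {κ D : ℝ} (hκ0 : 0 ≤ κ) (hκ1 : κ < 1) (hD : 0 < D)
    (hD2 : D ^ 2 = 2 - 2 * κ) {c : EE n} (hc : ‖c‖ = 1) {B : ℝ} (hB : 0 < B) :
    (sph n {y | kf n D ((y : EE n) - c) < B}).toReal ≤
      2 * √(1 - κ ^ 2 + 1 / (n:ℝ) ^ 2) ^ n * Real.exp (B / 2) * (sph n univ).toReal := by
  have hn' : (0:ℝ) < n := by exact_mod_cast hn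
  set R := √(1 - κ ^ 2 + 1 / (n:ℝ) ^ 2) with hR
  have hR0 : 0 ≤ R := Real.sqrt_nonneg _
  set τ := 1 + B / (2 * n) with hτ
  have hτ1 : 1 ≤ τ := by
    have : 0 < B / (2 * n) := by positivity
    rw [hτ]; linarith
  set κ' := 1 - (D * τ) ^ 2 / 2 with hκ'
  have hsub : {y : sphere (0 : EE n) 1 | kf n D ((y : EE n) - c) < B} ⊆
      {y | κ' ≤ inner ℝ c (y : EE n)} := by
    intro y hy
    have hy' : kf n D ((y : EE n) - c) < B := hy
    have hyn : ‖(y : EE n)‖ = 1 := norm_eq_of_mem_sphere y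
    have hnD : 0 < 2 * (n : ℝ) / D := by positivity
    have h4 : 2 * n / D * (‖(y : EE n) - c‖ - D) < B :=
      lt_of_le_of_lt (mul_le_mul_of_nonneg_left (le_max_left _ _) hnD.le) hy'
    have h5 : ‖(y : EE n) - c‖ - D < B * (D / (2 * n)) := by
      rw [div_mul_eq_mul_div, div_lt_iff₀ hD] at h4
      rw [mul_div_assoc', lt_div_iff₀ (by positivity)]
      linarith
    have h6 : D * τ = D + B * (D / (2 * n)) := by rw [hτ]; ring
    have h7 : ‖(y : EE n) - c‖ ≤ D * τ := by rw [h6]; linarith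
    have h8 : ‖(y : EE n) - c‖ ^ 2 ≤ (D * τ) ^ 2 := pow_le_pow_left₀ (norm_nonneg _) h7 2
    rw [dist_inner hc hyn] at h8
    show κ' ≤ inner ℝ c (y : EE n)
    rw [hκ']
    linarith
  have hmono : (sph n {y | kf n D ((y : EE n) - c) < B}).toReal ≤
      (sph n {y | κ' ≤ inner ℝ c (y : EE n)}).toReal :=
    ENNReal.toReal_mono (measure_ne_top _ _) (measure_mono hsub)
  have hσ0 : 0 ≤ (sph n univ).toReal := ENNReal.toReal_nonneg
  have hRs : R ^ 2 = 1 - κ ^ 2 + 1 / (n:ℝ) ^ 2 := by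
    refine Real.sq_sqrt ?_
    have : κ ^ 2 ≤ 1 := pow_le_one₀ hκ0 hκ1.le
    have : 0 ≤ 1 / (n:ℝ) ^ 2 := by positivity
    linarith
  have hτe : τ ^ n ≤ Real.exp (B / 2) := by
    have h6 : τ ≤ Real.exp (B / (2 * n)) := by
      have := Real.add_one_le_exp (B / (2 * n)); rw [hτ]; linarith
    calc τ ^ n ≤ Real.exp (B / (2 * n)) ^ n := pow_le_pow_left₀ (by linarith) h6 n
      _ = Real.exp (n * (B / (2 * n))) := (Real.exp_nat_mul _ _).symm
      _ = Real.exp (B / 2) := by congr 1; field_simp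
  have hD4 : D ^ 2 * (1 - D ^ 2 / 4) = 1 - κ ^ 2 := by rw [hD2]; ring
  have hmain : (sph n {y | κ' ≤ inner ℝ c (y : EE n)}).toReal ≤
      2 * (τ * R) ^ n * (sph n univ).toReal := by
    rcases le_or_gt 0 κ' with h | h
    · refine (cap_le hn h hc).trans ?_
      refine mul_le_mul_of_nonneg_right (mul_le_mul_of_nonneg_left
        (pow_le_pow_left₀ (Real.sqrt_nonneg _) ?_ n) (by norm_num)) hσ0
      refine Real.sqrt_le_iff.2 ⟨by positivity, ?_⟩
      rw [mul_pow, hRs]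
      have e1 : 1 - κ' ^ 2 = τ ^ 2 * (D ^ 2 * (1 - D ^ 2 * τ ^ 2 / 4)) := by
        rw [hκ']; ring
      have hτ2 : 1 ≤ τ ^ 2 := one_le_pow₀ hτ1
      have e2 : D ^ 2 * (1 - D ^ 2 * τ ^ 2 / 4) ≤ D ^ 2 * (1 - D ^ 2 / 4) := by
        refine mul_le_mul_of_nonneg_left ?_ (by positivity)
        have : D ^ 2 * 1 ≤ D ^ 2 * τ ^ 2 := mul_le_mul_of_nonneg_left hτ2 (by positivity)
        linarith
      rw [e1]
      have e3 : τ ^ 2 * (D ^ 2 * (1 - D ^ 2 * τ ^ 2 / 4)) ≤ τ ^ 2 * (1 - κ ^ 2) := by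
        rw [← hD4]
        exact mul_le_mul_of_nonneg_left e2 (by positivity)
      have e4 : 1 * (1 / (n:ℝ) ^ 2) ≤ τ ^ 2 * (1 / (n:ℝ) ^ 2) :=
        mul_le_mul_of_nonneg_right hτ2 (by positivity)
      linarith
    · have e1 : 1 ≤ τ * R := by
        refine le_of_sq_le_sq ?_ (by positivity)
        rw [mul_pow, hRs, one_pow]
        have e2 : 1 < (1 - κ) * τ ^ 2 := by
          have : (D * τ) ^ 2 = 2 * ((1 - κ) * τ ^ 2) := by rw [mul_pow, hD2]; ring
          rw [hκ', this] at h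
          linarith
        have e3 : τ ^ 2 * (1 - κ ^ 2) = (1 - κ) * τ ^ 2 * (1 + κ) := by ring
        have e4 : 0 ≤ τ ^ 2 * (1 / (n:ℝ) ^ 2) := by positivity
        have e5 : (1 - κ) * τ ^ 2 * 1 ≤ (1 - κ) * τ ^ 2 * (1 + κ) :=
          mul_le_mul_of_nonneg_left (by linarith) (by linarith)
        rw [mul_add, e3]
        linarith
      have e2 : 1 ≤ (τ * R) ^ n := one_le_pow₀ e1
      calc (sph n {y | κ' ≤ inner ℝ c (y : EE n)}).toReal ≤ (sph n univ).toReal :=
            ENNReal.toReal_mono (measure_ne_top _ _) (measure_mono (subset_univ _))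
        _ = 1 * (sph n univ).toReal := (one_mul _).symm
        _ ≤ 2 * (τ * R) ^ n * (sph n univ).toReal :=
            mul_le_mul_of_nonneg_right (by linarith) hσ0
  refine hmono.trans (hmain.trans (mul_le_mul_of_nonneg_right ?_ hσ0))
  rw [mul_pow]
  calc 2 * (τ ^ n * R ^ n) = 2 * R ^ n * τ ^ n := by ring
    _ ≤ _ := mul_le_mul_of_nonneg_left hτe (by positivity)

/-- integral of a kernel over the sphere -/
theorem kf_sph (hn : 0 < n) {κ D : ℝ} (hκ0 : 0 ≤ κ) (hκ1 : κ < 1) (hD : 0 < D)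
    (hD2 : D ^ 2 = 2 - 2 * κ) {c : EE n} (hc : ‖c‖ = 1) :
    ∫ y : sphere (0 : EE n) 1, Real.exp (-kf n D ((y : EE n) - c)) ∂(sph n) ≤
      4 * √(1 - κ ^ 2 + 1 / (n:ℝ) ^ 2) ^ n * (sph n univ).toReal := by
  set R := √(1 - κ ^ 2 + 1 / (n:ℝ) ^ 2) with hR
  have hR0 : 0 ≤ R := Real.sqrt_nonneg _
  have hcont : Continuous fun y : sphere (0 : EE n) 1 => kf n D ((y : EE n) - c) :=
    kf_cont.comp (continuous_subtype_val.sub continuous_const)
  have h1 := layer (sph n) hcont.measurable 0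
  simp only [sub_zero, add_zero] at h1
  set σ := (sph n univ).toReal with hσ
  have hσ0 : 0 ≤ σ := ENNReal.toReal_nonneg
  set A := 2 * R ^ n * σ with hA
  have hA0 : 0 ≤ A := by positivity
  have h2 : ∀ B : ℝ, ENNReal.ofReal (Real.exp (-B)) *
      sph n {y : sphere (0 : EE n) 1 | kf n D ((y : EE n) - c) < B} ≤
      Set.indicator (Set.Ioi 0) (fun B => ENNReal.ofReal (A * Real.exp ((-1 / 2) * B))) B := by
    intro B
    by_cases hB : 0 < B
    · rw [Set.indicator_of_mem (show B ∈ Set.Ioi 0 from hB)]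
      have h3 := cap_big hn hκ0 hκ1 hD hD2 hc hB
      have h4 : sph n {y : sphere (0 : EE n) 1 | kf n D ((y : EE n) - c) < B} ≤
          ENNReal.ofReal (2 * R ^ n * Real.exp (B / 2) * σ) := by
        rw [← ENNReal.ofReal_toReal (measure_ne_top (sph n)
          {y : sphere (0 : EE n) 1 | kf n D ((y : EE n) - c) < B})]
        exact ENNReal.ofReal_le_ofReal h3
      refine (mul_le_mul_right h4 _).trans (le_of_eq ?_)
      rw [← ENNReal.ofReal_mul (Real.exp_pos _).le]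
      congr 1
      calc Real.exp (-B) * (2 * R ^ n * Real.exp (B / 2) * σ)
          = A * (Real.exp (-B) * Real.exp (B / 2)) := by rw [hA]; ring
        _ = _ := by rw [← Real.exp_add]; congr 2; ring
    · rw [Set.indicator_of_notMem (show B ∉ Set.Ioi 0 from hB)]
      have h3 : {y : sphere (0 : EE n) 1 | kf n D ((y : EE n) - c) < B} = ∅ := by
        ext x
        simp only [Set.mem_empty_iff_false, iff_false]
        intro hx
        have hx' : kf n D ((x : EE n) - c) < B := hx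
        exact hB ((kf_nonneg hD _).trans_lt hx')
      rw [h3, measure_empty, mul_zero]
  have h3 : IntegrableOn (fun B : ℝ => A * Real.exp ((-1 / 2) * B)) (Set.Ioi 0) :=
    (integrableOn_exp_mul_Ioi (by norm_num) 0).const_mul _
  have h4 : ∫⁻ y : sphere (0 : EE n) 1, ENNReal.ofReal (Real.exp (-kf n D ((y : EE n) - c)))
      ∂(sph n) ≤ ENNReal.ofReal (4 * R ^ n * σ) := by
    rw [← h1]
    refine (lintegral_mono h2).trans ?_
    rw [lintegral_indicator measurableSet_Ioi]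
    rw [← ofReal_integral_eq_lintegral_ofReal h3
      (ae_of_all _ fun _ => mul_nonneg hA0 (Real.exp_pos _).le)]
    refine ENNReal.ofReal_le_ofReal (le_of_eq ?_)
    rw [integral_const_mul, integral_exp_mul_Ioi (by norm_num), hA]
    simp
    ring
  have hint : Integrable (fun y : sphere (0 : EE n) 1 =>
      Real.exp (-kf n D ((y : EE n) - c))) (sph n) :=
    (Real.continuous_exp.comp hcont.neg).integrable_of_hasCompactSupport
      (HasCompactSupport.of_compactSpace _)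
  rw [← ofReal_integral_eq_lintegral_ofReal hint
    (ae_of_all _ fun _ => (Real.exp_pos _).le)] at h4
  exact (ENNReal.ofReal_le_ofReal_iff (by positivity)).1 h4

theorem mix_sph (hn : 0 < n) {κ D : ℝ} (hκ0 : 0 ≤ κ) (hκ1 : κ < 1) (hD : 0 < D)
    (hD2 : D ^ 2 = 2 - 2 * κ) {C : Finset (EE n)} (hu : ∀ c ∈ C, ‖c‖ = 1) {p : EE n → ℝ}
    (hp : ∀ c ∈ C, 0 < p c) :
    ∫ y : sphere (0 : EE n) 1, mix D C p y ∂(sph n) ≤
      (∑ c ∈ C, p c) * (4 * √(1 - κ ^ 2 + 1 / (n:ℝ) ^ 2) ^ n * (sph n univ).toReal) := by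
  unfold mix
  have hint : ∀ c ∈ C, Integrable (fun y : sphere (0 : EE n) 1 =>
      p c * Real.exp (-kf n D ((y : EE n) - c))) (sph n) := by
    intro c _
    have hcont : Continuous fun y : sphere (0 : EE n) 1 => kf n D ((y : EE n) - c) :=
      kf_cont.comp (continuous_subtype_val.sub continuous_const)
    exact (continuous_const.mul (Real.continuous_exp.comp hcont.neg)).integrable_of_hasCompactSupport
      (HasCompactSupport.of_compactSpace _)
  rw [integral_finsetSum _ hint, Finset.sum_mul]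
  refine Finset.sum_le_sum fun c hc => ?_
  rw [integral_const_mul]
  exact mul_le_mul_of_nonneg_left (kf_sph hn hκ0 hκ1 hD hD2 (hu c hc)) (hp c hc).le

theorem small_unit {c : EE n} (hc : ‖c‖ = 1) {κ : ℝ} (hκ : κ ^ 2 ≤ 1)
    (v : sphere (0 : Kc c) 1) : ‖κ • c + √(1 - κ ^ 2) • ((v : Kc c) : EE n)‖ = 1 := by
  have h1 := norm_comb hc κ (√(1 - κ ^ 2) • (v : Kc c))
  have hv : ‖(v : Kc c)‖ = 1 := norm_eq_of_mem_sphere v
  rw [norm_smul, hv, mul_one, Real.norm_eq_abs, sq_abs, Real.sq_sqrt (by linarith)] at h1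
  have h2 : ‖κ • c + √(1 - κ ^ 2) • ((v : Kc c) : EE n)‖ ^ 2 = 1 := by
    have : ((√(1 - κ ^ 2) • (v : Kc c) : Kc c) : EE n) = √(1 - κ ^ 2) • ((v : Kc c) : EE n) := rfl
    rw [← this, h1]; ring
  exact (pow_eq_one_iff_of_nonneg (norm_nonneg _) two_ne_zero).1 h2

theorem small_dist {c : EE n} (hc : ‖c‖ = 1) {κ D : ℝ} (hκ : κ ^ 2 ≤ 1) (hD : 0 < D)
    (hD2 : D ^ 2 = 2 - 2 * κ) (v : sphere (0 : Kc c) 1) :
    ‖(κ • c + √(1 - κ ^ 2) • ((v : Kc c) : EE n)) - c‖ ≤ D := by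
  refine le_of_sq_le_sq ?_ hD.le
  rw [dist_inner hc (small_unit hc hκ v), hD2, inner_add_right, real_inner_smul_right,
    real_inner_smul_right, inner_Kc, real_inner_self_eq_norm_sq, hc]
  linarith

theorem near_cm {D : ℝ} (hD : 0 < D) {C : Finset (EE n)}
    {p : EE n → ℝ} (hp : ∀ c ∈ C, 0 < p c) {c : EE n}
    (hc : c ∈ C) (hc1 : ‖c‖ = 1) {κ : ℝ} (hκ : κ ^ 2 ≤ 1) (hD2 : D ^ 2 = 2 - 2 * κ) :
    cm κ (fun y => Real.log (near D C p y)) c ≤ cm κ (fun y => Real.log (mix D C p y)) c := by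
  have hC : C.Nonempty := ⟨c, hc⟩
  have hlow : ∀ u : sphere (0 : Kc c) 1,
      p c ≤ near D C p (κ • c + √(1 - κ ^ 2) • ((u : Kc c) : EE n)) := fun u =>
    near_ge hp hc (small_dist hc1 hκ hD hD2 u)
  have hup : ∀ y, near D C p y ≤ ∑ c ∈ C, p c := by
    intro y
    unfold near
    refine Finset.sum_le_sum fun i hi => ?_
    split_ifs
    · exact le_refl _
    · exact (hp i hi).le
  unfold cm sm
  rw [average_eq, average_eq, smul_eq_mul, smul_eq_mul]
  refine mul_le_mul_of_nonneg_left ?_ (inv_nonneg.mpr measureReal_nonneg)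
  have hcont : Continuous (fun u : sphere (0 : Kc c) 1 =>
      κ • c + √(1 - κ ^ 2) • ((u : Kc c) : EE n)) := by fun_prop
  refine integral_mono ?_ ?_ fun u => ?_
  · refine Integrable.of_bound ((Real.measurable_log.comp (near_meas.comp
      hcont.measurable)).aestronglyMeasurable)
      (max |Real.log (p c)| |Real.log (∑ c ∈ C, p c)|) (ae_of_all _ fun u => ?_)
    have h1 := Real.log_le_log (hp c hc) (hlow u)
    have h2 := Real.log_le_log ((hp c hc).trans_le (hlow u)) (hup _)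
    show |Real.log (near D C p (κ • c + √(1 - κ ^ 2) • ((u : Kc c) : EE n)))| ≤ _
    exact abs_le_max_abs_abs h1 h2
  · have h1 : Continuous (mix D C p) := by
      unfold mix
      refine continuous_finsetSum _ fun c _ => continuous_const.mul ?_
      exact Real.continuous_exp.comp ((kf_cont.comp (continuous_id.sub continuous_const)).neg)
    have h2 : Continuous (fun u : sphere (0 : Kc c) 1 =>
        Real.log (mix D C p (κ • c + √(1 - κ ^ 2) • ((u : Kc c) : EE n)))) :=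
      (h1.comp hcont).log fun u => (mix_pos hC hp _).ne'
    exact h2.integrable_of_hasCompactSupport (HasCompactSupport.of_compactSpace _)
  · exact Real.log_le_log ((hp c hc).trans_le (hlow u)) (near_le hp _)

theorem cm_neg (κ : ℝ) (F : EE n → ℝ) (c : EE n) : cm κ (fun y => -F y) c = -cm κ F c := by
  unfold cm sm
  rw [average_eq, average_eq, integral_neg, smul_neg]

theorem slist {r : ℝ} (h0 : 0 < r) (h1 : r < 1) {κ : ℝ} (hκ0 : 0 ≤ κ) (hκ1 : κ < 1)
    (hE : κ * ∑' k, a r k = ∑' k, a r k * ph (cc r (2 * k + 1))) {ε : ℝ}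
    (hε : 0 < ε) : ∃ n0 : ℕ, ∀ n ≥ n0, ∀ (C : Finset (EE n)) (p : EE n → ℝ),
    (∀ c ∈ C, ‖c‖ = 1) → (∀ c ∈ C, ∀ c' ∈ C, c ≠ c' → √(2 - 2 * κ) ≤ dist c c') →
    (∀ c ∈ C, 0 < p c) →
    ∑ c ∈ C, Real.exp (cm κ (fun y => Real.log (near (√(2 - 2 * κ)) C p y)) c) ≤
      (Real.exp (Φ r + ε) * √(1 - κ ^ 2)) ^ n * ∑ c ∈ C, p c := by
  set D := √(2 - 2 * κ) with hDdef
  have hD : 0 < D := Real.sqrt_pos.2 (by linarith)
  have hD2 : D ^ 2 = 2 - 2 * κ := Real.sq_sqrt (by linarith)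
  have hκ2 : κ ^ 2 < 1 := pow_lt_one₀ hκ0 hκ1 (by norm_num)
  set s := √(1 - κ ^ 2) with hs
  have hs0 : 0 < s := Real.sqrt_pos.2 (by linarith)
  obtain ⟨n0, H⟩ := sfun h0 h1 hκ0 hκ1 hE (K := 2 / D) (by positivity)
    (show 0 < ε / 4 by positivity)
  have hev1 : ∀ᶠ n : ℕ in atTop, (4 : ℝ) ≤ Real.exp (n * (ε / 4)) := by
    have h1 : Tendsto (fun n : ℕ => Real.exp (n * (ε / 4))) atTop atTop :=
      Real.tendsto_exp_atTop.comp
        (tendsto_natCast_atTop_atTop.atTop_mul_const (by positivity))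
    exact h1.eventually_ge_atTop _
  have hev2 : ∀ᶠ n : ℕ in atTop, √(1 - κ ^ 2 + 1 / (n:ℝ) ^ 2) < s * Real.exp (ε / 4) := by
    have h1 : Tendsto (fun n : ℕ => √(1 - κ ^ 2 + 1 / (n:ℝ) ^ 2)) atTop (nhds √(1 - κ ^ 2 + 0)) := by
      refine (Real.continuous_sqrt.tendsto _).comp (tendsto_const_nhds.add ?_)
      refine Tendsto.const_div_atTop ?_ 1
      exact (tendsto_pow_atTop (by norm_num)).comp tendsto_natCast_atTop_atTop
    rw [add_zero] at h1
    refine h1.eventually_lt_const ?_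
    have : 1 < Real.exp (ε / 4) := Real.one_lt_exp_iff.2 (by positivity)
    exact lt_mul_of_one_lt_right hs0 this
  obtain ⟨n1, hn1⟩ := eventually_atTop.mp (hev1.and hev2)
  refine ⟨max (max n0 n1) 1, fun n hn C p hu hd hp => ?_⟩
  have hn0 : n0 ≤ n := le_trans (le_trans (le_max_left _ _) (le_max_left _ _)) hn
  have hn1' : n1 ≤ n := le_trans (le_trans (le_max_right _ _) (le_max_left _ _)) hn
  have hnp : 0 < n := le_trans (le_max_right _ _) hn
  have hnpos : (0 : ℝ) < n := by exact_mod_cast hnp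
  obtain ⟨v1, v2⟩ := hn1 n hn1'
  rcases C.eq_empty_or_nonempty with hC | hC
  · rw [hC]; simp
  have h1 := H n hn0 C (fun y => -Real.log (mix D C p y)) hu hd (by
    intro x y
    have := mix_lip hD hC hp x y
    rw [show -Real.log (mix D C p x) - -Real.log (mix D C p y) =
      -(Real.log (mix D C p x) - Real.log (mix D C p y)) by ring, abs_neg]
    refine this.trans (le_of_eq ?_)
    ring)
  have h2 : ∀ y, Real.exp (Real.log (mix D C p y)) = mix D C p y := fun y =>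
    Real.exp_log (mix_pos hC hp y)
  simp only [cm_neg, neg_neg, h2] at h1
  have hσ : 0 < (sph n univ).toReal := sph_univ_pos hnp
  have hps : 0 ≤ ∑ c ∈ C, p c := Finset.sum_nonneg fun c hc => (hp c hc).le
  have h3 := h1.trans (mul_le_mul_of_nonneg_left (mix_sph hnp hκ0 hκ1 hD hD2 hu hp)
    (Real.exp_pos _).le)
  have h4 : ∑ c ∈ C, Real.exp (cm κ (fun y => Real.log (mix D C p y)) c) ≤
      Real.exp (n * (Φ r + ε / 4)) * ((∑ c ∈ C, p c) *
        (4 * √(1 - κ ^ 2 + 1 / (n:ℝ) ^ 2) ^ n)) := by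
    refine le_of_mul_le_mul_right (h3.trans (le_of_eq ?_)) hσ
    ring
  have h5 : ∑ c ∈ C, Real.exp (cm κ (fun y => Real.log (near D C p y)) c) ≤
      ∑ c ∈ C, Real.exp (cm κ (fun y => Real.log (mix D C p y)) c) :=
    Finset.sum_le_sum fun c hc => Real.exp_le_exp.mpr (near_cm hD hp hc (hu c hc) hκ2.le hD2)
  refine h5.trans (h4.trans ?_)
  have h6 : 4 * √(1 - κ ^ 2 + 1 / (n:ℝ) ^ 2) ^ n ≤
      Real.exp (n * (ε / 4)) * (s * Real.exp (ε / 4)) ^ n :=
    mul_le_mul v1 (pow_le_pow_left₀ (Real.sqrt_nonneg _) v2.le n) (by positivity)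
      (Real.exp_pos _).le
  calc Real.exp (n * (Φ r + ε / 4)) * ((∑ c ∈ C, p c) * (4 * √(1 - κ ^ 2 + 1 / (n:ℝ) ^ 2) ^ n))
      ≤ Real.exp (n * (Φ r + ε / 4)) * ((∑ c ∈ C, p c) *
          (Real.exp (n * (ε / 4)) * (s * Real.exp (ε / 4)) ^ n)) := by gcongr
    _ = Real.exp (n * (Φ r + 3 * (ε / 4))) * s ^ n * ∑ c ∈ C, p c := by
        rw [mul_pow, ← Real.exp_nat_mul]
        have : Real.exp (n * (Φ r + 3 * (ε / 4))) = Real.exp (n * (Φ r + ε / 4)) *
          Real.exp (n * (ε / 4)) * Real.exp (n * (ε / 4)) := by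
          rw [← Real.exp_add, ← Real.exp_add]; congr 1; ring
        rw [this]; ring
    _ ≤ (Real.exp (Φ r + ε) * s) ^ n * ∑ c ∈ C, p c := by
        rw [mul_pow, ← Real.exp_nat_mul]
        gcongr
        linarith

end Pool.Agent.H712.NS
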