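import Pool.Agent.H712.NS.Pair
import Pool.Graph.R_seed8.H703R2.LP.Code

/-! The noise inequality for level sets on the sphere, one dimension at a time. -/

set_option autoImplicit false
set_option linter.unusedSectionVars false

open MeasureTheory Set Metric
open scoped ENNReal

namespace Pool.Agent.H712.NS

open Pool.Agent.H703R2.LP Pool.Agent.H390R2.LP Pool.Agent.H712.NP Pool.Agent.H712.NI

variable {n : ℕ}

theorem sum_union_le {ι : Type*} [DecidableEq ι] {f : ι → ℝ} (hf : ∀ i, 0 ≤ f i)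
    (A B : Finset ι) : ∑ i ∈ A ∪ B, f i ≤ ∑ i ∈ A, f i + ∑ i ∈ B, f i := by
  rw [← Finset.sum_union_inter]
  have := Finset.sum_nonneg fun i (_ : i ∈ A ∩ B) => hf i
  linarith

theorem sum_ind {ι : Type*} [Fintype ι] (S : Finset ι) {f g : ι → ℝ}
    (h1 : ∀ i ∈ S, f i = g i) (h2 : ∀ i, i ∉ S → g i = 0) : ∑ i ∈ S, f i = ∑ i, g i := by
  rw [Finset.sum_congr rfl h1]
  exact Finset.sum_subset (Finset.subset_univ S) fun i _ hi => h2 i hi

/-- the variance of a function of a pair -/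
noncomputable def pvar {Ω : Type} [Fintype Ω] [DecidableEq Ω] {q : ℕ} (s : Site Ω (Fin q))
    (Z : Fin q × Fin q → ℝ) : ℝ :=
  ∑ y, m1 s y.2 y.1 * (Z y - ∑ y', m1 s y'.2 y'.1 * Z y') ^ 2

theorem mean_fst {Ω : Type} [Fintype Ω] [DecidableEq Ω] {q : ℕ} (s : Site Ω (Fin q))
    (Z : Fin q → ℝ) : ∑ y : Fin q × Fin q, m1 s y.2 y.1 * Z y.1 = ∑ x, s.P x * Z x := by
  rw [Fintype.sum_prod_type]
  refine Finset.sum_congr rfl fun x _ => ?_
  show ∑ y, m1 s y x * Z x = _
  rw [← Finset.sum_mul]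
  congr 1
  rw [← m1_sum s x]
  exact Finset.sum_congr rfl fun y _ => m1_symm s _ _

theorem mean_snd {Ω : Type} [Fintype Ω] [DecidableEq Ω] {q : ℕ} (s : Site Ω (Fin q))
    (Z : Fin q → ℝ) : ∑ y : Fin q × Fin q, m1 s y.2 y.1 * Z y.2 = ∑ x, s.P x * Z x := by
  rw [Fintype.sum_prod_type, Finset.sum_comm]
  refine Finset.sum_congr rfl fun x _ => ?_
  show ∑ y, m1 s x y * Z x = _
  rw [← Finset.sum_mul]
  congr 1
  exact m1_sum s x

theorem mean_len {Ω : Type} [Fintype Ω] [DecidableEq Ω] {q : ℕ} (s : Site Ω (Fin q)) (hg : ℝ) :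
    ∑ y : Fin q × Fin q, m1 s y.2 y.1 * (hg * (y.1 : ℝ) - hg * (y.2 : ℝ)) ^ 2 =
      s.E (fun (_ : Unit) (x : Fin q) => hg * (x : ℝ)) := by
  rw [m1_energy s (fun x : Fin q => hg * (x : ℝ)), Fintype.sum_prod_type]
  refine Finset.sum_congr rfl fun x _ => Finset.sum_congr rfl fun y _ => ?_
  rw [m1_symm]

/-- good pairs of words -/
def Good {q : ℕ} (n : ℕ) (a0 hg δ M2 E0 : ℝ) (w : Fin n → Fin q × Fin q) : Prop :=
  |∑ k, (a0 + hg * ((w k).1 : ℝ)) ^ 2 - n * M2| < n * δ ∧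
  |∑ k, (a0 + hg * ((w k).2 : ℝ)) ^ 2 - n * M2| < n * δ ∧
  |∑ k, (hg * ((w k).1 : ℝ) - hg * ((w k).2 : ℝ)) ^ 2 - n * E0| < n * δ

open Classical in
theorem bad_mass {Ω : Type} [Fintype Ω] [DecidableEq Ω] {q : ℕ} (s : Site Ω (Fin q))
    (hn : 0 < n) {a0 hg δ M2 E0 : ℝ} (hδ : 0 < δ)
    (hM : M2 = ∑ x, s.P x * (a0 + hg * (x : ℝ)) ^ 2)
    (hE : E0 = s.E (fun (_ : Unit) (x : Fin q) => hg * (x : ℝ))) :
    ∑ w ∈ Finset.univ.filter (fun w : Fin n → Fin q × Fin q => ¬ Good n a0 hg δ M2 E0 w),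
      wt s w ≤ (pvar s (fun y => (a0 + hg * (y.1 : ℝ)) ^ 2) +
        pvar s (fun y => (a0 + hg * (y.2 : ℝ)) ^ 2) +
        pvar s (fun y => (hg * (y.1 : ℝ) - hg * (y.2 : ℝ)) ^ 2)) / (n * δ ^ 2) := by
  have key : ∀ (Z : Fin q × Fin q → ℝ) (M : ℝ), (∑ y, m1 s y.2 y.1 * Z y) = M →
      ∑ w ∈ Finset.univ.filter (fun w : Fin n → Fin q × Fin q =>
        n * δ ≤ |∑ k, Z (w k) - n * M|), wt s w ≤ pvar s Z / (n * δ ^ 2) := by
    intro Z M hZ
    exact cheb hn (fun p : Fin q × Fin q => m1 s p.2 p.1) (fun p => m1_nonneg s _ _)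
      (one_total s) Z hδ _ (by
        intro w hw
        rw [hZ]
        exact (Finset.mem_filter.1 hw).2)
  have k1 := key (fun y => (a0 + hg * (y.1 : ℝ)) ^ 2) M2 (by
    rw [hM]; exact mean_fst s (fun x => (a0 + hg * (x : ℝ)) ^ 2))
  have k2 := key (fun y => (a0 + hg * (y.2 : ℝ)) ^ 2) M2 (by
    rw [hM]; exact mean_snd s (fun x => (a0 + hg * (x : ℝ)) ^ 2))
  have k3 := key (fun y => (hg * (y.1 : ℝ) - hg * (y.2 : ℝ)) ^ 2) E0 (by
    rw [hE]; exact mean_len s hg)
  have hsub : Finset.univ.filter (fun w : Fin n → Fin q × Fin q => ¬ Good n a0 hg δ M2 E0 w) ⊆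
      (Finset.univ.filter (fun w : Fin n → Fin q × Fin q =>
        n * δ ≤ |∑ k, (fun y : Fin q × Fin q => (a0 + hg * (y.1 : ℝ)) ^ 2) (w k) - n * M2|) ∪
      Finset.univ.filter (fun w : Fin n → Fin q × Fin q =>
        n * δ ≤ |∑ k, (fun y : Fin q × Fin q => (a0 + hg * (y.2 : ℝ)) ^ 2) (w k) - n * M2|)) ∪
      Finset.univ.filter (fun w : Fin n → Fin q × Fin q =>
        n * δ ≤ |∑ k, (fun y : Fin q × Fin q => (hg * (y.1 : ℝ) - hg * (y.2 : ℝ)) ^ 2) (w k) -
          n * E0|) := by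
    intro w hw
    have h1 := (Finset.mem_filter.1 hw).2
    simp only [Finset.mem_union, Finset.mem_filter, Finset.mem_univ, true_and]
    by_contra hcon
    push Not at hcon
    exact h1 ⟨hcon.1.1, hcon.1.2, hcon.2⟩
  have hnn : ∀ w : Fin n → Fin q × Fin q, 0 ≤ wt s w := fun w => wt_nonneg s w
  calc _ ≤ _ := Finset.sum_le_sum_of_subset_of_nonneg hsub fun w _ _ => hnn w
    _ ≤ _ := (sum_union_le hnn _ _)
    _ ≤ _ := add_le_add (sum_union_le hnn _ _) (le_refl _)
    _ ≤ _ := add_le_add (add_le_add k1 k2) k3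
    _ = _ := by rw [← add_div, ← add_div]

open Classical in
/-- **The level inequality in one dimension.** -/
theorem one_dim {Ω : Type} [Fintype Ω] [DecidableEq Ω] {q m : ℕ} (s : Site Ω (Fin q))
    (hnm : n = m + 3) {a0 hg α β sd δ D d d' M2 E0 κ η ε' : ℝ} (hhg : 0 < hg)
    (hα : 0 ≤ α) (hβ : 0 < β) (hδ : 0 < δ) (hd : d ≤ 1 / 4) (h1 : 1 / 2 - d ≤ α ^ 2)
    (h2 : β ^ 2 ≤ 1 / 2 + d) (h3 : 1 / 2 - d ≤ M2 - δ) (h4 : M2 + δ ≤ 1 / 2 + d)
    (h5 : |2 * M2 - E0 - κ| / 2 + 3 * δ / 2 + hg ≤ d') (hκ : |κ| ≤ 1)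
    (hβ0 : hg ≤ β) (hs1 : (α + hg) ^ 2 ≤ M2 - δ) (hs2 : M2 + δ ≤ (β - hg) ^ 2)
    (hM : M2 = ∑ x, s.P x * (a0 + hg * (x : ℝ)) ^ 2)
    (hE : E0 = s.E (fun (_ : Unit) (x : Fin q) => hg * (x : ℝ)))
    (hsd : 0 ≤ sd) (hpos : hg < α * sd) (hD : D = (α * sd - hg) ^ 2)
    {V1 ε1 : ℝ} (hV1 : (pvar s (fun y => (a0 + hg * (y.1 : ℝ)) ^ 2) +
        pvar s (fun y => (a0 + hg * (y.2 : ℝ)) ^ 2) +
        pvar s (fun y => (hg * (y.1 : ℝ) - hg * (y.2 : ℝ)) ^ 2)) / (n * δ ^ 2) ≤ V1)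
    (hε1 : 0 ≤ ε1) (hη : V1 + ε1 ≤ η)
    (H : ∀ (V : Type) [Fintype V]
      (S T : V → Finset (Fin n → Fin q)) (w : V → ℝ), (∀ v, 0 ≤ w v) →
      (∀ x, ∑ v, (if x ∈ S v then w v else 0) ≤ 1) →
      (∀ v, ∀ x ∈ S v, ∀ y ∈ S v, x ≠ y →
        D * n ≤ ∑ k, (hg * (x k : ℝ) - hg * (y k : ℝ)) ^ 2) →
      1 - η ≤ ∑ v, w v * ∑ x ∈ S v, ∏ k, s.P (x k) →
      ∑ v, w v * ∑ x ∈ S v, ∑ y ∈ (T v)ᶜ, ∏ k, m1 s (y k) (x k) ≤ η →
      η * Real.exp (n * (s.h - s.S - ε')) ≤ ∑ v, w v * ∑ y ∈ T v, ∏ k, s.P (y k))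
    (C : Finset (EE n)) (hC : C.Nonempty) (hu : ∀ c ∈ C, ‖c‖ = 1)
    (hdist : ∀ c ∈ C, ∀ c' ∈ C, c ≠ c' → sd ≤ dist c c') {F : EE n → ℝ} {Λ : ℝ} (hΛ : 0 ≤ Λ)
    (hF : ∀ x y, |F x - F y| ≤ Λ * ‖x - y‖) {B τ β' : ℝ} (hτ : 0 < τ)
    (hB : ∀ c ∈ C, cm κ F c ≤ B) (hε : Real.pi * (Λ / √(m + 1)) / τ ≤ ε1)
    (hβ' : B + τ + Λ * (4 * (d + d') + √(2 * (4 * (d + d')))) < β') :
    η * Real.exp (n * (s.h - s.S - ε')) ≤
      (volume (shell n (α * √n) (β * √n))).toReal / (C.card * hg ^ n) *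
        ((sph n {z | F z ≤ β'}).toReal / (sph n univ).toReal) := by
  have hn : 0 < n := by omega
  have hn' : (0:ℝ) < n := by exact_mod_cast hn
  have hsn : 0 < √(n:ℝ) := Real.sqrt_pos.2 hn'
  have hsq : √(n:ℝ) ^ 2 = n := Real.sq_sqrt hn'.le
  have hFc : Continuous F := by
    have : LipschitzWith ⟨Λ, hΛ⟩ F := LipschitzWith.of_dist_le_mul fun x y => by
      rw [Real.dist_eq, dist_eq_norm]; exact hF x y
    exact this.continuous
  have hNe : Nonempty (Fin n) := ⟨⟨0, hn⟩⟩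
  have hNt : Nontrivial (EE n) := inferInstance
  obtain ⟨e, he⟩ := exists_norm_eq (EE n) (c := 1) zero_le_one
  set ξ := 4 * (d + d') with hξ
  have hκ2 : κ ^ 2 ≤ 1 := by rw [← sq_abs]; exact (sq_le_one_iff₀ (abs_nonneg κ)).2 hκ
  have hb : 0 < β * √n := by positivity
  have hgs : hg * √n < (α * √n) * sd := by nlinarith
  set u : (Fin n → Fin q) → EE n := fun y => uv e (gp a0 hg y) with hudef
  have hu1 : ∀ y, ‖u y‖ = 1 := fun y => uv_norm he _
  set Bs : Set (EE n) := {y | F y ≤ β'} with hBs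
  have hBm : MeasurableSet Bs := (isClosed_le hFc continuous_const).measurableSet
  obtain ⟨w, hw0, hw1, hwd, hwT, hwj⟩ := joint (q := q) hn C hC hu (a := α * √n)
    (b := β * √n) (a0 := a0) hsd hdist hb hhg hgs u hu1 hBm
  have hgn : 0 < hg ^ n := pow_pos hhg n
  have hcellfin : ∀ x : Fin n → Fin q, (volume (cell a0 hg x)).toReal = hg ^ n := by
    intro x
    rw [volume_cell hhg, ENNReal.toReal_ofReal hgn.le]
  have hcellne : ∀ x : Fin n → Fin q, volume (cell a0 hg x) ≠ ∞ := by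
    intro x
    rw [volume_cell hhg]; exact ENNReal.ofReal_ne_top
  have hcle : ∀ x : Fin n → Fin q, (volume (cell a0 hg x ∩ shell n (α * √n) (β * √n))).toReal /
      hg ^ n ≤ 1 := by
    intro x
    rw [div_le_one hgn, ← hcellfin x]
    exact ENNReal.toReal_mono (hcellne x) (measure_mono inter_subset_left)
  have hcgood : ∀ x : Fin n → Fin q, |∑ k, (a0 + hg * (x k : ℝ)) ^ 2 - n * M2| < n * δ →
      (volume (cell a0 hg x ∩ shell n (α * √n) (β * √n))).toReal / hg ^ n = 1 := by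
    intro x hx
    rw [inter_eq_left.2 (cell_subset_shell hn hhg hβ0 hs1 hs2 x hx), hcellfin,
      div_self hgn.ne']
  set S : Finset (Fin n → Fin q) × Finset (Fin n → Fin q) → Finset (Fin n → Fin q) :=
    fun v => if w v = 0 then ∅ else v.1 with hS
  have hmemS : ∀ v x, x ∈ S v ↔ x ∈ v.1 ∧ w v ≠ 0 := by
    intro v x
    simp only [hS]
    split_ifs with h
    · simp [h]
    · simp [h]
  have hcov : ∀ x, ∑ v, (if x ∈ S v then w v else 0) =
      (volume (cell a0 hg x ∩ shell n (α * √n) (β * √n))).toReal / hg ^ n := by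
    intro x
    rw [← hw1 x]
    refine Finset.sum_congr rfl fun v _ => ?_
    by_cases hv : w v = 0
    · simp [hv]
    · by_cases hx : x ∈ v.1
      · rw [if_pos ((hmemS v x).2 ⟨hx, hv⟩), if_pos hx]
      · rw [if_neg (fun h => hx ((hmemS v x).1 h).1), if_neg hx]
  have hPn : ∀ x : Fin n → Fin q, 0 ≤ ∏ k, s.P (x k) :=
    fun x => Finset.prod_nonneg fun k _ => site_P_nonneg s _
  have hbad := bad_mass s hn (a0 := a0) (hg := hg) hδ hM hE
  set Bad := Finset.univ.filter (fun w : Fin n → Fin q × Fin q => ¬ Good n a0 hg δ M2 E0 w)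
    with hBad
  have hbad' : ∑ p ∈ Bad, wt s p ≤ V1 := hbad.trans hV1
  have hPsum : ∀ x : Fin n → Fin q, ∏ k, s.P (x k) =
      ∑ y : Fin n → Fin q, ∏ k, m1 s (y k) (x k) := by
    intro x
    rw [← Fintype.prod_sum (fun k a => m1 s a (x k))]
    refine Finset.prod_congr rfl fun k _ => ?_
    rw [← m1_sum s (x k)]
    exact Finset.sum_congr rfl fun y _ => m1_symm s _ _
  have key := H (Finset (Fin n → Fin q) × Finset (Fin n → Fin q)) S (fun v => v.2) w hw0
    (fun x => by rw [hcov]; exact hcle x)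
    (by
      intro v x hx y hy hxy
      rw [hmemS] at hx hy
      refine le_trans (le_of_eq ?_) (hwd v hx.2 x hx.1 y hy.1 hxy)
      rw [hD]
      calc (α * sd - hg) ^ 2 * n = (α * sd - hg) ^ 2 * √(n:ℝ) ^ 2 := by rw [hsq]
        _ = _ := by ring)
    (by
      have e1 : ∑ v, w v * ∑ x ∈ S v, ∏ k, s.P (x k) =
          ∑ x : Fin n → Fin q, (∏ k, s.P (x k)) *
            ((volume (cell a0 hg x ∩ shell n (α * √n) (β * √n))).toReal / hg ^ n) := by
        calc _ = ∑ v, ∑ x, (if x ∈ S v then w v else 0) * ∏ k, s.P (x k) := by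
              refine Finset.sum_congr rfl fun v _ => ?_
              rw [Finset.mul_sum]
              exact sum_ind _ (fun x hx => by rw [if_pos hx])
                (fun x hx => by rw [if_neg hx, zero_mul])
          _ = ∑ x, ∑ v, (if x ∈ S v then w v else 0) * ∏ k, s.P (x k) := Finset.sum_comm
          _ = _ := by
              refine Finset.sum_congr rfl fun x _ => ?_
              rw [← Finset.sum_mul, hcov, mul_comm]
      rw [e1]
      have e2 : (1 : ℝ) = ∑ p : Fin n → Fin q × Fin q, wt s p := (wt_sum s).symm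
      have e3 : ∑ p ∈ Badᶜ, wt s p ≤ ∑ x : Fin n → Fin q, (∏ k, s.P (x k)) *
          ((volume (cell a0 hg x ∩ shell n (α * √n) (β * √n))).toReal / hg ^ n) := by
        have e4 : ∑ x : Fin n → Fin q, (∏ k, s.P (x k)) *
            ((volume (cell a0 hg x ∩ shell n (α * √n) (β * √n))).toReal / hg ^ n) =
            ∑ p : Fin n → Fin q × Fin q, wt s p *
              ((volume (cell a0 hg (fun k => (p k).1) ∩
                shell n (α * √n) (β * √n))).toReal / hg ^ n) := by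
          refine Eq.trans ?_ (sum_pairs (fun x y => (∏ k, m1 s (y k) (x k)) *
            ((volume (cell a0 hg x ∩ shell n (α * √n) (β * √n))).toReal / hg ^ n)))
          refine Finset.sum_congr rfl fun x _ => ?_
          rw [← Finset.sum_mul, ← hPsum]
        rw [e4]
        calc ∑ p ∈ Badᶜ, wt s p ≤ ∑ p ∈ Badᶜ, wt s p *
              ((volume (cell a0 hg (fun k => (p k).1) ∩
                shell n (α * √n) (β * √n))).toReal / hg ^ n) := by
              refine Finset.sum_le_sum fun p hp => ?_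
              have hgd : Good n a0 hg δ M2 E0 p := by
                rw [hBad, Finset.mem_compl, Finset.mem_filter] at hp
                push Not at hp
                exact hp (Finset.mem_univ _)
              rw [hcgood _ hgd.1, mul_one]
          _ ≤ _ := Finset.sum_le_sum_of_subset_of_nonneg (Finset.subset_univ _) fun p _ _ =>
              mul_nonneg (wt_nonneg s p) (by positivity)
      have e5 : ∑ p ∈ Bad, wt s p + ∑ p ∈ Badᶜ, wt s p = 1 := by
        rw [Finset.sum_add_sum_compl, wt_sum]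
      linarith)
    (by
      have e1 : ∑ v, w v * ∑ x ∈ S v, ∑ y ∈ (v.2)ᶜ, ∏ k, m1 s (y k) (x k) =
          ∑ p : Fin n → Fin q × Fin q, wt s p *
            ∑ v, (if (fun k => (p k).1) ∈ v.1 ∧ (fun k => (p k).2) ∉ v.2 then w v else 0) := by
        refine Eq.trans ?_ (sum_pairs (fun x y => (∏ k, m1 s (y k) (x k)) *
          ∑ v, (if x ∈ v.1 ∧ y ∉ v.2 then w v else 0)))
        calc _ = ∑ v, ∑ x, ∑ y, (∏ k, m1 s (y k) (x k)) *
              (if x ∈ v.1 ∧ y ∉ v.2 then w v else 0) := by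
              refine Finset.sum_congr rfl fun v _ => ?_
              by_cases hv : w v = 0
              · simp [hv]
              · have hSv : S v = v.1 := by simp only [hS]; rw [if_neg hv]
                rw [hSv, Finset.mul_sum]
                refine sum_ind _ (fun x hx => ?_) (fun x hx => Finset.sum_eq_zero fun y _ => by
                    rw [if_neg (fun h => hx h.1), mul_zero])
                rw [Finset.mul_sum]
                refine sum_ind _ (fun y hy => ?_) (fun y hy => by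
                    rw [if_neg (fun h => hy (Finset.mem_compl.2 h.2)), mul_zero])
                rw [if_pos ⟨hx, Finset.mem_compl.1 hy⟩, mul_comm]
          _ = ∑ x, ∑ v, ∑ y, (∏ k, m1 s (y k) (x k)) *
              (if x ∈ v.1 ∧ y ∉ v.2 then w v else 0) := Finset.sum_comm
          _ = _ := by
              refine Finset.sum_congr rfl fun x _ => ?_
              rw [Finset.sum_comm]
              refine Finset.sum_congr rfl fun y _ => ?_
              rw [Finset.mul_sum]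
      rw [e1]
      have hle1 : ∀ x y : Fin n → Fin q, ∑ v, (if x ∈ v.1 ∧ y ∉ v.2 then w v else 0) ≤ 1 := by
        intro x y
        refine le_trans ?_ ((hw1 x).le.trans (hcle x))
        refine Finset.sum_le_sum fun v _ => ?_
        by_cases h : x ∈ v.1
        · by_cases h' : y ∉ v.2
          · rw [if_pos ⟨h, h'⟩, if_pos h]
          · rw [if_neg (fun h2 => h' h2.2), if_pos h]; exact hw0 v
        · rw [if_neg (fun h2 => h h2.1), if_neg h]
      have hle2 : ∀ p : Fin n → Fin q × Fin q, Good n a0 hg δ M2 E0 p →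
          ∑ v, (if (fun k => (p k).1) ∈ v.1 ∧ (fun k => (p k).2) ∉ v.2 then w v else 0) ≤
            ε1 := by
        intro p hp
        refine (hwj (fun k => (p k).1) (fun k => (p k).2) ε1 hε1 ?_).trans ?_
        · intro c hc
          refine (cap_conc hnm (hu c hc) hκ2 hΛ hF hτ (ξ := ξ) (β' := β') ?_ hb
            (hu1 _) ((measurableSet_cell a0 hg _).inter (isOpen_shell _ _).measurableSet)
            ?_).trans ?_
          · have := hB c hc; linarith
          · rintro z ⟨hz1, hz2⟩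
            exact good_pair hn hhg hα hβ.le hd h1 h2 h3 h4 h5 hκ hp.1 hp.2.1 hp.2.2 hz1 hz2 e
          · exact mul_le_mul_left (ENNReal.ofReal_le_ofReal hε) _
        · calc _ ≤ ε1 * 1 := mul_le_mul_of_nonneg_left (hcle _) hε1
            _ = ε1 := mul_one _
      rw [← Finset.sum_add_sum_compl Bad]
      have e6 : ∑ p ∈ Bad, wt s p *
          ∑ v, (if (fun k => (p k).1) ∈ v.1 ∧ (fun k => (p k).2) ∉ v.2 then w v else 0) ≤
          V1 := by
        refine le_trans (Finset.sum_le_sum fun p _ => ?_) hbad'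
        calc _ ≤ wt s p * 1 := mul_le_mul_of_nonneg_left (hle1 _ _) (wt_nonneg s p)
          _ = _ := mul_one _
      have e7 : ∑ p ∈ Badᶜ, wt s p *
          ∑ v, (if (fun k => (p k).1) ∈ v.1 ∧ (fun k => (p k).2) ∉ v.2 then w v else 0) ≤
          ε1 := by
        calc _ ≤ ∑ p ∈ Badᶜ, wt s p * ε1 := by
              refine Finset.sum_le_sum fun p hp => ?_
              refine mul_le_mul_of_nonneg_left (hle2 p ?_) (wt_nonneg s p)
              rw [hBad, Finset.mem_compl, Finset.mem_filter] at hp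
              push Not at hp
              exact hp (Finset.mem_univ _)
          _ ≤ ∑ p, wt s p * ε1 :=
              Finset.sum_le_sum_of_subset_of_nonneg (Finset.subset_univ _) fun p _ _ =>
                mul_nonneg (wt_nonneg s p) hε1
          _ = ε1 := by rw [← Finset.sum_mul, wt_sum, one_mul]
      linarith)
  refine key.trans (le_of_eq ?_)
  have e1 : ∑ v, w v * ∑ y ∈ v.2, ∏ k, s.P (y k) =
      ∑ y : Fin n → Fin q, (∏ k, s.P (y k)) * ∑ v, (if y ∈ v.2 then w v else 0) := by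
    calc _ = ∑ v, ∑ y, (∏ k, s.P (y k)) * (if y ∈ v.2 then w v else 0) := by
          refine Finset.sum_congr rfl fun v _ => ?_
          rw [Finset.mul_sum]
          exact sum_ind _ (fun y hy => by rw [if_pos hy, mul_comm])
            (fun y hy => by rw [if_neg hy, mul_zero])
      _ = ∑ y, ∑ v, (∏ k, s.P (y k)) * (if y ∈ v.2 then w v else 0) := Finset.sum_comm
      _ = _ := by
          refine Finset.sum_congr rfl fun y _ => ?_
          rw [Finset.mul_sum]
  rw [e1]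
  simp only [hwT]
  rw [← Finset.sum_mul]
  have e2 : ∑ y : Fin n → Fin q, ∏ k, s.P (y k) = 1 := by
    rw [← Fintype.prod_sum (fun _ a => s.P a)]
    simp [site_P_sum]
  rw [e2, one_mul]
  rfl

end Pool.Agent.H712.NS
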