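import Pool.Agent.H712.NS.Joint
import Pool.Agent.H712.NP.RnB

/-! Good pairs of grid words. -/

set_option autoImplicit false
set_option linter.unusedSectionVars false

open MeasureTheory Set Metric
open scoped ENNReal

namespace Pool.Agent.H712.NS

open Pool.Agent.H703R2.LP Pool.Agent.H390R2.LP

variable {n : ℕ}

/-- grid point -/
noncomputable def gp {q : ℕ} (a0 hg : ℝ) (y : Fin n → Fin q) : EE n :=
  WithLp.toLp 2 fun k => a0 + hg * (y k : ℝ)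

theorem gp_norm {q : ℕ} (a0 hg : ℝ) (y : Fin n → Fin q) :
    ‖gp a0 hg y‖ ^ 2 = ∑ k, (a0 + hg * (y k : ℝ)) ^ 2 := by
  rw [EuclideanSpace.norm_sq_eq]
  simp [gp]

theorem gp_sub {q : ℕ} (a0 hg : ℝ) (x y : Fin n → Fin q) :
    ‖gp a0 hg x - gp a0 hg y‖ ^ 2 = ∑ k, (hg * (x k : ℝ) - hg * (y k : ℝ)) ^ 2 := by
  rw [EuclideanSpace.norm_sq_eq]
  simp [gp]

theorem gp_cell {q : ℕ} {a0 hg : ℝ} (hhg : 0 < hg) {x : Fin n → Fin q} {z : EE n}
    (hz : z ∈ cell a0 hg x) : ‖z - gp a0 hg x‖ ≤ hg * √n := by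
  apply norm_le_of_coord hhg.le
  intro k
  have e1 := hz k
  have e3 : (z - gp a0 hg x) k = z k - (a0 + hg * (x k : ℝ)) := by simp [gp]
  rw [e3, abs_le]
  constructor <;> nlinarith [e1.1, e1.2]

open Classical in
/-- direction of a vector -/
noncomputable def uv (e z : EE n) : EE n := if z = 0 then e else ‖z‖⁻¹ • z

theorem uv_norm {e : EE n} (he : ‖e‖ = 1) (z : EE n) : ‖uv e z‖ = 1 := by
  unfold uv
  split_ifs with h
  · exact he
  · rw [norm_smul, norm_inv, norm_norm, inv_mul_cancel₀ (norm_ne_zero_iff.2 h)]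

theorem good_pair (hn : 0 < n) {q : ℕ} {a0 hg α β δ d d' M2 E0 κ : ℝ} (hhg : 0 < hg)
    (hα : 0 ≤ α) (hβ : 0 ≤ β) (hd : d ≤ 1 / 4) (h1 : 1 / 2 - d ≤ α ^ 2) (h2 : β ^ 2 ≤ 1 / 2 + d)
    (h3 : 1 / 2 - d ≤ M2 - δ) (h4 : M2 + δ ≤ 1 / 2 + d)
    (h5 : |2 * M2 - E0 - κ| / 2 + 3 * δ / 2 + hg ≤ d') (hκ : |κ| ≤ 1) {x y : Fin n → Fin q}
    (hx : |∑ k, (a0 + hg * (x k : ℝ)) ^ 2 - n * M2| < n * δ)
    (hy : |∑ k, (a0 + hg * (y k : ℝ)) ^ 2 - n * M2| < n * δ)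
    (hxy : |∑ k, (hg * (x k : ℝ) - hg * (y k : ℝ)) ^ 2 - n * E0| < n * δ)
    {z : EE n} (hz : z ∈ cell a0 hg x) (hzs : z ∈ shell n (α * √n) (β * √n)) (e : EE n) :
    |inner ℝ (‖z‖⁻¹ • z) (uv e (gp a0 hg y)) - κ| ≤ 4 * (d + d') := by
  have hn' : (0:ℝ) < n := by exact_mod_cast hn
  have hsn : 0 < √(n:ℝ) := Real.sqrt_pos.2 hn'
  have hsq : √(n:ℝ) ^ 2 = n := Real.sq_sqrt hn'.le
  rw [← gp_norm, abs_lt] at hx hy
  rw [← gp_sub a0, abs_lt] at hxy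
  set X := gp a0 hg x with hX
  set Y := gp a0 hg y with hY
  have hzX := gp_cell hhg hz
  rw [← hX] at hzX
  obtain ⟨z1, z2⟩ := hzs
  -- norms
  have hYlow : n * (1 / 2 - d) ≤ ‖Y‖ ^ 2 := by nlinarith
  have hYup : ‖Y‖ ^ 2 ≤ n * (1 / 2 + d) := by nlinarith
  have hzlow : n * (1 / 2 - d) ≤ ‖z‖ ^ 2 := by
    have : (α * √n) ^ 2 ≤ ‖z‖ ^ 2 := pow_le_pow_left₀ (by positivity) z1.le 2
    rw [mul_pow, hsq] at this
    nlinarith
  have hzup : ‖z‖ ^ 2 ≤ n * (1 / 2 + d) := by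
    have : ‖z‖ ^ 2 ≤ (β * √n) ^ 2 := pow_le_pow_left₀ (norm_nonneg _) z2.le 2
    rw [mul_pow, hsq] at this
    nlinarith
  have hY0 : Y ≠ 0 := by
    intro h
    rw [h, norm_zero] at hYlow
    nlinarith
  set N := ‖z‖ * ‖Y‖ with hN
  have hN0 : 0 ≤ N := by positivity
  have hd0 : 0 ≤ 1 / 2 - d := by linarith
  have hNlow : n * (1 / 2 - d) ≤ N := by
    apply le_of_sq_le_sq _ hN0
    rw [hN, mul_pow (‖z‖), sq (↑n * (1 / 2 - d))]
    exact mul_le_mul hzlow hYlow (by positivity) (by positivity)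
  have hd00 : 0 ≤ 1 / 2 + d := by nlinarith [sq_nonneg β]
  have hNup : N ≤ n * (1 / 2 + d) := by
    apply le_of_sq_le_sq _ (by positivity)
    rw [hN, mul_pow (‖z‖), sq (↑n * (1 / 2 + d))]
    exact mul_le_mul hzup hYup (by positivity) (by positivity)
  have hNpos : n * (1 / 4) ≤ N := by nlinarith
  have hNp : 0 < N := lt_of_lt_of_le (by positivity) hNpos
  -- inner products
  have e1 : 2 * inner ℝ X Y = ‖X‖ ^ 2 + ‖Y‖ ^ 2 - ‖X - Y‖ ^ 2 := by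
    rw [@norm_sub_sq_real]; ring
  have e2 : inner ℝ z Y = inner ℝ X Y + inner ℝ (z - X) Y := by
    rw [inner_sub_left]; ring
  have hYn : ‖Y‖ ≤ √n := by
    apply le_of_sq_le_sq _ hsn.le
    rw [hsq]
    nlinarith
  have e3 : |inner ℝ (z - X) Y| ≤ n * hg := by
    refine (abs_real_inner_le_norm _ _).trans ?_
    calc ‖z - X‖ * ‖Y‖ ≤ (hg * √n) * √n := mul_le_mul hzX hYn (norm_nonneg _) (by positivity)
      _ = n * hg := by rw [mul_assoc, ← sq, hsq]; ring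
  have e4 := abs_le.1 e3
  have e5 : |inner ℝ z Y - n * (κ / 2)| ≤ n * d' := by
    have e6 := le_abs_self (2 * M2 - E0 - κ)
    have e7 := neg_abs_le (2 * M2 - E0 - κ)
    have e8 : n * (|2 * M2 - E0 - κ| / 2 + 3 * δ / 2 + hg) ≤ n * d' :=
      mul_le_mul_of_nonneg_left h5 hn'.le
    have e9 : n * (2 * M2 - E0 - κ) ≤ n * |2 * M2 - E0 - κ| := mul_le_mul_of_nonneg_left e6 hn'.le
    have e10 : -(n * |2 * M2 - E0 - κ|) ≤ n * (2 * M2 - E0 - κ) := by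
      have := mul_le_mul_of_nonneg_left e7 hn'.le
      linarith
    rw [abs_le]
    constructor <;> nlinarith [hx.1, hx.2, hy.1, hy.2, hxy.1, hxy.2]
  have e6 : inner ℝ (‖z‖⁻¹ • z) (uv e Y) = inner ℝ z Y / N := by
    unfold uv
    rw [if_neg hY0, real_inner_smul_left, real_inner_smul_right, hN]
    field_simp
  rw [e6]
  have e7 : inner ℝ z Y / N - κ = ((inner ℝ z Y - n * (κ / 2)) - κ * (N - n / 2)) / N := by
    field_simp
    ring
  rw [e7, abs_div, abs_of_pos hNp, div_le_iff₀ hNp]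
  have e8 : |κ * (N - n / 2)| ≤ n * d := by
    rw [abs_mul]
    have : |N - n / 2| ≤ n * d := by rw [abs_le]; constructor <;> nlinarith
    calc |κ| * |N - n / 2| ≤ 1 * (n * d) := mul_le_mul hκ this (abs_nonneg _) zero_le_one
      _ = n * d := one_mul _
  have e9 : 0 ≤ d + d' := by
    have h6 : 0 ≤ n * d := (abs_nonneg _).trans e8
    have h7 : 0 ≤ n * d' := (abs_nonneg _).trans e5
    have h8 : 0 ≤ n * (d + d') := by linarith
    exact nonneg_of_mul_nonneg_right h8 hn'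
  calc _ ≤ |inner ℝ z Y - n * (κ / 2)| + |κ * (N - n / 2)| := abs_sub _ _
    _ ≤ n * d' + n * d := add_le_add e5 e8
    _ = 4 * (d + d') * (n * (1 / 4)) := by ring
    _ ≤ 4 * (d + d') * N := mul_le_mul_of_nonneg_left hNpos (by positivity)

end Pool.Agent.H712.NS
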