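import Pool.Graph.R_seed8.W48.KS.Gauss

/-!
Discretisation of Gaussian states, with the value of the energy (adapted from the library modules
`W48.KS.AT2` and `W48.KS.Gauss`, where only an upper bound for the energy is stated).
-/

open MeasureTheory Finset Filter
open scoped Topology

namespace Pool.Agent.H712.NS

open Pool.Agent.H390R2.LP Pool.Agent.H785R2.LP Pool.Agent.W259.GP Pool.Agent.W48.KS

/-- discretisation, with the second moment of the position and the energy -/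
def S_AT2b : Prop := ∀ (ι J : Type) [DecidableEq ι] [Fintype J] [DecidableEq J] [Nonempty J]
    (b : ι → J → ℝ → ℝ) (lam : J → ℝ) (Λ : ι → ℝ) (X : J → J → ℝ) (Y : J → ℝ),
    (∀ j, 0 < lam j) → (∀ i, 0 < Λ i ∧ Λ i ≤ 1) →
    (∀ i j, Continuous (b i j)) → (∀ i j, ∃ C, ∀ x, |b i j x| ≤ C * Real.exp (-x ^ 2 / 4)) →
    (∀ x (F : Finset ι) (v : ι → ℝ), ∑ j, lam j * (∑ i ∈ F, v i * b i j x) ^ 2
      ≤ pp x * ∑ i ∈ F, Λ i * v i ^ 2) →
    (∀ j j', HasSum (fun i => ∫ x, b i j x * b i j' x) (if j = j' then 1 else 0)) →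
    (∀ j j', HasSum (fun i => ∫ x, x * (b i j x * b i j' x)) (X j j')) →
    (∀ j, HasSum (fun i => ∫ x, x ^ 2 * b i j x ^ 2) (Y j)) →
    ∀ (F₀ : Finset ι) (η : ℝ), 0 < η →
    ∃ (Ω : Type) (_ : Fintype Ω) (_ : DecidableEq Ω) (q : ℕ) (s : Site Ω (Fin q)) (a0 hg : ℝ),
      0 < hg ∧ hg < η ∧
      s.S - s.h - Real.log hg < -((1 / 2 * Real.log Real.pi * ∑ j, lam j + ∑ j, lam j * Y j
        - ∑ i ∈ F₀, (∑ j, lam j * ∫ x, b i j x ^ 2) * Real.log (Λ i)
        + ∑ j, lam j * Real.log (lam j)) / ∑ j, lam j) + η ∧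
      |∑ x, s.P x * (a0 + hg * (x : ℝ)) ^ 2 - (∑ j, lam j * Y j) / ∑ j, lam j| < η ∧
      |s.E (fun (_ : Unit) (x : Fin q) => hg * (x : ℝ)) - 2 * (∑ j, lam j * Y j
          - ∑ j, ∑ j', √(lam j * lam j') * X j j' ^ 2) / ∑ j, lam j| < η

theorem AT2b_of (hsite : S_site2) (hrs : S_riemann) : S_AT2b := by
  intro ι J _ _ _ _ b lam Λ X Y hlam hΛ hbc hbd hform h0 h1 h2 F₀ η hη
  classical
  have hT : 0 < ∑ j, lam j := sum_pos (fun j _ => hlam j) univ_nonempty
  -- integrability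
  have hdec : ∀ a i j (e : ℕ), e ≤ 2 →
      ∃ C, ∀ x, |x ^ e * (b a i x * b a j x)| ≤ C * Real.exp (-x ^ 2 / 8) :=
    fun a i j e he => dec_mul _ _ (hbd a i) (hbd a j) e he
  have hcont : ∀ a i j (e : ℕ), Continuous fun x => x ^ e * (b a i x * b a j x) :=
    fun a i j e => (continuous_pow e).mul ((hbc a i).mul (hbc a j))
  have hint : ∀ a i j (e : ℕ), e ≤ 2 → Integrable fun x => x ^ e * (b a i x * b a j x) :=
    fun a i j e he => integrable_of_dec _ (hcont a i j e) (hdec a i j e he)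
  -- the second moments
  have hY' : ∀ j, HasSum (fun a => ∫ x, x ^ 2 * (b a j x * b a j x)) (Y j) := by
    intro j
    have h3 : (fun a => ∫ x, x ^ 2 * (b a j x * b a j x)) = fun a => ∫ x, x ^ 2 * b a j x ^ 2 := by
      funext a
      exact integral_congr_ae (Eventually.of_forall fun x => by simp only; ring)
    rw [h3]
    exact h2 j
  have hS2 : ∀ i j, Summable fun a => ∫ x, x ^ 2 * (b a i x * b a j x) := by
    intro i j
    have hs := ((hY' i).summable.add (hY' j).summable).mul_left (1 / 2)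
    refine hs.of_norm_bounded fun a => ?_
    rw [← integral_add (hint a i i 2 le_rfl) (hint a j j 2 le_rfl), ← integral_const_mul]
    refine norm_integral_le_of_norm_le
      (((hint a i i 2 le_rfl).add (hint a j j 2 le_rfl)).const_mul _)
      (Eventually.of_forall fun x => ?_)
    simp only [Real.norm_eq_abs]
    rw [abs_mul, abs_mul, abs_of_nonneg (sq_nonneg x)]
    have : |b a i x| * |b a j x| ≤ (b a i x * b a i x + b a j x * b a j x) / 2 := by
      nlinarith [sq_nonneg (|b a i x| - |b a j x|), sq_abs (b a i x), sq_abs (b a j x)]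
    calc x ^ 2 * (|b a i x| * |b a j x|)
        ≤ x ^ 2 * ((b a i x * b a i x + b a j x * b a j x) / 2) :=
          mul_le_mul_of_nonneg_left this (sq_nonneg x)
      _ = _ := by ring
  -- the data
  set Y2 : J → J → ℝ := fun i j => ∑' a, ∫ x, x ^ 2 * (b a i x * b a j x) with hY2
  have hY2j : ∀ j, Y2 j j = Y j := fun j => (hY' j).tsum_eq
  set d0 : Dat ι J := (fun i j => if i = j then 1 else 0, X, Y2,
    fun a i j => ∫ x, b a i x * b a j x, 0) with hd0
  set dF : Finset ι → Dat ι J := fun F =>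
    (fun i j => ∑ a ∈ F, ∫ x, b a i x * b a j x,
     fun i j => ∑ a ∈ F, ∫ x, x * (b a i x * b a j x),
     fun i j => ∑ a ∈ F, ∫ x, x ^ 2 * (b a i x * b a j x),
     fun a i j => ∫ x, b a i x * b a j x, 0) with hdF
  have hlimF : Tendsto dF atTop (𝓝 d0) := by
    refine Tendsto.prodMk_nhds ?_ (Tendsto.prodMk_nhds ?_ (Tendsto.prodMk_nhds ?_
      (Tendsto.prodMk_nhds tendsto_const_nhds tendsto_const_nhds)))
    · exact tendsto_pi_nhds.mpr fun i => tendsto_pi_nhds.mpr fun j => h0 i j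
    · exact tendsto_pi_nhds.mpr fun i => tendsto_pi_nhds.mpr fun j => h1 i j
    · exact tendsto_pi_nhds.mpr fun i => tendsto_pi_nhds.mpr fun j => (hS2 i j).hasSum
  have hrs' : ∀ a i j (e : ℕ), e ≤ 2 → Tendsto (fun m => rs m fun x => x ^ e * (b a i x * b a j x))
      atTop (𝓝 (∫ x, x ^ e * (b a i x * b a j x))) :=
    fun a i j e he => hrs _ (hcont a i j e) (hdec a i j e he)
  have hrs0 : ∀ a i j, Tendsto (fun m => rs m fun x => b a i x * b a j x)
      atTop (𝓝 (∫ x, b a i x * b a j x)) := by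
    intro a i j
    simpa using hrs' a i j 0 (by norm_num)
  have hrs1 : ∀ a i j, Tendsto (fun m => rs m fun x => x * (b a i x * b a j x))
      atTop (𝓝 (∫ x, x * (b a i x * b a j x))) := by
    intro a i j
    simpa using hrs' a i j 1 (by norm_num)
  have hlimm : ∀ F, Tendsto (fun m => dat b m F) atTop (𝓝 (dF F)) := by
    intro F
    refine Tendsto.prodMk_nhds ?_ (Tendsto.prodMk_nhds ?_ (Tendsto.prodMk_nhds ?_
      (Tendsto.prodMk_nhds ?_ ?_)))
    · exact tendsto_pi_nhds.mpr fun i => tendsto_pi_nhds.mpr fun j =>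
        tendsto_finsetSum _ fun a _ => hrs0 a i j
    · exact tendsto_pi_nhds.mpr fun i => tendsto_pi_nhds.mpr fun j =>
        tendsto_finsetSum _ fun a _ => hrs1 a i j
    · exact tendsto_pi_nhds.mpr fun i => tendsto_pi_nhds.mpr fun j =>
        tendsto_finsetSum _ fun a _ => hrs' a i j 2 le_rfl
    · exact tendsto_pi_nhds.mpr fun a => tendsto_pi_nhds.mpr fun i => tendsto_pi_nhds.mpr fun j =>
        hrs0 a i j
    · have h3 : Tendsto (fun m : ℕ => (6 * (m : ℝ) ^ 2)) atTop atTop := by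
        have : Tendsto (fun m : ℕ => ((m : ℝ)) ^ 2) atTop atTop :=
          (tendsto_pow_atTop two_ne_zero).comp tendsto_natCast_atTop_atTop
        exact this.const_mul_atTop (by norm_num)
      exact h3.inv_tendsto_atTop.congr fun m => by
        simp only [Pi.inv_apply, one_div]
  -- the constants
  set ε : ℝ := η / 2 with hε
  have hε0 : 0 < ε := by positivity
  have hcard : (0 : ℝ) < Fintype.card J := by exact_mod_cast Fintype.card_pos
  obtain ⟨e, he0, he⟩ : ∃ e : ℝ, 0 < e ∧ ∀ j, Fintype.card J * e < √(lam j) ∧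
      Fintype.card J * e ≤ ε * √(lam j) := by
    obtain ⟨j0, -, hj0⟩ := exists_min_image (univ : Finset J) (fun j => √(lam j)) univ_nonempty
    have hj0' := Real.sqrt_pos.mpr (hlam j0)
    refine ⟨min (1 / 2) ε * √(lam j0) / Fintype.card J, by positivity, fun j => ?_⟩
    have h3 : (Fintype.card J : ℝ) * (min (1 / 2) ε * √(lam j0) / Fintype.card J)
        = min (1 / 2) ε * √(lam j0) := by field_simp
    rw [h3]
    have h4 := hj0 j (mem_univ j)
    constructor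
    · have h5 : min (1 / 2) ε * √(lam j0) ≤ 1 / 2 * √(lam j0) :=
        mul_le_mul_of_nonneg_right (min_le_left _ _) hj0'.le
      linarith
    · exact mul_le_mul (min_le_right _ _) h4 hj0'.le hε0.le
  -- the good data
  have hd1 : ∀ i j, d0.1 i j = if i = j then 1 else 0 := fun i j => rfl
  have hval := val2_lim lam hlam Λ F₀ ε d0 hd1
  have hn0 : vn lam d0 = ∑ j, lam j := vn_lim lam hlam d0 hd1
  have hn0' : vn lam d0 ≠ 0 := by rw [hn0]; exact hT.ne'
  have hgood : ∀ᶠ d in 𝓝 d0, (∀ i j, |vK lam d i j - if i = j then √(lam i) else 0| ≤ e) ∧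
      0 < vn lam d ∧ val2 lam Λ F₀ ε d0 - η / 4 < val2 lam Λ F₀ ε d ∧
      |vY lam d / vn lam d - vY lam d0 / vn lam d0| < η ∧
      |2 / vn lam d * (vY lam d - vX lam d)
        - 2 / vn lam d0 * (vY lam d0 - vX lam d0)| < η := by
    refine Eventually.and ?_ (Eventually.and ?_ (Eventually.and ?_ (Eventually.and ?_ ?_)))
    · refine eventually_all.mpr fun i => eventually_all.mpr fun j => ?_
      have h3 : Tendsto (fun d => vK lam d i j) (𝓝 d0) (𝓝 (if i = j then √(lam i) else 0)) := by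
        rw [← vK_lim lam d0 hd1 i j]
        exact (cont_vK lam i j).continuousAt
      have h4 := Metric.tendsto_nhds.mp h3 e he0
      filter_upwards [h4] with d hd
      rw [Real.dist_eq] at hd
      exact hd.le
    · have h3 : Tendsto (fun d => vn lam d) (𝓝 d0) (𝓝 (∑ j, lam j)) := by
        rw [← vn_lim lam hlam d0 hd1]
        exact (cont_vn lam).continuousAt
      exact h3.eventually_const_lt hT
    · have h3 : ContinuousAt (fun d => val2 lam Λ F₀ ε d) d0 :=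
        contAt_val2 lam Λ F₀ ε d0 hn0'
      exact h3.eventually_const_lt (by linarith)
    · have h3 : ContinuousAt (fun d => vY lam d / vn lam d) d0 :=
        (cont_vY lam).continuousAt.div (cont_vn lam).continuousAt hn0'
      have h4 := Metric.tendsto_nhds.mp h3 η hη
      filter_upwards [h4] with d hd
      rwa [Real.dist_eq] at hd
    · have h3 : ContinuousAt (fun d => 2 / vn lam d * (vY lam d - vX lam d)) d0 :=
        (continuousAt_const.div (cont_vn lam).continuousAt hn0').mul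
          ((cont_vY lam).continuousAt.sub (cont_vX lam).continuousAt)
      have h4 := Metric.tendsto_nhds.mp h3 η hη
      filter_upwards [h4] with d hd
      rwa [Real.dist_eq] at hd
  -- choice of `F`
  have hι : Nonempty ι := by
    by_contra hne
    rw [not_nonempty_iff] at hne
    obtain ⟨j⟩ := (inferInstance : Nonempty J)
    have h3 := h0 j j
    rw [if_pos rfl] at h3
    have h4 := h3.unique (hasSum_empty)
    exact one_ne_zero h4
  obtain ⟨i0⟩ := hι
  have hFe : ∀ᶠ F in atTop, (∀ᶠ d in 𝓝 (dF F),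
      ((∀ i j, |vK lam d i j - if i = j then √(lam i) else 0| ≤ e) ∧
      0 < vn lam d ∧ val2 lam Λ F₀ ε d0 - η / 4 < val2 lam Λ F₀ ε d ∧
      |vY lam d / vn lam d - vY lam d0 / vn lam d0| < η ∧
      |2 / vn lam d * (vY lam d - vX lam d)
        - 2 / vn lam d0 * (vY lam d0 - vX lam d0)| < η)) ∧ insert i0 F₀ ≤ F :=
    (hlimF.eventually (eventually_eventually_nhds.mpr hgood)).and (eventually_ge_atTop _)
  obtain ⟨F, hF1, hF2⟩ := hFe.exists
  have hF0 : F₀ ⊆ F := (subset_insert i0 F₀).trans hF2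
  have hFi : i0 ∈ F := hF2 (mem_insert_self i0 F₀)
  obtain ⟨m2, hm2⟩ := exists_nat_gt (1 / η)
  obtain ⟨m, ⟨hm1, hm2', hm3, hm5, hm6⟩, hm4⟩ := (((hlimm F).eventually hF1).and
    (eventually_ge_atTop (max (Fintype.card J + 1) (m2 + 1)))).exists
  have hm4a : Fintype.card J + 1 ≤ m := le_trans (le_max_left _ _) hm4
  have hm4b : m2 + 1 ≤ m := le_trans (le_max_right _ _) hm4
  have hm0 : 0 < m := by omega
  have hmR : (0 : ℝ) < m := by exact_mod_cast hm0
  have hmη : 1 / (m : ℝ) < η := by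
    have h3 : (m2 : ℝ) < m := by exact_mod_cast hm4b
    have h4 : 1 / η < m := hm2.trans h3
    rw [div_lt_iff₀ hη] at h4
    rw [div_lt_iff₀ hmR]
    linarith
  have hmJ : Fintype.card J ≤ (2 * m ^ 2 + 1) * F.card := by
    have h3 : 1 ≤ F.card := card_pos.mpr ⟨i0, hFi⟩
    have h4 : m ≤ m ^ 2 := Nat.le_self_pow two_ne_zero m
    calc Fintype.card J ≤ 2 * m ^ 2 + 1 := by omega
      _ = (2 * m ^ 2 + 1) * 1 := by ring
      _ ≤ _ := Nat.mul_le_mul_left _ h3
  obtain ⟨s, hs1, hs2, hs3⟩ :=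
    site_of_dat2 hsite b lam Λ hlam hΛ hform F₀ F hF0 m hm0 hmJ ε e hε0 he hm1 hm2'
  have h3 : Real.log (1 + ε) ≤ ε := by
    have := Real.log_le_sub_one_of_pos (show (0 : ℝ) < 1 + ε by linarith)
    linarith
  have h4 : ∀ i j, d0.2.2.2.1 i j j = ∫ x, b i j x ^ 2 := by
    intro i j
    simp only [hd0]
    exact integral_congr_ae (Eventually.of_forall fun x => by simp only; ring)
  have h5 : ∀ j, d0.2.2.1 j j = Y j := hY2j
  have h6 : d0.2.1 = X := rfl
  have hY0 : vY lam d0 = ∑ j, lam j * Y j := by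
    rw [vY_lim lam hlam d0 hd1]
    simp_rw [h5]
  have hX0 : vX lam d0 = ∑ i, ∑ j, √(lam i * lam j) * X i j ^ 2 := by
    rw [vX_lim lam hlam d0, h6]
  refine ⟨_, inferInstance, inferInstance, _, s, -(m : ℝ), 1 / (m : ℝ), by positivity, hmη,
    ?_, ?_, ?_⟩
  · rw [hval] at hm3
    simp_rw [h4, h5] at hm3
    rw [Real.log_div one_ne_zero hmR.ne', Real.log_one]
    linarith
  · rw [hs2]
    rw [hY0, hn0] at hm5
    exact hm5
  · rw [hs3]
    rw [hY0, hn0, hX0] at hm6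
    convert hm6 using 3
    ring

theorem at2b : S_AT2b := AT2b_of site2 Pool.Agent.W583.GP.riemann

section

variable {n : ℕ} {O : Fin (n + 1) → Fin (n + 1) → ℝ} {c : Fin (n + 1) → ℝ}
    {χ : (Fin (n + 1) → ℕ) → (Fin (n + 1) → ℝ) → ℝ} {O' : Fin n → Fin n → ℝ} {c' : Fin n → ℝ}
    {χ' : (Fin n → ℕ) → (Fin n → ℝ) → ℝ}

theorem gauss_step2b (hAT : S_AT2b) (hent : S_entropy) (hs1 : S_sl1) (hs2 : S_sl2) (hs3 : S_sl3)
    (hP : Pair O c χ O' c' χ') (K : ℕ) (hK : 0 < K)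
    (F₀ : Finset (Fin n → ℕ)) (η : ℝ) (hη : 0 < η) :
    ∃ (Ω : Type) (_ : Fintype Ω) (_ : DecidableEq Ω) (q : ℕ) (s : Site Ω (Fin q)) (a0 hg : ℝ),
      0 < hg ∧ hg < η ∧
      s.S - s.h - Real.log hg <
        -((1 / 2 * Real.log Real.pi * (∑ κ ∈ box (n + 1) K, Lam c κ)
          + (∑ κ ∈ box (n + 1) K, Lam c κ * mY χ 0 κ)
          - (∑ κ' ∈ F₀, (∑ κ ∈ box (n + 1) K, Lam c κ * ∫ x, bb χ' χ κ' κ x ^ 2) *
              Real.log (Lam c' κ'))
          + (∑ κ ∈ box (n + 1) K, Lam c κ * Real.log (Lam c κ)))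
            / (∑ κ ∈ box (n + 1) K, Lam c κ)) + η ∧
      |∑ x, s.P x * (a0 + hg * (x : ℝ)) ^ 2 - (∑ κ ∈ box (n + 1) K, Lam c κ * mY χ 0 κ)
            / (∑ κ ∈ box (n + 1) K, Lam c κ)| < η ∧
      |s.E (fun (_ : Unit) (x : Fin q) => hg * (x : ℝ)) -
        (2 * (∑ κ ∈ box (n + 1) K, Lam c κ * mY χ 0 κ
          - ∑ κ ∈ box (n + 1) K, ∑ κ' ∈ box (n + 1) K,
            √(Lam c κ * Lam c κ') * mX χ 0 κ κ' ^ 2)) / (∑ κ ∈ box (n + 1) K, Lam c κ)| < η := by
  classical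
  have hl : ∀ κ, 0 < Lam c κ := fun κ => ((hent _ c hP.pos).1 κ).1
  have hne : Nonempty (box (n + 1) K) := by
    refine ⟨⟨fun _ => 0, ?_⟩⟩
    unfold Pool.Agent.W259.GP.box
    rw [Fintype.mem_piFinset]
    intro j
    rw [mem_range]
    exact hK
  have key := hAT (Fin n → ℕ) (box (n + 1) K) (fun κ' κ x => bb χ' χ κ' κ x)
    (fun κ => Lam c κ) (Lam c') (fun κ κ₁ => mX χ 0 κ κ₁) (fun κ => mY χ 0 κ)
    (fun κ => hl κ) (fun κ' => (hent _ c' hP.pos').1 κ')
    (fun κ' κ => (hs1 n O c χ O' c' χ' hP κ' κ).1)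
    (fun κ' κ => (hs1 n O c χ O' c' χ' hP κ' κ).2)
    ?_ ?_ ?_ ?_ F₀ η hη
  · obtain ⟨Ω, i1, i2, q, s, a0, hg, hg0, hgη, hs1, hs2, hs3⟩ := key
    have h1 : ∀ κ : Fin (n + 1) → ℕ, ∑ j' : (box (n + 1) K), √(Lam c κ * Lam c j') * mX χ 0 κ j' ^ 2
        = ∑ j' ∈ box (n + 1) K, √(Lam c κ * Lam c j') * mX χ 0 κ j' ^ 2 := fun κ =>
      Finset.sum_coe_sort (box (n + 1) K) (fun j' => √(Lam c κ * Lam c j') * mX χ 0 κ j' ^ 2)
    have h2 : ∀ κ' : Fin n → ℕ, ∑ κ : (box (n + 1) K), Lam c κ * ∫ x, bb χ' χ κ' κ x ^ 2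
        = ∑ κ ∈ box (n + 1) K, Lam c κ * ∫ x, bb χ' χ κ' κ x ^ 2 := fun κ' =>
      Finset.sum_coe_sort (box (n + 1) K) (fun κ => Lam c κ * ∫ x, bb χ' χ κ' κ x ^ 2)
    refine ⟨Ω, i1, i2, q, s, a0, hg, hg0, hgη, ?_, ?_, ?_⟩
    · rw [Finset.sum_coe_sort (box (n + 1) K) (fun κ => Lam c κ),
        Finset.sum_coe_sort (box (n + 1) K) (fun κ => Lam c κ * mY χ 0 κ),
        Finset.sum_coe_sort (box (n + 1) K) (fun κ => Lam c κ * Real.log (Lam c κ))] at hs1
      simp only [h2] at hs1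
      exact hs1
    · rw [Finset.sum_coe_sort (box (n + 1) K) (fun κ => Lam c κ),
        Finset.sum_coe_sort (box (n + 1) K) (fun κ => Lam c κ * mY χ 0 κ)] at hs2
      exact hs2
    · rw [Finset.sum_coe_sort (box (n + 1) K) (fun κ => Lam c κ),
        Finset.sum_coe_sort (box (n + 1) K) (fun κ => Lam c κ * mY χ 0 κ)] at hs3
      simp only [h1] at hs3
      rw [Finset.sum_coe_sort (box (n + 1) K) (fun κ => ∑ κ' ∈ box (n + 1) K,
        √(Lam c κ * Lam c κ') * mX χ 0 κ κ' ^ 2)] at hs3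
      exact hs3
  · intro x F v
    rw [Finset.sum_coe_sort (box (n + 1) K)
      (fun κ => Lam c κ * (∑ i ∈ F, v i * bb χ' χ i κ x) ^ 2)]
    exact sum_le_hasSum _ (fun κ _ => mul_nonneg (hl κ).le (sq_nonneg _))
      (hs2 n O c χ O' c' χ' hP x F v)
  · intro κ κ₁
    have h1 := hs3 n O c χ O' c' χ' hP 0 κ κ₁
    simp only [pow_zero, one_mul] at h1
    rw [hP.h.orth] at h1
    have h2 : (if (κ : Fin (n + 1) → ℕ) = κ₁ then (1 : ℝ) else 0) = if κ = κ₁ then 1 else 0 := by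
      simp only [Subtype.ext_iff]
    rw [h2] at h1
    exact h1
  · intro κ κ₁
    have h1 := hs3 n O c χ O' c' χ' hP 1 κ κ₁
    simp only [pow_one] at h1
    exact h1
  · intro κ
    have h1 := hs3 n O c χ O' c' χ' hP 2 κ κ
    simp only [← sq] at h1
    exact h1

end

/-- one-site states from Gaussian states with one measured mode -/
def S_gauss2b : Prop := ∀ (n : ℕ) (O : Fin (n + 1) → Fin (n + 1) → ℝ) (c : Fin (n + 1) → ℝ)
    (O' : Fin n → Fin n → ℝ) (c' : Fin n → ℝ), IsOrth O → IsOrth O' → (∀ j, 0 < c j) →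
    (∀ j, 0 < c' j) → (∀ i l : Fin n, QM O c i.succ l.succ = QM O' c' i l) →
    ∀ η : ℝ, 0 < η →
    ∃ (Ω : Type) (_ : Fintype Ω) (_ : DecidableEq Ω) (q : ℕ) (s : Site Ω (Fin q)) (a0 hg : ℝ),
      0 < hg ∧ hg < η ∧
      s.S - s.h - Real.log hg <
        -(1 / 2 * Real.log Real.pi) - 1 / 2 + ∑ j, gH (c j) - ∑ j, gH (c' j) + η ∧
      |∑ x, s.P x * (a0 + hg * (x : ℝ)) ^ 2 - 1 / 2| < η ∧
      |s.E (fun (_ : Unit) (x : Fin q) => hg * (x : ℝ)) - ∑ j, O j 0 ^ 2 * eC (c j)| < η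

theorem gauss2b_of (hAT : S_AT2b) (heig : S_eig) (hm1 : S_modes1) (hm2 : S_modes2) (hs1 : S_sl1)
    (hs2 : S_sl2) (hs3 : S_sl3) (hmom2 : S_mom2) (hen : S_energy) (hent : S_entropy) :
    S_gauss2b := by
  intro n O c O' c' hO hO' hc hc' hQ η hη
  choose ψ hψ using fun j => heig (c j) (hc j)
  choose ψ' hψ' using fun j => heig (c' j) (hc' j)
  have hP : Pair O c (chi O ψ) O' c' (chi O' ψ') :=
    ⟨modes hm1 hm2 _ O c ψ hO hc hψ, modes hm1 hm2 _ O' c' ψ' hO' hc' hψ', hc, hc', hQ⟩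
  set χ := chi O ψ with hχ
  set χ' := chi O' ψ' with hχ'
  set Ei := ∑ j, O j 0 ^ 2 * eC (c j) with hEi
  have hT := (hent _ c hc).2.1
  have hL := (hent _ c hc).2.2
  have hM := hmom2 (n + 1) O c ψ 0 hO hc hψ
  have hE := hen (n + 1) O c ψ 0 hO hc hψ
  have hL' := (hent _ c' hc').2.2
  -- choice of `F₀`
  have h1 : ∀ᶠ K' in atTop, ∑ κ ∈ box n K', Lam c' κ * Real.log (Lam c' κ)
      < -∑ j, gH (c' j) + η / 4 := hL'.eventually_lt_const (by linarith)
  obtain ⟨K', hK'⟩ := h1.exists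
  -- the limit in `K`
  have hR : Tendsto (fun K => ∑ κ' ∈ box n K', (∑ κ ∈ box (n + 1) K, Lam c κ *
      ∫ x, bb χ' χ κ' κ x ^ 2) * Real.log (Lam c' κ')) atTop
      (𝓝 (∑ κ' ∈ box n K', Lam c' κ' * Real.log (Lam c' κ'))) := by
    refine tendsto_finsetSum _ fun κ' _ => Tendsto.mul_const _ ?_
    have h4 : Tendsto (fun F : Finset (Fin (n + 1) → ℕ) => ∑ κ ∈ F, Lam c κ *
        ∫ x, bb χ' χ κ' κ x ^ 2) atTop (𝓝 (Lam c' κ')) := hasSum_bb hent hs1 hs2 hP κ'
    exact h4.comp (tendsto_box (n + 1))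
  have hlim := (((((hT.const_mul (1 / 2 * Real.log Real.pi)).add hM).sub hR).add hL).div hT
    one_ne_zero).neg
  have hlim2 := hM.div hT one_ne_zero
  have hlim3 := hE.div hT one_ne_zero
  have e1 := hlim.eventually_lt_const (show _ <
      -(1 / 2 * Real.log Real.pi) - 1 / 2 + ∑ j, gH (c j) - ∑ j, gH (c' j) + η / 2 by
    rw [div_one]
    linarith)
  have e2 : ∀ᶠ K in atTop, |(∑ κ ∈ box (n + 1) K, Lam c κ * mY χ 0 κ)
      / (∑ κ ∈ box (n + 1) K, Lam c κ) - 1 / 2| < η / 2 := by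
    have := Metric.tendsto_nhds.mp hlim2 (η / 2) (by positivity)
    filter_upwards [this] with K hK
    rw [Real.dist_eq, div_one] at hK
    exact hK
  have e3 : ∀ᶠ K in atTop, |(2 * (∑ κ ∈ box (n + 1) K, Lam c κ * mY χ 0 κ
          - ∑ κ ∈ box (n + 1) K, ∑ κ' ∈ box (n + 1) K,
            √(Lam c κ * Lam c κ') * mX χ 0 κ κ' ^ 2)) / (∑ κ ∈ box (n + 1) K, Lam c κ)
      - Ei| < η / 2 := by
    have := Metric.tendsto_nhds.mp hlim3 (η / 2) (by positivity)
    filter_upwards [this] with K hK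
    rw [Real.dist_eq, div_one] at hK
    exact hK
  obtain ⟨K, hK1, hK2, hK3, hK4⟩ := (e1.and (e2.and (e3.and (eventually_gt_atTop 0)))).exists
  obtain ⟨Ω, i1, i2, q, s, a0, hg, hg0, hgη, g1, g2, g3⟩ :=
    gauss_step2b hAT hent hs1 hs2 hs3 hP K hK4 (box n K') (η / 2) (by positivity)
  refine ⟨Ω, i1, i2, q, s, a0, hg, hg0, by linarith, ?_, ?_, ?_⟩
  · simp only [Pi.div_apply] at hK1
    linarith
  · rw [abs_lt] at g2 hK2 ⊢
    constructor <;> linarith [g2.1, g2.2, hK2.1, hK2.2]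
  · rw [abs_lt] at g3 hK3 ⊢
    constructor <;> linarith [g3.1, g3.2, hK3.1, hK3.2]

theorem gauss2b : S_gauss2b :=
  gauss2b_of at2b s_eig Pool.Agent.W390.GPM.modes1 Pool.Agent.W417.GP.modes2
    Pool.Agent.W174.GP.sl1 Pool.Agent.W174.GP.sl2
    (Pool.Agent.W64.GP.sl3_of Pool.Agent.W174.GP.sl1)
    (mom2_of Pool.Agent.W390.GPM.mXY) (energy_of Pool.Agent.W390.GPM.mXY)
    Pool.Agent.W196.GPEnt.entropy


end Pool.Agent.H712.NS
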